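import Mathlib
import Pool.Agent.Lib.MP_8bcb9d_co.PS4

section

/-!
# Linear changes of coordinates; no limit set contains a line
-/

set_option autoImplicit false

namespace Pool.Agent.Lib.MP_8bcb9d_co

open Filter Topology

/-- the point with coordinates `x`, `y` -/
noncomputable def mk (x y : ℝ) : E := !₂[x, y]

@[simp] theorem mk_zero (x y : ℝ) : mk x y 0 = x := by simp [mk]

@[simp] theorem mk_one (x y : ℝ) : mk x y 1 = y := by simp [mk]

theorem ext2 {v w : E} (h0 : v 0 = w 0) (h1 : v 1 = w 1) : v = w := by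
  ext i
  fin_cases i
  · exact h0
  · exact h1

/-- linear map with given matrix -/
noncomputable def linE (a b c d : ℝ) (h : a * d - b * c ≠ 0) : E ≃ₗ[ℝ] E where
  toFun v := mk (a * v 0 + b * v 1) (c * v 0 + d * v 1)
  map_add' v w := ext2 (by simp; ring) (by simp; ring)
  map_smul' s v := ext2 (by simp; ring) (by simp; ring)
  invFun v := mk ((d * v 0 - b * v 1) / (a * d - b * c)) ((a * v 1 - c * v 0) / (a * d - b * c))
  left_inv v := ext2 (by simp only [mk_zero, mk_one]; rw [div_eq_iff h]; ring)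
    (by simp only [mk_zero, mk_one]; rw [div_eq_iff h]; ring)
  right_inv v := ext2
    (by
      simp only [mk_zero, mk_one]
      rw [mul_div_assoc', mul_div_assoc', ← add_div, div_eq_iff h]; ring)
    (by
      simp only [mk_zero, mk_one]
      rw [mul_div_assoc', mul_div_assoc', ← add_div, div_eq_iff h]; ring)

@[simp] theorem linE_zero (a b c d : ℝ) (h : a * d - b * c ≠ 0) (v : E) :
    linE a b c d h v 0 = a * v 0 + b * v 1 := by simp [linE]

@[simp] theorem linE_one (a b c d : ℝ) (h : a * d - b * c ≠ 0) (v : E) :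
    linE a b c d h v 1 = c * v 0 + d * v 1 := by simp [linE]

open Classical in
theorem Lim.linear {K : ℕ} {Φ : Finset E} {T : Set E} (h : Lim K Φ T) (B : E ≃ₗ[ℝ] E) :
    Lim K (Φ.image B) (B '' T) := by
  have h1 := h.affine B.toAffineEquiv
  have h2 : Φ.image (B.toAffineEquiv.linear) = Φ.image B := by
    apply Finset.image_congr
    intro v _
    rfl
  rw [h2] at h1
  exact h1

open Classical in
theorem Dirs.image {Φ : Finset E} (h : Dirs Φ) (B : E ≃ₗ[ℝ] E) : Dirs (Φ.image B) := by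
  constructor
  · intro φ' hφ'
    obtain ⟨φ, hφ, rfl⟩ := Finset.mem_image.1 hφ'
    intro h0
    exact h.1 φ hφ (by simpa using h0)
  · intro φ' hφ' ψ' hψ' c hc hcc
    obtain ⟨φ, hφ, rfl⟩ := Finset.mem_image.1 hφ'
    obtain ⟨ψ, hψ, rfl⟩ := Finset.mem_image.1 hψ'
    rw [← map_smul] at hcc
    rw [h.2 φ hφ ψ hψ c hc (B.injective hcc)]

/-- a median -/
theorem exists_median (s : Finset ℝ) (k : ℕ) (hk : 2 * k ≤ s.card) :
    ∃ c : ℝ, k ≤ (s.filter fun x => x < c).card ∧ k ≤ (s.filter fun x => c < x).card := by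
  classical
  rcases Nat.eq_zero_or_pos k with rfl | hk0
  · exact ⟨0, Nat.zero_le _, Nat.zero_le _⟩
  let e := s.orderEmbOfFin rfl
  have h1 : k - 1 < s.card := by omega
  have h2 : k < s.card := by omega
  have hlt : e ⟨k - 1, h1⟩ < e ⟨k, h2⟩ := by
    rw [e.lt_iff_lt, Fin.lt_def]
    show k - 1 < k
    omega
  have hmem : ∀ i, e i ∈ s := fun i => Finset.orderEmbOfFin_mem s rfl i
  refine ⟨(e ⟨k - 1, h1⟩ + e ⟨k, h2⟩) / 2, ?_, ?_⟩
  · have hsub : ((Finset.univ : Finset (Fin k)).image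
        (fun i : Fin k => e ⟨i.1, by omega⟩)) ⊆
        s.filter fun x => x < (e ⟨k - 1, h1⟩ + e ⟨k, h2⟩) / 2 := by
      intro x hx
      obtain ⟨i, -, rfl⟩ := Finset.mem_image.1 hx
      rw [Finset.mem_filter]
      refine ⟨hmem _, ?_⟩
      have : e ⟨i.1, by omega⟩ ≤ e ⟨k - 1, h1⟩ := by
        rw [e.le_iff_le, Fin.le_def]
        show i.1 ≤ k - 1
        have := i.2
        omega
      linarith
    have hc := Finset.card_le_card hsub
    rw [Finset.card_image_of_injective] at hc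
    · simpa using hc
    · intro i j hij
      have := e.injective hij
      simpa [Fin.ext_iff] using this
  · have hsub : ((Finset.univ : Finset (Fin k)).image
        (fun i : Fin k => e ⟨k + i.1, by have := i.2; omega⟩)) ⊆
        s.filter fun x => (e ⟨k - 1, h1⟩ + e ⟨k, h2⟩) / 2 < x := by
      intro x hx
      obtain ⟨i, -, rfl⟩ := Finset.mem_image.1 hx
      rw [Finset.mem_filter]
      refine ⟨hmem _, ?_⟩
      have : e ⟨k, h2⟩ ≤ e ⟨k + i.1, by have := i.2; omega⟩ := by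
        rw [e.le_iff_le, Fin.le_def]
        show k ≤ k + i.1
        omega
      linarith
    have hc := Finset.card_le_card hsub
    rw [Finset.card_image_of_injective] at hc
    · simpa using hc
    · intro i j hij
      have := e.injective hij
      simpa [Fin.ext_iff] using this

open Classical in
/-- sufficiently many directions can be put in standard position with respect to a line -/
theorem exists_std {Φ : Finset E} (hΦ : Dirs Φ) {K : ℕ} (hcard : 4 * K + 5 ≤ Φ.card) {d : E}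
    (hd : d ≠ 0) : ∃ B : E ≃ₗ[ℝ] E, B d = mk 1 0 ∧ Std K (Φ.image B) := by
  -- `B₁`
  have hD : 0 < d 0 ^ 2 + d 1 ^ 2 := by
    by_contra hcon
    push Not at hcon
    apply hd
    have h0 : d 0 ^ 2 = 0 := by nlinarith [sq_nonneg (d 0), sq_nonneg (d 1)]
    have h1 : d 1 ^ 2 = 0 := by nlinarith [sq_nonneg (d 0), sq_nonneg (d 1)]
    exact ext2 (by simpa using h0) (by simpa using h1)
  set D := d 0 ^ 2 + d 1 ^ 2 with hDdef
  have hdet : d 0 / D * (d 0 / D) - d 1 / D * (-d 1 / D) ≠ 0 := by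
    have : d 0 / D * (d 0 / D) - d 1 / D * (-d 1 / D) = 1 / D := by
      field_simp
      rw [hDdef]; ring
    rw [this]; positivity
  let B₁ : E ≃ₗ[ℝ] E := linE (d 0 / D) (d 1 / D) (-d 1 / D) (d 0 / D) hdet
  have hB₁d : B₁ d = mk 1 0 := by
    apply ext2
    · simp only [B₁, linE_zero, mk_zero]
      field_simp
      rw [hDdef]
    · simp only [B₁, linE_one, mk_one]
      ring
  have hΦ₁ := hΦ.image B₁
  have hcard₁ : 4 * K + 5 ≤ (Φ.image B₁).card := by
    rw [Finset.card_image_of_injective _ B₁.injective]; exact hcard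
  set Φ₁ := Φ.image B₁ with hΦ₁def
  -- at most one direction on each half of the axis
  have hax : ∀ φ ∈ Φ₁, ∀ ψ ∈ Φ₁, φ 1 = 0 → ψ 1 = 0 → 0 < φ 0 * ψ 0 → φ = ψ := by
    intro φ hφ ψ hψ h1 h2 h3
    have hψ0 : ψ 0 ≠ 0 := fun h => by rw [h, mul_zero] at h3; exact lt_irrefl _ h3
    refine hΦ₁.2 φ hφ ψ hψ (φ 0 / ψ 0) ?_ ?_
    · have : φ 0 / ψ 0 = φ 0 * ψ 0 / (ψ 0) ^ 2 := by field_simp
      rw [this]
      have : 0 < (ψ 0) ^ 2 := by positivity
      positivity
    · apply ext2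
      · simp only [PiLp.smul_apply, smul_eq_mul]
        field_simp
      · simp only [PiLp.smul_apply, smul_eq_mul]
        rw [h1, h2, mul_zero]
  have hz : (Φ₁.filter fun φ => φ 1 = 0).card ≤ 2 := by
    have h1 : (Φ₁.filter fun φ => φ 1 = 0) ⊆
        (Φ₁.filter fun φ => φ 1 = 0 ∧ 0 < φ 0) ∪ (Φ₁.filter fun φ => φ 1 = 0 ∧ φ 0 < 0) := by
      intro φ hφ
      rw [Finset.mem_filter] at hφ
      have h0 : φ 0 ≠ 0 := fun h => hΦ₁.1 φ hφ.1 (ext2 (by simpa using h) (by simpa using hφ.2))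
      rw [Finset.mem_union, Finset.mem_filter, Finset.mem_filter]
      rcases lt_or_gt_of_ne h0 with h | h
      · exact Or.inr ⟨hφ.1, hφ.2, h⟩
      · exact Or.inl ⟨hφ.1, hφ.2, h⟩
    have h2 : (Φ₁.filter fun φ => φ 1 = 0 ∧ 0 < φ 0).card ≤ 1 := by
      rw [Finset.card_le_one]
      intro φ hφ ψ hψ
      rw [Finset.mem_filter] at hφ hψ
      exact hax φ hφ.1 ψ hψ.1 hφ.2.1 hψ.2.1 (mul_pos hφ.2.2 hψ.2.2)
    have h3 : (Φ₁.filter fun φ => φ 1 = 0 ∧ φ 0 < 0).card ≤ 1 := by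
      rw [Finset.card_le_one]
      intro φ hφ ψ hψ
      rw [Finset.mem_filter] at hφ hψ
      exact hax φ hφ.1 ψ hψ.1 hφ.2.1 hψ.2.1 (mul_pos_of_neg_of_neg hφ.2.2 hψ.2.2)
    calc _ ≤ _ := Finset.card_le_card h1
      _ ≤ _ := Finset.card_union_le _ _
      _ ≤ 2 := by omega
  have htot : Φ₁.card ≤ (Φ₁.filter fun φ => φ 1 = 0).card + (Φ₁.filter fun φ => 0 < φ 1).card +
      (Φ₁.filter fun φ => φ 1 < 0).card := by
    have h1 : Φ₁ ⊆ ((Φ₁.filter fun φ => φ 1 = 0) ∪ (Φ₁.filter fun φ => 0 < φ 1)) ∪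
        (Φ₁.filter fun φ => φ 1 < 0) := by
      intro φ hφ
      simp only [Finset.mem_union, Finset.mem_filter]
      rcases lt_trichotomy (φ 1) 0 with h | h | h
      · exact Or.inr ⟨hφ, h⟩
      · exact Or.inl (Or.inl ⟨hφ, h⟩)
      · exact Or.inl (Or.inr ⟨hφ, h⟩)
    calc Φ₁.card ≤ _ := Finset.card_le_card h1
      _ ≤ _ := Finset.card_union_le _ _
      _ ≤ _ := Nat.add_le_add_right (Finset.card_union_le _ _) _
  -- `B₂`
  have hB₂ : ∃ B₂ : E ≃ₗ[ℝ] E, B₂ (mk 1 0) = mk 1 0 ∧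
      2 * (K + 1) ≤ ((Φ₁.image B₂).filter fun φ => 0 < φ 1).card := by
    rcases le_or_gt (2 * (K + 1)) (Φ₁.filter fun φ => 0 < φ 1).card with h | h
    · refine ⟨LinearEquiv.refl ℝ E, rfl, ?_⟩
      have : Φ₁.image (LinearEquiv.refl ℝ E) = Φ₁ := by
        ext v; simp
      rw [this]; exact h
    · have h2 : 2 * (K + 1) ≤ (Φ₁.filter fun φ => φ 1 < 0).card := by omega
      have hdet2 : (1 : ℝ) * (-1) - 0 * 0 ≠ 0 := by norm_num
      refine ⟨linE 1 0 0 (-1) hdet2, ?_, ?_⟩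
      · apply ext2 <;> simp
      · refine h2.trans ?_
        rw [← Finset.card_image_of_injective _ (linE 1 0 0 (-1) hdet2).injective]
        apply Finset.card_le_card
        intro v hv
        obtain ⟨φ, hφ, rfl⟩ := Finset.mem_image.1 hv
        rw [Finset.mem_filter] at hφ ⊢
        refine ⟨Finset.mem_image_of_mem _ hφ.1, ?_⟩
        rw [linE_one]
        linarith [hφ.2]
  obtain ⟨B₂, hB₂d, hB₂c⟩ := hB₂
  have hΦ₂ := hΦ₁.image B₂
  set Φ₂ := Φ₁.image B₂ with hΦ₂def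
  -- ratios
  set P := Φ₂.filter fun φ => 0 < φ 1 with hPdef
  have hrinj : Set.InjOn (fun φ : E => φ 0 / φ 1) P := by
    intro φ hφ ψ hψ h
    have hφ' := Finset.mem_filter.1 (Finset.mem_coe.1 hφ)
    have hψ' := Finset.mem_filter.1 (Finset.mem_coe.1 hψ)
    have h1 := hφ'.2
    have h2 := hψ'.2
    simp only at h
    refine hΦ₂.2 φ hφ'.1 ψ hψ'.1 (φ 1 / ψ 1) (div_pos h1 h2) ?_
    apply ext2
    · simp only [PiLp.smul_apply, smul_eq_mul]
      rw [div_eq_div_iff h1.ne' h2.ne'] at h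
      field_simp
      linarith
    · simp only [PiLp.smul_apply, smul_eq_mul]
      field_simp
  obtain ⟨c, hc1, hc2⟩ := exists_median (P.image fun φ : E => φ 0 / φ 1) (K + 1) (by
    rw [Finset.card_image_of_injOn hrinj]; exact hB₂c)
  have hdet3 : (1 : ℝ) * 1 - (-c) * 0 ≠ 0 := by norm_num
  refine ⟨(B₁.trans B₂).trans (linE 1 (-c) 0 1 hdet3), ?_, ?_, ?_⟩
  · rw [LinearEquiv.trans_apply, LinearEquiv.trans_apply, hB₁d, hB₂d]
    apply ext2 <;> simp
  · -- first quadrant: ratios larger than `c`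
    refine hc2.trans ?_
    have h1 : ((P.image fun φ : E => φ 0 / φ 1).filter fun x => c < x) ⊆
        (P.filter fun φ => c < φ 0 / φ 1).image fun φ : E => φ 0 / φ 1 := by
      intro x hx
      rw [Finset.mem_filter] at hx
      obtain ⟨φ, hφ, rfl⟩ := Finset.mem_image.1 hx.1
      exact Finset.mem_image_of_mem _ (Finset.mem_filter.2 ⟨hφ, hx.2⟩)
    refine (Finset.card_le_card h1).trans (Finset.card_image_le.trans ?_)
    rw [← Finset.card_image_of_injective _ (linE 1 (-c) 0 1 hdet3).injective]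
    apply Finset.card_le_card
    intro v hv
    obtain ⟨φ, hφ, rfl⟩ := Finset.mem_image.1 hv
    rw [Finset.mem_filter] at hφ ⊢
    have h3 := (Finset.mem_filter.1 hφ.1)
    obtain ⟨φ₁, hφ₁, rfl⟩ := Finset.mem_image.1 h3.1
    obtain ⟨φ₀, hφ₀, rfl⟩ := Finset.mem_image.1 hφ₁
    have h5 : 0 < B₂ (B₁ φ₀) 1 := h3.2
    have h6 : c < B₂ (B₁ φ₀) 0 / B₂ (B₁ φ₀) 1 := hφ.2
    rw [lt_div_iff₀ h5] at h6
    refine ⟨Finset.mem_image.2 ⟨φ₀, hφ₀, rfl⟩, ?_, ?_⟩
    · rw [linE_zero]; linarith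
    · rw [linE_one]; linarith
  · refine hc1.trans ?_
    have h1 : ((P.image fun φ : E => φ 0 / φ 1).filter fun x => x < c) ⊆
        (P.filter fun φ => φ 0 / φ 1 < c).image fun φ : E => φ 0 / φ 1 := by
      intro x hx
      rw [Finset.mem_filter] at hx
      obtain ⟨φ, hφ, rfl⟩ := Finset.mem_image.1 hx.1
      exact Finset.mem_image_of_mem _ (Finset.mem_filter.2 ⟨hφ, hx.2⟩)
    refine (Finset.card_le_card h1).trans (Finset.card_image_le.trans ?_)
    rw [← Finset.card_image_of_injective _ (linE 1 (-c) 0 1 hdet3).injective]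
    apply Finset.card_le_card
    intro v hv
    obtain ⟨φ, hφ, rfl⟩ := Finset.mem_image.1 hv
    rw [Finset.mem_filter] at hφ ⊢
    have h3 := (Finset.mem_filter.1 hφ.1)
    obtain ⟨φ₁, hφ₁, rfl⟩ := Finset.mem_image.1 h3.1
    obtain ⟨φ₀, hφ₀, rfl⟩ := Finset.mem_image.1 hφ₁
    have h5 : 0 < B₂ (B₁ φ₀) 1 := h3.2
    have h6 : B₂ (B₁ φ₀) 0 / B₂ (B₁ φ₀) 1 < c := hφ.2
    rw [div_lt_iff₀ h5] at h6
    refine ⟨Finset.mem_image.2 ⟨φ₀, hφ₀, rfl⟩, ?_, ?_⟩
    · rw [linE_zero]; linarith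
    · rw [linE_one]; linarith

/-- Above every point of the axis there are points at all heights. -/
theorem above_axis {Φ : Finset E} (hΦ : Dirs Φ) {K : ℕ} (hstd : Std K Φ) {T : Set E}
    (hT : Lim K Φ T) (hline : ∀ s : ℝ, mk s 0 ∈ T) :
    ∃ c > 0, c ≤ 1 / 4 ∧ ∀ x₀ : ℝ, ∀ ρ > 0, ∃ w ∈ T, |w 0 - x₀| ≤ ρ ∧ c * ρ ≤ w 1 ∧ w 1 ≤ ρ := by
  obtain ⟨κ, hκ, c', hc', H⟩ := cone_isolated hΦ hstd
  have h2κ : 0 < 2 / κ + 1 := by positivity
  refine ⟨min (1 / 4) (min (κ / 8) (c' / (4 * (2 / κ + 1)))), by positivity, min_le_left _ _, ?_⟩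
  intro x₀ ρ hρ
  set c := min (1 / 4) (min (κ / 8) (c' / (4 * (2 / κ + 1)))) with hc
  have hc0 : 0 < c := by positivity
  have hc1 : c ≤ 1 / 4 := min_le_left _ _
  have hc2 : c ≤ κ / 8 := (min_le_right _ _).trans (min_le_left _ _)
  have hc3 : c ≤ c' / (4 * (2 / κ + 1)) := (min_le_right _ _).trans (min_le_right _ _)
  by_contra hcon
  push Not at hcon
  have h0c : Continuous fun v : E => v 0 := (EuclideanSpace.proj (𝕜 := ℝ) (0 : Fin 2)).continuous
  have h1c : Continuous fun v : E => v 1 := (EuclideanSpace.proj (𝕜 := ℝ) (1 : Fin 2)).continuous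
  let F : Set E := T ∩ {v | |v 0 - x₀| ≤ ρ ∧ |v 1| ≤ ρ}
  have hFmem : ∀ v, v ∈ F ↔ v ∈ T ∧ |v 0 - x₀| ≤ ρ ∧ |v 1| ≤ ρ := fun v => Iff.rfl
  have hFc : IsCompact F := by
    have h1 : IsClosed F := by
      apply hT.1.inter
      exact (isClosed_le ((h0c.sub continuous_const).abs) continuous_const).inter
        (isClosed_le h1c.abs continuous_const)
    refine (isCompact_closedBall (mk x₀ 0) (2 * ρ)).of_isClosed_subset h1 ?_
    intro v hv
    rw [hFmem] at hv
    rw [Metric.mem_closedBall]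
    have := dist_le_abs v (mk x₀ 0)
    simp only [mk_zero, mk_one, sub_zero] at this
    linarith [hv.2.1, hv.2.2]
  let g : E → ℝ := fun v => v 1 - κ / 2 * |v 0 - x₀|
  have hg : Continuous g := h1c.sub (((h0c.sub continuous_const).abs).const_smul (κ / 2))
  have hx₀F : mk x₀ 0 ∈ F := by
    rw [hFmem]
    refine ⟨hline x₀, ?_, ?_⟩
    · simp [hρ.le]
    · simp [hρ.le]
  obtain ⟨w, hwF, hwmax⟩ := hFc.exists_isMaxOn ⟨_, hx₀F⟩ hg.continuousOn
  rw [hFmem] at hwF
  obtain ⟨hwT, hw0, hw1⟩ := hwF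
  have hgw : 0 ≤ w 1 - κ / 2 * |w 0 - x₀| := by
    have := hwmax hx₀F
    simpa [g] using this
  have hw1' := abs_le.1 hw1
  have hwc : w 1 < c * ρ := by
    by_contra h
    push Not at h
    have := hcon w hwT hw0 h
    linarith [hw1'.2]
  have hw10 : 0 ≤ w 1 := by
    have : 0 ≤ κ / 2 * |w 0 - x₀| := by positivity
    linarith
  have hw0' : |w 0 - x₀| ≤ 2 / κ * (c * ρ) := by
    have h1 : κ / 2 * |w 0 - x₀| ≤ c * ρ := by linarith
    calc |w 0 - x₀| = 2 / κ * (κ / 2 * |w 0 - x₀|) := by field_simp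
      _ ≤ _ := mul_le_mul_of_nonneg_left h1 (by positivity)
  have hw0'' : |w 0 - x₀| ≤ ρ / 4 := by
    refine hw0'.trans ?_
    calc 2 / κ * (c * ρ) ≤ 2 / κ * (κ / 8 * ρ) := by gcongr
      _ = ρ / 4 := by field_simp; norm_num
  have hiso := H T hT w hwT (ρ / 2) (by positivity) (by
    intro v hv hvw
    have a0 := abs_sub_zero_le v w
    have a1 := abs_sub_one_le v w
    have hvF : v ∈ F := by
      rw [hFmem]
      refine ⟨hv, ?_, ?_⟩
      · calc |v 0 - x₀| ≤ |v 0 - w 0| + |w 0 - x₀| := abs_sub_le _ _ _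
          _ ≤ ρ := by linarith
      · have h1 : |v 1| ≤ |v 1 - w 1| + |w 1| := by
          have := abs_add_le (v 1 - w 1) (w 1)
          simpa using this
        rw [abs_of_nonneg hw10] at h1
        nlinarith
    have h1 : v 1 - κ / 2 * |v 0 - x₀| ≤ w 1 - κ / 2 * |w 0 - x₀| := hwmax hvF
    have h2 : |v 0 - x₀| ≤ |v 0 - w 0| + |w 0 - x₀| := abs_sub_le _ _ _
    have h3 := abs_nonneg (v 0 - w 0)
    nlinarith)
  -- two points of the axis near `w`
  have hdw : ∀ s : ℝ, |s - x₀| ≤ c' / 4 * ρ → dist (mk s 0) w ≤ c' * (ρ / 2) := by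
    intro s hs
    have h1 := dist_le_abs (mk s 0) w
    simp only [mk_zero, mk_one, zero_sub, abs_neg] at h1
    rw [abs_of_nonneg hw10] at h1
    have h2 : |s - w 0| ≤ |s - x₀| + |w 0 - x₀| := by
      have := abs_sub_le s x₀ (w 0)
      rwa [abs_sub_comm x₀] at this
    have h3 : (2 / κ + 1) * (c * ρ) ≤ c' / 4 * ρ := by
      calc (2 / κ + 1) * (c * ρ) ≤ (2 / κ + 1) * (c' / (4 * (2 / κ + 1)) * ρ) := by gcongr
        _ = c' / 4 * ρ := by field_simp
    linarith
  have e1 := hiso (mk x₀ 0) (hline x₀) (hdw x₀ (by rw [sub_self, abs_zero]; positivity))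
  have e2 := hiso (mk (x₀ + c' / 4 * ρ) 0) (hline _) (hdw _ (by
    rw [add_sub_cancel_left, abs_of_pos (by positivity)]))
  rw [← e2] at e1
  have e3 := congrArg (fun v : E => v 0) e1
  simp only [mk_zero] at e3
  have : 0 < c' / 4 * ρ := by positivity
  linarith

/-- No limit set contains the horizontal axis. -/
theorem no_axis {Φ : Finset E} (hΦ : Dirs Φ) {K : ℕ} (hstd : Std K Φ) {T : Set E}
    (hT : Lim K Φ T) (hline : ∀ s : ℝ, mk s 0 ∈ T) : False := by
  classical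
  obtain ⟨c, hc, hc1, H⟩ := above_axis hΦ hstd hT hline
  set C : ℝ := 4 * 10 ^ 15 * 8192 ^ K with hC
  have hC0 : 0 < C := by positivity
  obtain ⟨J, hJ⟩ := exists_nat_gt (18 * C + 1)
  set lam : ℝ := c / 2 with hlam
  have hlam0 : 0 < lam := by positivity
  have hlam1 : lam ≤ 1 / 8 := by rw [hlam]; linarith
  have hlamle : lam ≤ 1 := by linarith
  set r : ℝ := lam ^ J with hr
  have hr0 : 0 < r := by positivity
  have hJ1 : 1 ≤ J := by
    by_contra h
    push Not at h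
    have : J = 0 := by omega
    rw [this] at hJ
    push_cast at hJ
    linarith
  have hr1 : r ≤ 1 / 8 := by
    calc r ≤ lam ^ 1 := pow_le_pow_of_le_one hlam0.le hlamle hJ1
      _ ≤ 1 / 8 := by rw [pow_one]; exact hlam1
  -- the points
  have hpt : ∀ (j i : ℕ), ∃ w ∈ T, |w 0 - 3 * r * i| ≤ lam ^ j * r ∧
      c * (lam ^ j * r) ≤ w 1 ∧ w 1 ≤ lam ^ j * r := fun j i =>
    H (3 * r * i) (lam ^ j * r) (by positivity)
  choose w hwT hw0 hw1 hw2 using hpt
  have hdet : (1 : ℝ) * (1 / r) - 0 * 0 ≠ 0 := by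
    have : (1 : ℝ) * (1 / r) - 0 * 0 = 1 / r := by ring
    rw [this]; positivity
  let A : E ≃ₗ[ℝ] E := linE 1 0 0 (1 / r) hdet
  have hA0 : ∀ v : E, A v 0 = v 0 := fun v => by simp [A]
  have hA1 : ∀ v : E, A v 1 = v 1 / r := fun v => by simp [A]; field_simp
  set m : ℕ := ⌊1 / (3 * r)⌋₊ with hm
  have hm1 : (m : ℝ) ≤ 1 / (3 * r) := Nat.floor_le (by positivity)
  have hm2 : 1 / (3 * r) < m + 1 := Nat.lt_floor_add_one _
  have hy1 : ∀ j i, 2 * lam ^ (j + 1) ≤ A (w j i) 1 := by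
    intro j i
    rw [hA1, le_div_iff₀ hr0]
    have := hw1 j i
    calc 2 * lam ^ (j + 1) * r = c * (lam ^ j * r) := by rw [pow_succ, hlam]; ring
      _ ≤ _ := this
  have hy2 : ∀ j i, A (w j i) 1 ≤ lam ^ j := by
    intro j i
    rw [hA1, div_le_iff₀ hr0]
    exact hw2 j i
  have hx : ∀ j i, |A (w j i) 0 - 3 * r * i| ≤ r := by
    intro j i
    rw [hA0]
    refine (hw0 j i).trans ?_
    have : lam ^ j ≤ 1 := pow_le_one₀ hlam0.le hlamle
    nlinarith
  -- separation
  have hsep : ∀ j i j' i' : ℕ, j < J → j' < J → (j, i) ≠ (j', i') →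
      r ≤ dist (A (w j i)) (A (w j' i')) := by
    have hlt : ∀ j i j' i' : ℕ, j < j' → j' < J → r ≤ dist (A (w j i)) (A (w j' i')) := by
      intro j i j' i' hjj hj'
      have h1 := hy1 j i
      have h2 := hy2 j' i'
      have h3 : lam ^ j' ≤ lam ^ (j + 1) := pow_le_pow_of_le_one hlam0.le hlamle hjj
      have h4 : r ≤ lam ^ (j + 1) := pow_le_pow_of_le_one hlam0.le hlamle (by omega)
      have h5 := abs_sub_one_le (A (w j i)) (A (w j' i'))
      have h6 := le_abs_self (A (w j i) 1 - A (w j' i') 1)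
      linarith
    intro j i j' i' hj hj' hne
    rcases lt_trichotomy j j' with h | h | h
    · exact hlt j i j' i' h hj'
    · subst h
      have hii : i ≠ i' := fun h => hne (by rw [h])
      have h1 := abs_le.1 (hx j i)
      have h2 := abs_le.1 (hx j i')
      have h5 := abs_sub_zero_le (A (w j i)) (A (w j i'))
      refine le_trans ?_ h5
      rcases lt_or_gt_of_ne hii with h | h
      · have h3 : (i : ℝ) + 1 ≤ i' := by exact_mod_cast h
        have h4 : 3 * r * (i : ℝ) + 3 * r ≤ 3 * r * i' := by nlinarith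
        rw [abs_sub_comm]
        refine le_trans ?_ (le_abs_self _)
        linarith [h1.1, h1.2, h2.1, h2.2]
      · have h3 : (i' : ℝ) + 1 ≤ i := by exact_mod_cast h
        have h4 : 3 * r * (i' : ℝ) + 3 * r ≤ 3 * r * i := by nlinarith
        refine le_trans ?_ (le_abs_self _)
        linarith [h1.1, h1.2, h2.1, h2.2]
    · rw [dist_comm]
      exact hlt j' i' j i h hj
  let S : Finset E := (Finset.range J ×ˢ Finset.range m).image fun x => A (w x.1 x.2)
  have hinj : Set.InjOn (fun x : ℕ × ℕ => A (w x.1 x.2)) (Finset.range J ×ˢ Finset.range m :) := by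
    intro x hx y hy hxy
    by_contra hne
    have hx' := Finset.mem_product.1 (Finset.mem_coe.1 hx)
    have hy' := Finset.mem_product.1 (Finset.mem_coe.1 hy)
    have := hsep x.1 x.2 y.1 y.2 (Finset.mem_range.1 hx'.1) (Finset.mem_range.1 hy'.1) hne
    simp only at hxy
    rw [hxy, dist_self] at this
    linarith
  have hScard : (S.card : ℝ) = J * m := by
    simp only [S]
    rw [Finset.card_image_of_injOn hinj, Finset.card_product, Finset.card_range,
      Finset.card_range]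
    push_cast; ring
  have hpack := (hT.linear A).packing (S := S) (c := 0) (R := 3) (r := r) (by
      intro v hv
      obtain ⟨x, -, rfl⟩ := Finset.mem_image.1 (Finset.mem_coe.1 hv)
      exact ⟨w x.1 x.2, hwT _ _, rfl⟩) hr0 (by linarith)
    (by
      intro p hp q hq hpq
      obtain ⟨x, hx', rfl⟩ := Finset.mem_image.1 hp
      obtain ⟨y, hy', rfl⟩ := Finset.mem_image.1 hq
      have hx'' := Finset.mem_product.1 hx'
      have hy'' := Finset.mem_product.1 hy'
      exact hsep x.1 x.2 y.1 y.2 (Finset.mem_range.1 hx''.1) (Finset.mem_range.1 hy''.1)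
        (fun h => hpq (by rw [Prod.ext_iff] at h; rw [h.1, h.2])))
    (by
      intro p hp
      obtain ⟨x, hx', rfl⟩ := Finset.mem_image.1 hp
      have hx'' := Finset.mem_product.1 hx'
      have hi : (x.2 : ℝ) ≤ m := by exact_mod_cast (Finset.mem_range.1 hx''.2).le
      have h1 := abs_le.1 (hx x.1 x.2)
      have h2 := hy1 x.1 x.2
      have h3 := hy2 x.1 x.2
      have h4 : lam ^ x.1 ≤ 1 := pow_le_one₀ hlam0.le hlamle
      have h5 : 0 < 2 * lam ^ (x.1 + 1) := by positivity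
      have h6 : 3 * r * (x.2 : ℝ) ≤ 1 := by
        calc 3 * r * (x.2 : ℝ) ≤ 3 * r * (1 / (3 * r)) := by
              apply mul_le_mul_of_nonneg_left (hi.trans hm1) (by positivity)
          _ = 1 := by field_simp
      have h7 : 0 ≤ 3 * r * (x.2 : ℝ) := by positivity
      have h8 := dist_le_abs (A (w x.1 x.2)) 0
      simp only [PiLp.zero_apply, sub_zero] at h8
      have h9 : |A (w x.1 x.2) 0| ≤ 2 := by
        rw [abs_le]; constructor <;> linarith [h1.1, h1.2]
      have h10 : |A (w x.1 x.2) 1| ≤ 1 := by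
        rw [abs_le]; constructor <;> linarith
      linarith)
  rw [hScard, ← hC] at hpack
  have h1 : 1 / (6 * r) ≤ (m : ℝ) := by
    have h2 : 1 / (3 * r) = 2 * (1 / (6 * r)) := by field_simp; norm_num
    have h3 : 1 ≤ 1 / (6 * r) := by
      rw [le_div_iff₀ (by positivity)]; linarith
    linarith
  have h2 : (J : ℝ) * (1 / (6 * r)) ≤ C * (3 / r) :=
    (mul_le_mul_of_nonneg_left h1 (by positivity)).trans hpack
  have h3 : (J : ℝ) ≤ 18 * C := by
    have h4 : (J : ℝ) * (1 / (6 * r)) = J / 18 * (3 / r) := by field_simp; norm_num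
    rw [h4] at h2
    have h5 := le_of_mul_le_mul_right h2 (by positivity)
    linarith
  linarith

/-- **No limit set contains a line.** -/
theorem no_line {Φ : Finset E} (hΦ : Dirs Φ) {K : ℕ} (hcard : 4 * K + 5 ≤ Φ.card) {T : Set E}
    (hT : Lim K Φ T) {x d : E} (hd : d ≠ 0) : ¬ ∀ s : ℝ, x + s • d ∈ T := by
  classical
  intro hline
  obtain ⟨B, hBd, hstd⟩ := exists_std hΦ hcard hd
  have h1 := (hT.homo one_pos x).linear B
  refine no_axis (hΦ.image B) hstd h1 ?_
  intro s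
  refine ⟨s • d, ⟨x + s • d, hline s, by simp⟩, ?_⟩
  rw [map_smul, hBd]
  apply ext2 <;> simp

end Pool.Agent.Lib.MP_8bcb9d_co
end

section

/-!
# Part I: definitions
-/

set_option autoImplicit false

namespace Pool.Agent.Lib.MP_8bcb9d_co

open Filter Topology

/-- the pair `P, Q` is almost mutually nearest, symmetric version -/
structure Near9 (X : Finset E) (P Q : E) : Prop where
  hP : P ∈ X
  hQ : Q ∈ X
  hne : P ≠ Q
  nP : ∀ z ∈ X, z ≠ P → z ≠ Q → 9 / 10 * dist P Q ≤ dist P z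
  nQ : ∀ z ∈ X, z ≠ P → z ≠ Q → 9 / 10 * dist P Q ≤ dist Q z

/-- `0` is in `T` and all annuli with ratio `L` are hit -/
def Syn (L : ℝ) (T : Set E) : Prop :=
  (0 : E) ∈ T ∧ ∀ s > 0, ∃ v ∈ T, s ≤ ‖v‖ ∧ ‖v‖ ≤ L * s

/-- closure of the set of directions -/
def dirs (T : Set E) : Set E := closure {u | ∃ v ∈ T, v ≠ 0 ∧ u = ‖v‖⁻¹ • v}

/-- a limit class member with all annuli hit whose direction set `D` is minimal -/
structure MinDir (K : ℕ) (Φ : Finset E) (L : ℝ) (D : Set E) : Prop where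
  ex : ∃ T, Lim K Φ T ∧ Syn L T ∧ dirs T = D
  min : ∀ T, Lim K Φ T → Syn L T → dirs T ⊆ D → dirs T = D

/-- the set of positions of a sequence of finite sets -/
noncomputable abbrev pos (X : ℕ → Finset E) : Set E := ulim UN (fun n => (X n : Set E))

/-- the sequence `c` goes to infinity in the vertical direction -/
def VInf (c : ℕ → E) : Prop :=
  Tendsto (fun n => |c n 1|) UN atTop ∧ Tendsto (fun n => c n 0 / c n 1) UN (𝓝 0)

/-- infinitely many bounded positions with different abscissas, not all positions on a line,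
and `m` different sequences at vertical infinity -/
structure Stage (K : ℕ) (X : ℕ → Finset E) (m : ℕ) : Prop where
  kset : ∀ n, KSet K (X n)
  inf : ∃ b : ℕ → E, (∀ i, b i ∈ pos X) ∧ (∃ R, ∀ i, ‖b i‖ ≤ R) ∧
    ∀ i j, i ≠ j → b i 0 ≠ b j 0
  nc : ∀ κ μ : ℝ, ∃ v ∈ pos X, v 1 ≠ κ * v 0 + μ
  far : ∃ c : Fin m → ℕ → E, (∀ i, ∀ᶠ n in (UN : Filter ℕ), c i n ∈ X n) ∧ (∀ i, VInf (c i)) ∧
    ∀ i j, i ≠ j → ∀ᶠ n in (UN : Filter ℕ), c i n ≠ c j n

/-- the projective map `(x, y) ↦ (x / y, -1 / y)` of the upper half plane -/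
noncomputable def pr (v : E) : E := mk (v 0 / v 1) (-(v 1)⁻¹)

/-- the stretching map -/
noncomputable def st (κ μ M : ℝ) (v : E) : E := mk (v 0) ((v 1 - κ * v 0 - μ) / M)

end Pool.Agent.Lib.MP_8bcb9d_co
end
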