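import Mathlib
import Pool.Agent.Lib.MP_8bcb9d_co.PI.Def
import Pool.Agent.Lib.MP_8bcb9d_co.W.V0

section

/-!
# Part I: almost mutually nearest pairs, symmetric version, and their missed scales
-/

set_option autoImplicit false

namespace Pool.Agent.Lib.MP_8bcb9d_co

open Filter Topology

theorem Near9.symm {X : Finset E} {P Q : E} (h : Near9 X P Q) : Near9 X Q P :=
  ⟨h.hQ, h.hP, h.hne.symm,
    fun z hz h1 h2 => by rw [dist_comm Q P]; exact h.nQ z hz h2 h1,
    fun z hz h1 h2 => by rw [dist_comm Q P]; exact h.nP z hz h2 h1⟩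

/-- Every pair has an almost mutually nearest pair near it. -/
theorem exists_near9 {X : Finset E} {p q : E} (hp : p ∈ X) (hq : q ∈ X) (hpq : p ≠ q) :
    ∃ P Q : E, Near9 X P Q ∧ dist P Q ≤ dist p q ∧ dist p P ≤ 10 * dist p q := by
  classical
  have hS : X.offDiag.Nonempty := ⟨(p, q), by simp [hp, hq, hpq]⟩
  obtain ⟨⟨P, Q⟩, hPQ, hmin⟩ := X.offDiag.exists_min_image
    (fun x => dist p x.1 + 10 * dist x.1 x.2) hS
  rw [Finset.mem_offDiag] at hPQ
  obtain ⟨hP, hQ, hne⟩ := hPQ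
  have hmin' : ∀ x ∈ X, ∀ y ∈ X, x ≠ y → dist p P + 10 * dist P Q ≤ dist p x + 10 * dist x y :=
    fun x hx y hy hxy => hmin (x, y) (by simp [hx, hy, hxy])
  simp only at hP hQ hne
  have h0 := hmin' p hp q hq hpq
  rw [dist_self] at h0
  have h1 : 0 ≤ dist p P := dist_nonneg
  have h2 : 0 ≤ dist P Q := dist_nonneg
  refine ⟨P, Q, ⟨hP, hQ, hne, ?_, ?_⟩, by linarith, by linarith⟩
  · intro z hz hzP _
    have := hmin' P hP z hz hzP.symm
    linarith
  · intro z hz _ hzQ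
    have h3 := hmin' Q hQ z hz hzQ.symm
    have h4 := dist_triangle p P Q
    linarith

/-- numerical part of the next lemma -/
theorem cone_lower_aux9 {s D C : ℝ} (hs : 0 < s) (hD : 0 < D) (hC : C ^ 2 ≤ D ^ 2 / 100)
    (h1 : 81 / 100 * s ^ 2 ≤ D ^ 2 + C ^ 2)
    (h2 : 81 / 100 * s ^ 2 ≤ (D - s) ^ 2 + C ^ 2) : 4 / 3 * s ≤ D := by
  by_contra hlt
  push Not at hlt
  have h3 : 0.89 * s ≤ D := by
    by_contra h4
    push Not at h4
    nlinarith
  nlinarith

/-- points in the cone are far -/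
theorem cone_lower9 {X : Finset E} {P Q : E} (h : Near9 X P Q) {σ : ℝ} (hσ : σ ^ 2 = 1) {w : E}
    (hw : w ∈ X) (hD : 0 < dt (Q - P) (w - P)) (hC0 : 0 < σ * cr (Q - P) (w - P))
    (hC : σ * cr (Q - P) (w - P) ≤ dt (Q - P) (w - P) / 10) :
    4 / 3 * dt (Q - P) (Q - P) ≤ dt (Q - P) (w - P) := by
  have hwP : w ≠ P := by
    rintro rfl
    rw [sub_self] at hC0
    simp [cr] at hC0
  have hwQ : w ≠ Q := by
    rintro rfl
    have : cr (w - P) (w - P) = 0 := by unfold cr; ring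
    rw [this, mul_zero] at hC0
    exact absurd hC0 (lt_irrefl _)
  have hd : 0 < dist P Q := dist_pos.2 h.hne
  have hs : 0 < dt (Q - P) (Q - P) := by
    rw [← dist_sq_dt]; positivity
  have h1 : 81 / 100 * dist P Q ^ 2 ≤ dist P w ^ 2 := by
    have := h.nP w hw hwP hwQ
    nlinarith
  have h2 : 81 / 100 * dist P Q ^ 2 ≤ dist Q w ^ 2 := by
    have := h.nQ w hw hwP hwQ
    nlinarith [dist_nonneg (x := Q) (y := w)]
  rw [dist_sq_dt, dist_sq_dt] at h1 h2
  have e1 := dt_sq_add_cr_sq (Q - P) (w - P)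
  have e2 : dt (w - Q) (w - Q) = dt (w - P) (w - P) - 2 * dt (Q - P) (w - P) +
      dt (Q - P) (Q - P) := by
    simp only [dt, PiLp.sub_apply]; ring
  rw [e2] at h2
  have e3 : (σ * cr (Q - P) (w - P)) ^ 2 = cr (Q - P) (w - P) ^ 2 := by
    rw [mul_pow, hσ, one_mul]
  refine cone_lower_aux9 hs hD (C := cr (Q - P) (w - P)) ?_ ?_ ?_
  · rw [← e3]
    nlinarith
  · rw [e1]; nlinarith
  · have : ((dt (Q - P) (w - P) - dt (Q - P) (Q - P)) ^ 2 + cr (Q - P) (w - P) ^ 2) =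
        dt (Q - P) (Q - P) * ((dt (w - P) (w - P) - 2 * dt (Q - P) (w - P) +
          dt (Q - P) (Q - P))) := by
      linear_combination e1
    rw [this]
    nlinarith

/-- a point in the cone has a partner with comparable slope -/
theorem cone_partner9 {X : Finset E} (hX : GenPos X) {P Q : E} (h : Near9 X P Q) {σ : ℝ}
    (hσ : σ ^ 2 = 1) {z : E}
    (hz : z ∈ X) (hD : 0 < dt (Q - P) (z - P)) (hC0 : 0 < σ * cr (Q - P) (z - P))
    (hC : σ * cr (Q - P) (z - P) ≤ dt (Q - P) (z - P) / 10) :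
    ∃ w ∈ Deg X P Q, 0 < dt (Q - P) (w - P) ∧ 0 < σ * cr (Q - P) (w - P) ∧
      σ * cr (Q - P) (w - P) * dt (Q - P) (z - P) ≤
        σ * cr (Q - P) (z - P) * dt (Q - P) (w - P) ∧
      σ * cr (Q - P) (z - P) * dt (Q - P) (w - P) ≤
        4 * (σ * cr (Q - P) (w - P)) * dt (Q - P) (z - P) := by
  have hzP : z ≠ P := by
    rintro rfl
    rw [sub_self] at hC0
    simp [cr] at hC0
  have hzQ : z ≠ Q := by
    rintro rfl
    have : cr (z - P) (z - P) = 0 := by unfold cr; ring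
    rw [this, mul_zero] at hC0
    exact absurd hC0 (lt_irrefl _)
  obtain ⟨w, hwD, hwc⟩ := exists_partner hX h.hP h.hQ hz h.hne hzP hzQ
  obtain ⟨a, b, c, ha, hb, hc, habc, hwe⟩ := mem_triangle hwc
  obtain ⟨e1, e2⟩ := cr_comb habc hwe
  have hwX := hwD.1
  have hcr := cr_ne_zero hX h.hP h.hQ hwX h.hne hwD.2.1 hwD.2.2.1
  have hd : 0 < dist P Q := dist_pos.2 h.hne
  have hs : 0 < dt (Q - P) (Q - P) := by
    rw [← dist_sq_dt]; positivity
  set s := dt (Q - P) (Q - P) with hsdef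
  set D := dt (Q - P) (z - P) with hDdef
  set C := σ * cr (Q - P) (z - P) with hCdef
  have hc0 : 0 < c := by
    rcases hc.lt_or_eq with h0 | h0
    · exact h0
    · rw [e1, ← h0, zero_mul] at hcr
      exact absurd rfl hcr
  have hb1 : b ≤ 1 := by linarith
  have e1' : σ * cr (Q - P) (w - P) = c * C := by
    rw [e1, hCdef]; ring
  have hcC : 0 < σ * cr (Q - P) (w - P) := by rw [e1']; positivity
  have hdD : 0 < dt (Q - P) (w - P) := by rw [e2]; positivity
  have hcone : σ * cr (Q - P) (w - P) ≤ dt (Q - P) (w - P) / 10 := by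
    rw [e1', e2]
    nlinarith [mul_nonneg hb hs.le]
  have hfar := cone_lower9 h hσ hwX hdD hcC hcone
  refine ⟨w, hwD, hdD, hcC, ?_, ?_⟩
  · rw [e1', e2]
    nlinarith [mul_nonneg (mul_nonneg hb hs.le) hC0.le]
  · rw [← hsdef, e2] at hfar
    rw [e1', e2]
    have h3 : b * s ≤ 3 * (c * D) := by nlinarith
    nlinarith

/-- an almost mutually nearest pair has a missed scale, on both sides -/
theorem missed9_sign {X : Finset E} (hX : GenPos X) {P Q : E} (h : Near9 X P Q) {K : ℕ}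
    (hK : (Deg X P Q).ncard ≤ K) {σ : ℝ} (hσ : σ ^ 2 = 1) :
    ∃ j ≤ K, ∀ z ∈ X, 0 < dt (Q - P) (z - P) →
      ¬ (eta j * dt (Q - P) (z - P) ≤ σ * cr (Q - P) (z - P) ∧
        σ * cr (Q - P) (z - P) < 4 * eta j * dt (Q - P) (z - P)) := by
  classical
  by_contra hcon
  push Not at hcon
  have key : ∀ j : ℕ, ∃ w : E, j ≤ K → (w ∈ Deg X P Q ∧ 0 < dt (Q - P) (w - P) ∧
      eta j / 4 * dt (Q - P) (w - P) ≤ σ * cr (Q - P) (w - P) ∧
      σ * cr (Q - P) (w - P) < 4 * eta j * dt (Q - P) (w - P)) := by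
    intro j
    by_cases hj : j ≤ K
    · obtain ⟨z, hz, hD, h1, h2⟩ := hcon j hj
      have he := eta_pos j
      have he' := eta_le j
      have hC0 : 0 < σ * cr (Q - P) (z - P) := lt_of_lt_of_le (by positivity) h1
      have hC : σ * cr (Q - P) (z - P) ≤ dt (Q - P) (z - P) / 10 := by nlinarith
      obtain ⟨w, hw, hwD, hwC, h3, h4⟩ := cone_partner9 hX h hσ hz hD hC0 hC
      refine ⟨w, fun _ => ⟨hw, hwD, ?_, ?_⟩⟩
      · have h5 : eta j * dt (Q - P) (z - P) * dt (Q - P) (w - P) ≤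
            4 * (σ * cr (Q - P) (w - P)) * dt (Q - P) (z - P) :=
          (mul_le_mul_of_nonneg_right h1 hwD.le).trans h4
        have h6 : (eta j * dt (Q - P) (w - P)) * dt (Q - P) (z - P) ≤
            (4 * (σ * cr (Q - P) (w - P))) * dt (Q - P) (z - P) := by linarith
        have h7 := le_of_mul_le_mul_right h6 hD
        linarith
      · have h5 : σ * cr (Q - P) (w - P) * dt (Q - P) (z - P) <
            4 * eta j * dt (Q - P) (w - P) * dt (Q - P) (z - P) := by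
          calc σ * cr (Q - P) (w - P) * dt (Q - P) (z - P)
              ≤ σ * cr (Q - P) (z - P) * dt (Q - P) (w - P) := h3
            _ < 4 * eta j * dt (Q - P) (z - P) * dt (Q - P) (w - P) :=
                mul_lt_mul_of_pos_right h2 hwD
            _ = _ := by ring
        exact lt_of_mul_lt_mul_right h5 hD.le
    · exact ⟨P, fun h => absurd h hj⟩
  choose f hf using key
  have hfin := Deg.finite X P Q
  have h1 : (Finset.range (K + 1)).card ≤ hfin.toFinset.card := by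
    apply Finset.card_le_card_of_injOn f
    · intro j hj
      have hj' : j ≤ K := by simpa [Nat.lt_succ_iff] using hj
      simpa using (hf j hj').1
    · intro i hi j hj hij
      have hi' : i ≤ K := by simpa [Nat.lt_succ_iff] using hi
      have hj' : j ≤ K := by simpa [Nat.lt_succ_iff] using hj
      obtain ⟨-, a1, a2, a3⟩ := hf i hi'
      obtain ⟨-, b1, b2, b3⟩ := hf j hj'
      rw [hij] at a1 a2 a3
      by_contra hne
      rcases lt_or_gt_of_ne hne with hlt | hlt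
      · have := eta_lt hlt
        nlinarith
      · have := eta_lt hlt
        nlinarith
  rw [Finset.card_range, ← Set.ncard_eq_toFinset_card _ hfin] at h1
  omega

theorem missed9 {X : Finset E} (hX : GenPos X) {P Q : E} (h : Near9 X P Q) {K : ℕ}
    (hK : (Deg X P Q).ncard ≤ K) :
    ∃ j ≤ K, ∀ z ∈ X, 0 < dt (Q - P) (z - P) →
      ¬ (eta j * dt (Q - P) (z - P) ≤ cr (Q - P) (z - P) ∧
        cr (Q - P) (z - P) < 4 * eta j * dt (Q - P) (z - P)) := by
  obtain ⟨j, hj, H⟩ := missed9_sign hX h hK (σ := 1) (by norm_num)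
  refine ⟨j, hj, fun z hz hz1 hz2 => H z hz hz1 ?_⟩
  rwa [one_mul]

theorem missed9_neg {X : Finset E} (hX : GenPos X) {P Q : E} (h : Near9 X P Q) {K : ℕ}
    (hK : (Deg X P Q).ncard ≤ K) :
    ∃ j ≤ K, ∀ z ∈ X, 0 < dt (Q - P) (z - P) →
      ¬ (eta j * dt (Q - P) (z - P) ≤ - cr (Q - P) (z - P) ∧
        - cr (Q - P) (z - P) < 4 * eta j * dt (Q - P) (z - P)) := by
  obtain ⟨j, hj, H⟩ := missed9_sign hX h hK (σ := -1) (by norm_num)
  refine ⟨j, hj, fun z hz hz1 hz2 => H z hz hz1 ?_⟩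
  rwa [neg_one_mul]

end Pool.Agent.Lib.MP_8bcb9d_co
end

section

/-!
# World Fin: toolkit for internal sets
-/

set_option autoImplicit false

namespace Pool.Agent.Lib.MP_8bcb9d_co.W

variable {F G : Type} [Field F] [LinearOrder F] [IsStrictOrderedRing F]
  [AddCommGroup G] [LinearOrder G] [IsOrderedAddMonoid G] (W : World F G)

/-- Proof: `S ∩ T = S \ (S \ T)`. -/
theorem World.I_inter {S T : Set (F × F)} (hS : S ∈ W.I) (hT : T ∈ W.I) : S ∩ T ∈ W.I := by
  have h : S ∩ T = S \ (S \ T) := by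
    ext p
    simp only [Set.mem_inter_iff, Set.mem_diff, not_and, not_not]
    tauto
  rw [h]
  exact W.I_diff _ hS _ (W.I_diff _ hS _ hT)

/-- Proof: `I_half` for `-a`, `-b`, `-c`. -/
theorem World.I_ge {S : Set (F × F)} (hS : S ∈ W.I) (a b c : F) :
    {p ∈ S | c ≤ a * p.1 + b * p.2} ∈ W.I := by
  have h : {p ∈ S | c ≤ a * p.1 + b * p.2} = {p ∈ S | (-a) * p.1 + (-b) * p.2 ≤ -c} := by
    ext p
    simp only [Set.mem_setOf_eq]
    constructor
    · rintro ⟨h1, h2⟩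
      exact ⟨h1, by linarith⟩
    · rintro ⟨h1, h2⟩
      exact ⟨h1, by linarith⟩
  rw [h]
  exact W.I_half _ hS _ _ _

/-- Proof: complement of `I_ge` in `S`. -/
theorem World.I_lt {S : Set (F × F)} (hS : S ∈ W.I) (a b c : F) :
    {p ∈ S | a * p.1 + b * p.2 < c} ∈ W.I := by
  have h : {p ∈ S | a * p.1 + b * p.2 < c} = S \ {p ∈ S | c ≤ a * p.1 + b * p.2} := by
    ext p
    simp only [Set.mem_setOf_eq, Set.mem_diff, not_and, not_le]
    tauto
  rw [h]
  exact W.I_diff _ hS _ (W.I_ge hS _ _ _)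

/-- Proof: complement of `I_half` in `S`. -/
theorem World.I_gt {S : Set (F × F)} (hS : S ∈ W.I) (a b c : F) :
    {p ∈ S | c < a * p.1 + b * p.2} ∈ W.I := by
  have h : {p ∈ S | c < a * p.1 + b * p.2} = S \ {p ∈ S | a * p.1 + b * p.2 ≤ c} := by
    ext p
    simp only [Set.mem_setOf_eq, Set.mem_diff, not_and, not_le]
    tauto
  rw [h]
  exact W.I_diff _ hS _ (W.I_half _ hS _ _ _)

/-- Proof: four half planes. -/
theorem World.I_box {S : Set (F × F)} (hS : S ∈ W.I) (z : F × F) (r : F) :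
    {p ∈ S | nrm (p - z) ≤ r} ∈ W.I := by
  have h1 := W.I_half _ hS 1 0 (z.1 + r)
  have h2 := W.I_half _ h1 (-1) 0 (r - z.1)
  have h3 := W.I_half _ h2 0 1 (z.2 + r)
  have h4 := W.I_half _ h3 0 (-1) (r - z.2)
  convert h4 using 1
  ext p
  simp only [Set.mem_setOf_eq, nrm, Prod.fst_sub, Prod.snd_sub, max_le_iff, abs_le]
  constructor
  · rintro ⟨h, ⟨a1, a2⟩, a3, a4⟩
    exact ⟨⟨⟨⟨h, by linarith⟩, by linarith⟩, by linarith⟩, by linarith⟩
  · rintro ⟨⟨⟨⟨h, a1⟩, a2⟩, a3⟩, a4⟩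
    exact ⟨h, ⟨by linarith, by linarith⟩, by linarith, by linarith⟩

/-- Proof: `{p ∈ S | nrm (p - a) ≤ 0}`. -/
theorem World.I_single {S : Set (F × F)} (hS : S ∈ W.I) {a : F × F} (ha : a ∈ S) :
    {a} ∈ W.I := by
  have h1 := W.I_box hS a 0
  convert h1 using 1
  ext p
  simp only [Set.mem_singleton_iff, Set.mem_setOf_eq, nrm, Prod.fst_sub, Prod.snd_sub,
    max_le_iff, abs_nonpos_iff, sub_eq_zero]
  constructor
  · rintro rfl
    exact ⟨ha, rfl, rfl⟩
  · rintro ⟨_, h2, h3⟩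
    exact Prod.ext h2 h3

/-- Proof: induction on the finite set; `I_diff`, `I_single`. -/
theorem World.I_diff_finite {S A : Set (F × F)} (hS : S ∈ W.I) (hA : A.Finite) :
    S \ A ∈ W.I := by
  induction A, hA using Set.Finite.induction_on with
  | empty => simpa using hS
  | @insert a A _ _ ih =>
    by_cases ha : a ∈ S \ A
    · have h : S \ insert a A = (S \ A) \ {a} := by
        ext p
        simp only [Set.mem_diff, Set.mem_insert_iff, Set.mem_singleton_iff]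
        tauto
      rw [h]
      exact W.I_diff _ ih _ (W.I_single ih ha)
    · have h : S \ insert a A = S \ A := by
        ext p
        simp only [Set.mem_diff, Set.mem_insert_iff]
        constructor
        · rintro ⟨h1, h2⟩
          exact ⟨h1, fun h => h2 (Or.inr h)⟩
        · rintro ⟨h1, h2⟩
          refine ⟨h1, ?_⟩
          rintro (rfl | h3)
          · exact ha ⟨h1, h2⟩
          · exact h2 h3
      rw [h]
      exact ih

/-- A finite union of box cuts. Proof: induction on the finite set `Z` (start: `S \ S`). -/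
theorem World.I_boxes {S : Set (F × F)} (hS : S ∈ W.I) (Z : Finset (F × F)) (r : F) :
    {p ∈ S | ∃ z ∈ Z, nrm (p - z) ≤ r} ∈ W.I := by
  classical
  induction Z using Finset.induction_on with
  | empty =>
    have h : {p ∈ S | ∃ z ∈ (∅ : Finset (F × F)), nrm (p - z) ≤ r} = S \ S := by
      ext p
      simp
    rw [h]
    exact W.I_diff _ hS _ hS
  | insert a Z _ ih =>
    have h : {p ∈ S | ∃ z ∈ insert a Z, nrm (p - z) ≤ r} =
        {p ∈ S | nrm (p - a) ≤ r} ∪ {p ∈ S | ∃ z ∈ Z, nrm (p - z) ≤ r} := by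
      ext p
      simp only [Finset.mem_insert, Set.mem_setOf_eq, Set.mem_union]
      constructor
      · rintro ⟨h1, z, rfl | hz, h2⟩
        · exact Or.inl ⟨h1, h2⟩
        · exact Or.inr ⟨h1, z, hz, h2⟩
      · rintro (⟨h1, h2⟩ | ⟨h1, z, hz, h2⟩)
        · exact ⟨h1, a, Or.inl rfl, h2⟩
        · exact ⟨h1, z, Or.inr hz, h2⟩
    rw [h]
    exact W.I_union _ (W.I_box hS a r) _ ih

/-- Proof: `argmin` for the four functionals `±p.1`, `±p.2`: the norm is the maximum of the four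
maxima; take the point where the largest of them is attained. -/
theorem World.argmax_nrm {S : Set (F × F)} (hS : S ∈ W.I) (hne : S.Nonempty) :
    ∃ p ∈ S, ∀ q ∈ S, nrm q ≤ nrm p := by
  obtain ⟨p1, hp1, h1⟩ := W.argmin S hS hne 1 0
  obtain ⟨p2, hp2, h2⟩ := W.argmin S hS hne (-1) 0
  obtain ⟨p3, hp3, h3⟩ := W.argmin S hS hne 0 1
  obtain ⟨p4, hp4, h4⟩ := W.argmin S hS hne 0 (-1)
  obtain ⟨P, hP, hPS⟩ : ∃ P : Finset (F × F), P = {p1, p2, p3, p4} ∧ ∀ p ∈ P, p ∈ S := by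
    classical
    refine ⟨{p1, p2, p3, p4}, rfl, ?_⟩
    intro p hp
    simp only [Finset.mem_insert, Finset.mem_singleton] at hp
    rcases hp with rfl | rfl | rfl | rfl
    · exact hp1
    · exact hp2
    · exact hp3
    · exact hp4
  have hne' : P.Nonempty := ⟨p1, by rw [hP]; simp⟩
  obtain ⟨m, hm, hmax⟩ := P.exists_max_image nrm hne'
  have m1 := hmax p1 (by rw [hP]; simp)
  have m2 := hmax p2 (by rw [hP]; simp)
  have m3 := hmax p3 (by rw [hP]; simp)
  have m4 := hmax p4 (by rw [hP]; simp)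
  refine ⟨m, hPS m hm, fun q hq => ?_⟩
  have a1 := h1 q hq
  have a2 := h2 q hq
  have a3 := h3 q hq
  have a4 := h4 q hq
  have b1 : |p1.1| ≤ nrm p1 := le_max_left _ _
  have b2 : |p2.1| ≤ nrm p2 := le_max_left _ _
  have b3 : |p3.2| ≤ nrm p3 := le_max_right _ _
  have b4 : |p4.2| ≤ nrm p4 := le_max_right _ _
  have c1 := neg_abs_le p1.1
  have c2 := le_abs_self p2.1
  have c3 := neg_abs_le p3.2
  have c4 := le_abs_self p4.2
  refine max_le (abs_le.2 ⟨by linarith, by linarith⟩) (abs_le.2 ⟨by linarith, by linarith⟩)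

/-- affine maps, written as projective maps: image under `p ↦ (a p.1 + b p.2 + c, a' p.1 + b' p.2 + c')`.
Proof: `I_pj` with `n = (0, 0, 1)`. -/
theorem World.I_affine {S : Set (F × F)} (hS : S ∈ W.I) (a b c a' b' c' : F) :
    (fun p : F × F => (a * p.1 + b * p.2 + c, a' * p.1 + b' * p.2 + c')) '' S ∈ W.I := by
  have h := W.I_pj _ hS (a, b, c) (a', b', c') (0, 0, 1)
  convert h using 1
  refine Set.image_congr fun p _ => ?_
  simp [pj, lin]

end Pool.Agent.Lib.MP_8bcb9d_co.W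
end

section

section

/-!
# Part I: no almost horizontal pairs when an arc of directions is occupied at infinity
-/

set_option autoImplicit false

namespace Pool.Agent.Lib.MP_8bcb9d_co

open Filter Topology

/-- the scales decrease -/
theorem np_eta_le {j K : ℕ} (h : j ≤ K) : eta K ≤ eta j := by
  unfold eta
  have h1 : (16 : ℝ) ^ j ≤ 16 ^ K := pow_le_pow_right₀ (by norm_num) h
  apply one_div_le_one_div_of_le (by positivity)
  linarith

/-- the slope with doubled scale over `s` -/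
theorem np_slope {M h s : ℝ} (hM : 1 ≤ M) (hh : 0 < h) (hh1 : h ≤ 1 / 40) (hs : s ≤ 0)
    (hs1 : -(8 * M) ≤ s) : |(s + 2 * h) / (1 - 2 * h * s)| ≤ 8 * M + 1 := by
  have hd : 1 ≤ 1 - 2 * h * s := by nlinarith
  rw [abs_div, abs_of_pos (show 0 < 1 - 2 * h * s by linarith), div_le_iff₀ (by linarith)]
  have h1 : |s + 2 * h| ≤ 8 * M + 1 := by
    rw [abs_le]; constructor <;> linarith
  nlinarith

/-- numerical part -/
theorem np_num {M h s a b δ : ℝ} (hM : 1 ≤ M) (hh : 0 < h) (hh1 : h ≤ 1 / 40) (hs : s ≤ 0)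
    (hs1 : -(8 * M) ≤ s) (ha : |a| ≤ δ) (hb : |b| ≤ δ) (hδ : δ * (36 * M ^ 2) ≤ h) :
    0 < (1 + a) + s * ((s + 2 * h) / (1 - 2 * h * s) + b) ∧
    h * ((1 + a) + s * ((s + 2 * h) / (1 - 2 * h * s) + b)) ≤
      ((s + 2 * h) / (1 - 2 * h * s) + b) - s * (1 + a) ∧
    ((s + 2 * h) / (1 - 2 * h * s) + b) - s * (1 + a) <
      4 * h * ((1 + a) + s * ((s + 2 * h) / (1 - 2 * h * s) + b)) := by
  have hd : 1 ≤ 1 - 2 * h * s := by nlinarith
  have hd0 : 0 < 1 - 2 * h * s := by linarith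
  set S := (s + 2 * h) / (1 - 2 * h * s) with hS
  have hS1 : S * (1 - 2 * h * s) = s + 2 * h := div_mul_cancel₀ _ hd0.ne'
  set d := 1 + s * S with hdd
  have e1 : S - s = 2 * h * d := by rw [hdd]; linarith
  have e2 : d * (1 - 2 * h * s) = 1 + s ^ 2 := by rw [hdd]; linear_combination s * hS1
  have hden : 1 - 2 * h * s ≤ 2 * M := by nlinarith
  have hdpos : 0 < d := by
    by_contra hcon
    push Not at hcon
    nlinarith [sq_nonneg s]
  have hd2 : 1 ≤ d * (2 * M) := by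
    calc (1 : ℝ) ≤ 1 + s ^ 2 := by nlinarith [sq_nonneg s]
      _ = d * (1 - 2 * h * s) := e2.symm
      _ ≤ d * (2 * M) := mul_le_mul_of_nonneg_left hden hdpos.le
  have hδ0 : 0 ≤ δ := (abs_nonneg a).trans ha
  have hs2 : |s| ≤ 8 * M := by rw [abs_le]; constructor <;> linarith
  have e3 : 9 * M * δ ≤ h * d / 2 := by
    -- `36 M² δ ≤ h ≤ 2 M h d`
    have h1 : δ * (36 * M ^ 2) ≤ 2 * M * (h * d) := by
      calc δ * (36 * M ^ 2) ≤ h := hδ
        _ = h * 1 := (mul_one h).symm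
        _ ≤ h * (d * (2 * M)) := mul_le_mul_of_nonneg_left hd2 hh.le
        _ = _ := by ring
    have h2 : (4 * M) * (9 * M * δ) ≤ (4 * M) * (h * d / 2) := by
      calc (4 * M) * (9 * M * δ) = δ * (36 * M ^ 2) := by ring
        _ ≤ _ := h1
        _ = _ := by ring
    exact le_of_mul_le_mul_left h2 (by linarith)
  have e4 : |a + s * b| ≤ h * d / 2 := by
    calc |a + s * b| ≤ |a| + |s * b| := abs_add_le _ _
      _ = |a| + |s| * |b| := by rw [abs_mul]
      _ ≤ δ + 8 * M * δ := by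
          have := mul_le_mul hs2 hb (abs_nonneg b) (by linarith)
          linarith
      _ ≤ 9 * M * δ := by nlinarith
      _ ≤ _ := e3
  have e5 : |b - s * a| ≤ h * d / 2 := by
    calc |b - s * a| ≤ |b| + |s * a| := abs_sub _ _
      _ = |b| + |s| * |a| := by rw [abs_mul]
      _ ≤ δ + 8 * M * δ := by
          have := mul_le_mul hs2 ha (abs_nonneg a) (by linarith)
          linarith
      _ ≤ 9 * M * δ := by nlinarith
      _ ≤ _ := e3
  have e6 : (1 + a) + s * (S + b) = d + (a + s * b) := by rw [hdd]; ring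
  have e7 : (S + b) - s * (1 + a) = 2 * h * d + (b - s * a) := by rw [← e1]; ring
  rw [e6, e7]
  have hhd : 0 < h * d := by positivity
  have h4 := abs_le.1 e4
  have h5 := abs_le.1 e5
  have hhd2 : h * d ≤ d / 40 := by nlinarith
  refine ⟨by linarith [h4.1], ?_, ?_⟩
  · have h6 : h * (a + s * b) ≤ h * (h * d / 2) := mul_le_mul_of_nonneg_left h4.2 hh.le
    have h7 : h * (h * d / 2) ≤ h * d / 80 := by nlinarith
    nlinarith [h5.1]
  · have h6 : h * -(h * d / 2) ≤ h * (a + s * b) := mul_le_mul_of_nonneg_left h4.1 hh.le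
    have h7 : h * (h * d / 2) ≤ h * d / 80 := by nlinarith
    nlinarith [h5.2]

/-- cross and scalar product in coordinates -/
theorem np_cr_dt {P Q z : E} {dx s τ a b S : ℝ} (h0 : Q 0 - P 0 = dx) (h1 : Q 1 - P 1 = dx * s)
    (z0 : z 0 - P 0 = τ * (1 + a)) (z1 : z 1 - P 1 = τ * (S + b)) :
    dt (Q - P) (z - P) = dx * τ * ((1 + a) + s * (S + b)) ∧
      cr (Q - P) (z - P) = dx * τ * ((S + b) - s * (1 + a)) := by
  simp only [dt, cr, PiLp.sub_apply]
  rw [h0, h1, z0, z1]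
  constructor <;> ring

/-- the contradiction in good coordinates -/
theorem np_core {K : ℕ} {M δ : ℝ} (hM : 1 ≤ M) (hδ : δ * (36 * M ^ 2) ≤ eta K) {X : Finset E}
    (hX : KSet K X) {P Q : E} (hPQ : Near9 X P Q) (hdx : 0 < Q 0 - P 0)
    (hdy : |Q 1 - P 1| ≤ 8 * M * (Q 0 - P 0))
    (hfar : ∀ S : ℝ, |S| ≤ 8 * M + 1 → ∃ z ∈ X, ∃ τ : ℝ, 0 < τ ∧ |z 0 - P 0 - τ| ≤ δ * τ ∧
      |z 1 - P 1 - τ * S| ≤ δ * τ) : False := by
  set dx := Q 0 - P 0 with hdxdef
  set s := (Q 1 - P 1) / dx with hs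
  have hs1 : Q 1 - P 1 = dx * s := by rw [hs, mul_div_cancel₀ _ hdx.ne']
  have hs2 : |s| ≤ 8 * M := by
    rw [hs, abs_div, abs_of_pos hdx, div_le_iff₀ hdx]
    exact hdy
  have hs3 := abs_le.1 hs2
  have hdeg := hX.deg P hPQ.hP Q hPQ.hQ hPQ.hne
  rcases le_or_gt s 0 with h0 | h0
  · obtain ⟨j, hj, H⟩ := missed9 hX.gp hPQ hdeg
    have hηj := np_eta_le hj
    obtain ⟨z, hz, τ, hτ, hz0, hz1⟩ := hfar ((s + 2 * eta j) / (1 - 2 * eta j * s))
      (np_slope hM (eta_pos j) (eta_le j) h0 hs3.1)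
    set S := (s + 2 * eta j) / (1 - 2 * eta j * s) with hS
    obtain ⟨a, ha⟩ : ∃ a, a = (z 0 - P 0 - τ) / τ := ⟨_, rfl⟩
    obtain ⟨b, hb⟩ : ∃ b, b = (z 1 - P 1 - τ * S) / τ := ⟨_, rfl⟩
    have ha1 : |a| ≤ δ := by rw [ha, abs_div, abs_of_pos hτ, div_le_iff₀ hτ]; exact hz0
    have hb1 : |b| ≤ δ := by rw [hb, abs_div, abs_of_pos hτ, div_le_iff₀ hτ]; exact hz1
    have ha2 : z 0 - P 0 = τ * (1 + a) := by rw [ha]; field_simp; ring
    have hb2 : z 1 - P 1 = τ * (S + b) := by rw [hb]; field_simp; ring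
    obtain ⟨g1, g2⟩ := np_cr_dt rfl hs1 ha2 hb2
    obtain ⟨n1, n2, n3⟩ := np_num hM (eta_pos j) (eta_le j) h0 hs3.1 ha1 hb1 (hδ.trans hηj)
    rw [← hS] at n1 n2 n3
    have hpos : 0 < dx * τ := by positivity
    refine H z hz ?_ ⟨?_, ?_⟩
    · rw [g1]; exact mul_pos hpos n1
    · rw [g1, g2]
      calc eta j * (dx * τ * ((1 + a) + s * (S + b)))
          = dx * τ * (eta j * ((1 + a) + s * (S + b))) := by ring
        _ ≤ _ := mul_le_mul_of_nonneg_left n2 hpos.le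
    · rw [g1, g2]
      calc dx * τ * ((S + b) - s * (1 + a)) < dx * τ * (4 * eta j * ((1 + a) + s * (S + b))) :=
            mul_lt_mul_of_pos_left n3 hpos
        _ = _ := by ring
  · obtain ⟨j, hj, H⟩ := missed9_neg hX.gp hPQ hdeg
    have hηj := np_eta_le hj
    have h0' : -s ≤ 0 := by linarith
    have hs3' : -(8 * M) ≤ -s := by linarith [hs3.2]
    set S := (-s + 2 * eta j) / (1 - 2 * eta j * -s) with hS
    have hSle : |(-S)| ≤ 8 * M + 1 := by
      rw [abs_neg]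
      exact np_slope hM (eta_pos j) (eta_le j) h0' hs3'
    obtain ⟨z, hz, τ, hτ, hz0, hz1⟩ := hfar (-S) hSle
    obtain ⟨a, ha⟩ : ∃ a, a = (z 0 - P 0 - τ) / τ := ⟨_, rfl⟩
    obtain ⟨b, hb⟩ : ∃ b, b = -((z 1 - P 1 - τ * (-S)) / τ) := ⟨_, rfl⟩
    have ha1 : |a| ≤ δ := by rw [ha, abs_div, abs_of_pos hτ, div_le_iff₀ hτ]; exact hz0
    have hb1 : |b| ≤ δ := by
      rw [hb, abs_neg, abs_div, abs_of_pos hτ, div_le_iff₀ hτ]; exact hz1
    have ha2 : z 0 - P 0 = τ * (1 + a) := by rw [ha]; field_simp; ring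
    have hb2 : z 1 - P 1 = τ * (-S + -b) := by rw [hb]; field_simp; ring
    obtain ⟨g1, g2⟩ := np_cr_dt rfl hs1 ha2 hb2
    obtain ⟨n1, n2, n3⟩ := np_num hM (eta_pos j) (eta_le j) h0' hs3' ha1 hb1 (hδ.trans hηj)
    rw [← hS] at n1 n2 n3
    have hpos : 0 < dx * τ := by positivity
    have e1 : (1 + a) + s * (-S + -b) = (1 + a) + -s * (S + b) := by ring
    have e2 : -(dx * τ * ((-S + -b) - s * (1 + a))) = dx * τ * ((S + b) - -s * (1 + a)) := by ring
    rw [e1] at g1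
    refine H z hz ?_ ⟨?_, ?_⟩
    · rw [g1]; exact mul_pos hpos n1
    · rw [g1, g2, e2]
      calc eta j * (dx * τ * ((1 + a) + -s * (S + b)))
          = dx * τ * (eta j * ((1 + a) + -s * (S + b))) := by ring
        _ ≤ _ := mul_le_mul_of_nonneg_left n2 hpos.le
    · rw [g1, g2, e2]
      calc dx * τ * ((S + b) - -s * (1 + a)) < dx * τ * (4 * eta j * ((1 + a) + -s * (S + b))) :=
            mul_lt_mul_of_pos_left n3 hpos
        _ = _ := by ring

theorem np_near9_swap {X : Finset E} {P Q : E} (h : Near9 X P Q) : Near9 X Q P where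
  hP := h.hQ
  hQ := h.hP
  hne := h.hne.symm
  nP := fun z hz h1 h2 => by rw [dist_comm Q P]; exact h.nQ z hz h2 h1
  nQ := fun z hz h1 h2 => by rw [dist_comm Q P]; exact h.nP z hz h2 h1

theorem no_pair_arc (K : ℕ) {ζ : ℝ} (hζ : 0 < ζ) (hζ1 : ζ ≤ 1) {M : ℝ} (hM : 1 ≤ M) :
    ∃ L ≥ 1, ∃ ε > 0, ∀ X : Finset E, KSet K X →
      (∀ x ∈ X, ∀ y ∈ X, x ≠ y → ‖x‖ ≤ L → 1 / 2 ≤ dist x y) →
      (∀ σ : ℝ, |σ| ≤ ζ → ∃ z ∈ X, ∃ τ : ℝ, L ≤ τ ∧ dist z (τ • mk 1 σ) ≤ ε * τ) →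
      ∀ p ∈ X, ∀ q ∈ X, p ≠ q → ‖p‖ ≤ M → ‖q‖ ≤ M →
        ζ / 4 * |q 0 - p 0| < |q 1 - p 1| := by
  have hM0 : 0 < M := by linarith
  obtain ⟨t, ht⟩ : ∃ t, t = 32 * M / ζ := ⟨_, rfl⟩
  have ht0 : 0 < t := by rw [ht]; positivity
  have htζ : t * ζ = 32 * M := by rw [ht]; field_simp
  have ht32 : 32 ≤ t := by
    by_contra hcon
    push Not at hcon
    nlinarith
  obtain ⟨δ, hδ⟩ : ∃ δ, δ = eta K / (36 * M ^ 2) := ⟨_, rfl⟩
  have hδ0 : 0 < δ := by
    rw [hδ]
    have := eta_pos K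
    positivity
  have hδM : δ * (36 * M ^ 2) = eta K := by rw [hδ]; field_simp
  obtain ⟨W, hW⟩ : ∃ W, W = 180 * t * M / δ := ⟨_, rfl⟩
  have hW0 : 0 < W := by rw [hW]; positivity
  have hWδ : δ * W = 180 * t * M := by rw [hW]; field_simp
  obtain ⟨ε, hε⟩ : ∃ ε, ε = δ / (4 * t) := ⟨_, rfl⟩
  have hε0 : 0 < ε := by rw [hε]; positivity
  have hεt : 4 * (t * ε) = δ := by rw [hε]; field_simp
  refine ⟨45 * M + W, by linarith, ε, hε0, ?_⟩
  intro X hX hsep hfar p hp q hq hpq hpM hqM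
  by_contra hcon
  push Not at hcon
  have hq0 : q 0 - p 0 ≠ 0 := by
    intro h
    rw [h, abs_zero, mul_zero] at hcon
    have h1 := abs_eq_zero.1 (le_antisymm hcon (abs_nonneg _))
    exact hpq (ext2 (by linarith) (by linarith))
  obtain ⟨κ, hκ⟩ : ∃ κ, κ = (q 1 - p 1) / (q 0 - p 0) := ⟨_, rfl⟩
  have hκ1 : κ * (q 0 - p 0) = q 1 - p 1 := by rw [hκ, div_mul_cancel₀ _ hq0]
  have hκ2 : |κ| ≤ ζ / 4 := by
    rw [hκ, abs_div, div_le_iff₀ (abs_pos.2 hq0)]
    exact hcon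
  have hκ3 : |κ| ≤ 1 / 4 := by linarith
  have hdet : (1 : ℝ) * t - 0 * (-(t * κ)) ≠ 0 := by
    rw [zero_mul, sub_zero, one_mul]; exact ht0.ne'
  let B : E ≃ₗ[ℝ] E := linE 1 0 (-(t * κ)) t hdet
  have hB0 : ∀ v, B v 0 = v 0 := fun v => by simp [B]
  have hB1 : ∀ v, B v 1 = t * (v 1 - κ * v 0) := fun v => by
    simp only [B, linE_one]; ring
  have hX' : KSet K (X.image B.toAffineEquiv) := hX.affine _
  have hmem : ∀ v ∈ X, B v ∈ X.image B.toAffineEquiv := fun v hv =>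
    Finset.mem_image_of_mem (B.toAffineEquiv) hv
  have hBdist : ∀ v w, dist v w ≤ 2 * dist (B v) (B w) := by
    intro v w
    have h0 := abs_sub_zero_le (B v) (B w)
    have h1 := abs_sub_one_le (B v) (B w)
    rw [hB0, hB0] at h0
    have h2 : v 1 - w 1 = (B v 1 - B w 1) / t + κ * (v 0 - w 0) := by
      rw [hB1, hB1]; field_simp; ring
    have h3 : |v 1 - w 1| ≤ dist (B v) (B w) / 32 + 1 / 4 * dist (B v) (B w) := by
      rw [h2]
      refine (abs_add_le _ _).trans (add_le_add ?_ ?_)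
      · rw [abs_div, abs_of_pos ht0]
        exact div_le_div₀ dist_nonneg h1 (by norm_num) ht32
      · rw [abs_mul]
        exact mul_le_mul hκ3 h0 (abs_nonneg _) (by norm_num)
    have h4 := dist_le_abs v w
    have h5 : 0 ≤ dist (B v) (B w) := dist_nonneg
    linarith
  -- the contradiction for an almost mutually nearest pair of the image
  have key : ∀ P ∈ X, ∀ Q ∈ X, Near9 (X.image B.toAffineEquiv) (B P) (B Q) →
      dist (B P) (B Q) ≤ 2 * M → ‖P‖ ≤ 45 * M → 0 < Q 0 - P 0 → False := by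
    intro P hP Q hQ hN hd hPn hpos
    have hPQ : P ≠ Q := fun h => hN.hne (by rw [h])
    have hs := hsep P hP Q hQ hPQ (by linarith)
    have hsq := dist_sq P Q
    have g0 := abs_sub_zero_le (B P) (B Q)
    have g1 := abs_sub_one_le (B P) (B Q)
    rw [hB0, hB0, abs_sub_comm, abs_of_pos hpos] at g0
    -- `dy - κ dx`
    have g2 : |(Q 1 - P 1) - κ * (Q 0 - P 0)| ≤ 1 / 16 := by
      have h1 : t * |(Q 1 - P 1) - κ * (Q 0 - P 0)| ≤ 2 * M := by
        have h2 : |B P 1 - B Q 1| = t * |(Q 1 - P 1) - κ * (Q 0 - P 0)| := by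
          rw [hB1, hB1, abs_sub_comm]
          have : t * (Q 1 - κ * Q 0) - t * (P 1 - κ * P 0) =
            t * ((Q 1 - P 1) - κ * (Q 0 - P 0)) := by ring
          rw [this, abs_mul, abs_of_pos ht0]
        rw [← h2]
        exact g1.trans hd
      have h3 : 2 * M ≤ t * (1 / 16) := by
        have : t * ζ ≤ t * 1 := mul_le_mul_of_nonneg_left hζ1 ht0.le
        linarith
      exact le_of_mul_le_mul_left (h1.trans h3) ht0
    have g3 : |Q 1 - P 1| ≤ 1 / 16 + 1 / 4 * (Q 0 - P 0) := by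
      have h1 : Q 1 - P 1 = ((Q 1 - P 1) - κ * (Q 0 - P 0)) + κ * (Q 0 - P 0) := by ring
      rw [h1]
      refine (abs_add_le _ _).trans (add_le_add g2 ?_)
      rw [abs_mul, abs_of_pos hpos]
      exact mul_le_mul_of_nonneg_right hκ3 hpos.le
    have g4 : 1 / 4 ≤ Q 0 - P 0 := by
      by_contra hlt
      push Not at hlt
      have h1 : |Q 1 - P 1| ≤ 1 / 8 := by linarith
      have h2 : (Q 1 - P 1) ^ 2 ≤ (1 / 8) ^ 2 := by
        rw [← sq_abs]
        exact pow_le_pow_left₀ (abs_nonneg _) h1 2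
      have h3 : (Q 0 - P 0) ^ 2 ≤ (1 / 4) ^ 2 := pow_le_pow_left₀ hpos.le hlt.le 2
      have h4 : (1 / 2 : ℝ) ^ 2 ≤ dist P Q ^ 2 := pow_le_pow_left₀ (by norm_num) hs 2
      rw [hsq] at h4
      nlinarith
    refine np_core hM hδM.le hX' hN ?_ ?_ ?_
    · rw [hB0, hB0]; exact hpos
    · rw [hB0, hB0, abs_sub_comm]
      refine (g1.trans hd).trans ?_
      nlinarith
    · intro S hS
      have hσ : |κ + S / t| ≤ ζ := by
        have h1 : |S / t| ≤ 9 * ζ / 32 := by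
          rw [abs_div, abs_of_pos ht0, div_le_iff₀ ht0]
          have h2 : 9 * ζ / 32 * t = 9 * M := by
            calc 9 * ζ / 32 * t = 9 / 32 * (t * ζ) := by ring
              _ = 9 * M := by rw [htζ]; ring
          rw [h2]; linarith
        refine (abs_add_le _ _).trans ?_
        linarith
      obtain ⟨z, hz, τ, hτ, hzτ⟩ := hfar _ hσ
      have hτ0 : 0 < τ := by linarith
      have k0 := (abs_sub_zero_le _ _).trans hzτ
      have k1 := (abs_sub_one_le _ _).trans hzτ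
      simp only [PiLp.smul_apply, mk_zero, mk_one, smul_eq_mul, mul_one] at k0 k1
      have hP0 : |P 0| ≤ 45 * M := by
        have := abs_sub_zero_le P 0
        rw [dist_zero_right] at this
        simp only [PiLp.zero_apply, sub_zero] at this
        linarith
      have hP1 : |P 1| ≤ 45 * M := by
        have := abs_sub_one_le P 0
        rw [dist_zero_right] at this
        simp only [PiLp.zero_apply, sub_zero] at this
        linarith
      have hτW : 180 * t * M ≤ δ * τ := by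
        rw [← hWδ]
        apply mul_le_mul_of_nonneg_left _ hδ0.le
        linarith
      refine ⟨B z, hmem z hz, τ, hτ0, ?_, ?_⟩
      · rw [hB0, hB0]
        have e1 : z 0 - P 0 - τ = (z 0 - τ) - P 0 := by ring
        rw [e1]
        refine (abs_sub _ _).trans ?_
        have e2 : ε * τ ≤ δ * τ / 4 := by
          have : 1 * (ε * τ) ≤ t * (ε * τ) :=
            mul_le_mul_of_nonneg_right (by linarith) (by positivity)
          have e3 : δ * τ = 4 * (t * (ε * τ)) := by rw [← hεt]; ring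
          linarith
        have e3 : 45 * M ≤ δ * τ / 4 := by nlinarith
        have e4 : 0 ≤ δ * τ := by positivity
        linarith
      · rw [hB1, hB1]
        have e1 : t * (z 1 - κ * z 0) - t * (P 1 - κ * P 0) - τ * S =
            t * ((z 1 - τ * (κ + S / t)) - κ * (z 0 - τ) - (P 1 - κ * P 0)) := by
          field_simp; ring
        rw [e1, abs_mul, abs_of_pos ht0]
        have e2 : |κ * (z 0 - τ)| ≤ ε * τ / 4 := by
          rw [abs_mul]
          have := mul_le_mul hκ3 k0 (abs_nonneg _) (by norm_num)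
          linarith
        have e3 : |κ * P 0| ≤ 45 * M / 4 := by
          rw [abs_mul]
          have := mul_le_mul hκ3 hP0 (abs_nonneg _) (by norm_num)
          linarith
        have e4 : |(z 1 - τ * (κ + S / t)) - κ * (z 0 - τ) - (P 1 - κ * P 0)| ≤
            2 * (ε * τ) + 90 * M := by
          have h1 := abs_sub ((z 1 - τ * (κ + S / t)) - κ * (z 0 - τ)) (P 1 - κ * P 0)
          have h2 := abs_sub (z 1 - τ * (κ + S / t)) (κ * (z 0 - τ))
          have h3 := abs_sub (P 1) (κ * P 0)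
          have h4 : 0 ≤ ε * τ := by positivity
          linarith
        have e5 : t * (2 * (ε * τ) + 90 * M) = δ * τ / 2 + 180 * t * M / 2 := by
          rw [← hεt]; ring
        calc _ ≤ t * (2 * (ε * τ) + 90 * M) := mul_le_mul_of_nonneg_left e4 ht0.le
          _ = _ := e5
          _ ≤ δ * τ := by linarith
  -- the pair of the image
  have hpqd : dist (B p) (B q) ≤ 2 * M := by
    have h1 := dist_le_abs (B p) (B q)
    have h2 : B p 1 - B q 1 = 0 := by
      rw [hB1, hB1]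
      linear_combination t * hκ1
    rw [h2, abs_zero, add_zero, hB0, hB0] at h1
    have h3 := abs_sub_zero_le p q
    have h4 : dist p q ≤ ‖p‖ + ‖q‖ := dist_le_norm_add_norm p q
    linarith
  have hne : B p ≠ B q := fun h => hpq (B.injective h)
  obtain ⟨P', Q', hN, hd1, hd2⟩ := exists_near9 (hmem p hp) (hmem q hq) hne
  obtain ⟨P, hP, hPe⟩ := Finset.mem_image.1 hN.hP
  obtain ⟨Q, hQ, hQe⟩ := Finset.mem_image.1 hN.hQ
  have hPe' : B P = P' := hPe
  have hQe' : B Q = Q' := hQe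
  subst hPe' hQe'
  have hPn : ‖P‖ ≤ 41 * M := by
    have h1 := hBdist p P
    have h2 : ‖P‖ ≤ ‖p‖ + dist p P := by
      have := dist_triangle P p 0
      rw [dist_zero_right, dist_zero_right, dist_comm P p] at this
      linarith
    linarith
  have hQn : ‖Q‖ ≤ 45 * M := by
    have h1 := hBdist P Q
    have h2 : ‖Q‖ ≤ ‖P‖ + dist P Q := by
      have := dist_triangle Q P 0
      rw [dist_zero_right, dist_zero_right, dist_comm Q P] at this
      linarith
    linarith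
  have hPQ : P ≠ Q := fun h => hN.hne (by rw [h])
  rcases lt_trichotomy (Q 0 - P 0) 0 with h | h | h
  · refine key Q hQ P hP (np_near9_swap hN) ?_ hQn (by linarith)
    rw [dist_comm]; exact hd1.trans hpqd
  · -- vertical pairs are too short
    have hs := hsep P hP Q hQ hPQ (by linarith)
    have g1 := (abs_sub_one_le (B P) (B Q)).trans (hd1.trans hpqd)
    have g2 : |B P 1 - B Q 1| = t * |P 1 - Q 1| := by
      rw [hB1, hB1]
      have : t * (P 1 - κ * P 0) - t * (Q 1 - κ * Q 0) = t * (P 1 - Q 1) := by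
        linear_combination t * κ * h
      rw [this, abs_mul, abs_of_pos ht0]
    rw [g2] at g1
    have h3 : 2 * M ≤ t * (1 / 16) := by
      have : t * ζ ≤ t * 1 := mul_le_mul_of_nonneg_left hζ1 ht0.le
      linarith
    have h4 := le_of_mul_le_mul_left (g1.trans h3) ht0
    have h5 := dist_le_abs P Q
    have h6 : P 0 - Q 0 = 0 := by linarith
    rw [h6, abs_zero] at h5
    linarith
  · exact key P hP Q hQ hN (hd1.trans hpqd) (by linarith) h

end Pool.Agent.Lib.MP_8bcb9d_co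
end

section

/-!
# Part I: the closest pair limit is impossible (finite form)
-/

set_option autoImplicit false

namespace Pool.Agent.Lib.MP_8bcb9d_co

open Filter Topology

theorem abs_zero_le_norm (v : E) : |v 0| ≤ ‖v‖ := by
  have h := abs_sub_zero_le v 0
  rw [dist_zero_right] at h
  simpa using h

theorem abs_one_le_norm (v : E) : |v 1| ≤ ‖v‖ := by
  have h := abs_sub_one_le v 0
  rw [dist_zero_right] at h
  simpa using h

theorem norm_le_abs_add (v : E) : ‖v‖ ≤ |v 0| + |v 1| := by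
  have h := dist_le_abs v 0
  rw [dist_zero_right] at h
  simpa using h

/-- the core of the argument: the partner obtained with the far direction `σ` is far away and in
direction `σ` -/
theorem arc_partner {ζ : ℝ} (hζ : 0 < ζ) (hζ1 : ζ ≤ 1) {X : Finset E} (hX : GenPos X) {M L ε : ℝ}
    (h0 : (0 : E) ∈ X)
    (hstar : ∀ p ∈ X, ∀ q ∈ X, p ≠ q → ‖p‖ ≤ M → ‖q‖ ≤ M → ζ / 4 * |q 0 - p 0| < |q 1 - p 1|)
    (hsep : ∀ x ∈ X, ∀ y ∈ X, x ≠ y → ‖x‖ ≤ M → 1 / 2 ≤ dist x y)
    {q : E} (hq : q ∈ X) (hqM : ‖q‖ ≤ M) (hq1 : 0 < q 1)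
    (hqmin : ∀ v ∈ X, ‖v‖ ≤ M → 0 < v 1 → q 1 ≤ v 1)
    (hqR : ‖q‖ ≤ 1 + 4 / ζ) (hMR : 6 * (1 + 4 / ζ) ≤ M) (hLM : 2 * M + 2 ≤ L)
    (hε : 0 < ε) (hε1 : ε ≤ 1 / 4) (hε2 : ε * (512 * M) ≤ ζ)
    {σ : ℝ} (hσ : |σ| ≤ ζ / 8) {z : E} (hz : z ∈ X) {τ : ℝ} (hτ : L ≤ τ)
    (hzτ : dist z (τ • mk 1 σ) ≤ ε * τ) :
    ∃ w ∈ Deg X 0 q, (M - 2 * (1 + 4 / ζ)) / 3 < w 0 ∧
      |w 1 - σ * w 0| ≤ 2 * (1 + 4 / ζ) + 4 * ε * w 0 := by
  set R0 : ℝ := 1 + 4 / ζ with hR0
  have hR1 : 1 ≤ R0 := by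
    have : 0 ≤ 4 / ζ := by positivity
    linarith
  have hM0 : 0 < M := by linarith
  have hτ0 : 0 < τ := by linarith
  -- coordinates of z
  have hz0 : |z 0 - τ| ≤ ε * τ := by
    have := abs_sub_zero_le z (τ • mk 1 σ)
    simp only [PiLp.smul_apply, mk_zero, smul_eq_mul, mul_one] at this
    linarith
  have hz1 : |z 1 - τ * σ| ≤ ε * τ := by
    have := abs_sub_one_le z (τ • mk 1 σ)
    simp only [PiLp.smul_apply, mk_one, smul_eq_mul] at this
    linarith
  have hσ1 : |σ| ≤ 1 / 8 := by linarith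
  have hετ : ε * τ ≤ τ / 4 := by nlinarith
  obtain ⟨a1, a2⟩ := abs_le.1 hz0
  obtain ⟨a3, a4⟩ := abs_le.1 hz1
  have hzpos : τ / 2 ≤ z 0 := by linarith
  have hlz : |z 1 - σ * z 0| ≤ 2 * (ε * τ) := by
    have : z 1 - σ * z 0 = (z 1 - τ * σ) - σ * (z 0 - τ) := by ring
    rw [this]
    refine (abs_sub _ _).trans ?_
    rw [abs_mul]
    nlinarith [abs_nonneg σ, abs_nonneg (z 0 - τ)]
  have hzn0 : z ≠ 0 := by
    rintro rfl
    simp at hzpos
    linarith
  have hzq : z ≠ q := by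
    rintro rfl
    have := abs_zero_le_norm z
    have := le_abs_self (z 0)
    linarith
  have h0q : (0 : E) ≠ q := by
    rintro rfl
    simp at hq1
  obtain ⟨w, hwD, hwc⟩ := exists_partner hX h0 hq hz h0q hzn0 hzq
  obtain ⟨a, b, c, ha, hb, hc, habc, hwe⟩ := mem_triangle hwc
  have hw0 : w 0 = b * q 0 + c * z 0 := by rw [hwe]; simp
  have hw1 : w 1 = b * q 1 + c * z 1 := by rw [hwe]; simp
  have hb1 : b ≤ 1 := by linarith
  have hwX := hwD.1
  have hwn0 : w ≠ 0 := hwD.2.1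
  have hwnq : w ≠ q := hwD.2.2.1
  -- the level of q
  have hlq : |q 0| * (ζ / 4) < q 1 := by
    have := hstar 0 h0 q hq h0q (by simpa using hM0.le) hqM
    simp only [PiLp.zero_apply, sub_zero] at this
    rw [abs_of_pos hq1] at this
    linarith
  have hlq' : 0 ≤ q 1 - σ * q 0 := by
    have h1 : σ * q 0 ≤ |σ| * |q 0| := by rw [← abs_mul]; exact le_abs_self _
    nlinarith [abs_nonneg (q 0)]
  have hq0R : |q 0| ≤ R0 := (abs_zero_le_norm q).trans hqR
  have hq1R : |q 1| ≤ R0 := (abs_one_le_norm q).trans hqR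
  obtain ⟨b1, b2⟩ := abs_le.1 hq0R
  have hbq : |b * q 0| ≤ R0 := by
    rw [abs_mul, abs_of_nonneg hb]; nlinarith [abs_nonneg (q 0)]
  obtain ⟨b3, b4⟩ := abs_le.1 hbq
  have hcz : 0 ≤ c * z 0 := mul_nonneg hc (by linarith)
  have hcτ : c * τ ≤ 2 * (c * z 0) := by nlinarith
  have hclz : |c * (z 1 - σ * z 0)| ≤ 2 * ε * (c * τ) := by
    rw [abs_mul, abs_of_nonneg hc]; nlinarith
  obtain ⟨c1, c2⟩ := abs_le.1 hclz
  have hlw : w 1 - σ * w 0 = b * (q 1 - σ * q 0) + c * (z 1 - σ * z 0) := by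
    rw [hw0, hw1]; ring
  -- far
  have hfar : M < ‖w‖ := by
    by_contra hle
    push Not at hle
    have hw0M : |w 0| ≤ M := (abs_zero_le_norm w).trans hle
    obtain ⟨d1, d2⟩ := abs_le.1 hw0M
    have hcτM : c * τ ≤ 4 * M := by linarith
    have hsmall : 2 * ε * (c * τ) < ζ / 32 := by
      have : 2 * ε * (c * τ) ≤ 2 * ε * (4 * M) := by
        apply mul_le_mul_of_nonneg_left hcτM (by positivity)
      nlinarith
    -- general fact
    have gen : ∀ u : E, ∀ s : ℝ, 1 / 2 ≤ ‖u‖ → ζ / 4 * |u 0| < |u 1| →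
        -(ζ / 32) < u 1 - σ * u 0 → 0 < u 1 := by
      intro u s hu1 hu2 hu3
      have h1 : ζ / 16 ≤ |u 1| := by
        by_contra hlt
        push Not at hlt
        have h2 : |u 0| < 1 / 4 := by
          by_contra h3
          push Not at h3
          nlinarith
        have h3 := norm_le_abs_add u
        nlinarith
      have h2 : |σ * u 0| ≤ |u 1| / 2 := by
        rw [abs_mul]; nlinarith [abs_nonneg (u 0), abs_nonneg σ]
      obtain ⟨h4, h5⟩ := abs_le.1 h2
      by_contra hneg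
      push Not at hneg
      rw [abs_of_nonpos hneg] at h1 h2 h4 h5
      linarith
    have hwpos : 0 < w 1 := by
      apply gen w 0
      · have := hsep 0 h0 w hwX hwn0.symm (by simpa using hM0.le)
        rwa [dist_comm, dist_zero_right] at this
      · have := hstar 0 h0 w hwX hwn0.symm (by simpa using hM0.le) hle
        simpa using this
      · rw [hlw]
        have := mul_nonneg hb hlq'
        linarith
    have hqw : 0 < (q - w) 1 := by
      apply gen (q - w) 0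
      · have := hsep w hwX q hq hwnq hle
        rwa [dist_comm, dist_eq_norm] at this
      · have := hstar w hwX q hq hwnq hle hqM
        simpa using this
      · have : (q - w) 1 - σ * (q - w) 0 = (q 1 - σ * q 0) - (w 1 - σ * w 0) := by
          simp only [PiLp.sub_apply]; ring
        rw [this, hlw]
        have h7 := mul_nonneg (sub_nonneg.2 hb1) hlq'
        have h8 : (1 - b) * (q 1 - σ * q 0) = (q 1 - σ * q 0) - b * (q 1 - σ * q 0) := by ring
        linarith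
    simp only [PiLp.sub_apply] at hqw
    have := hqmin w hwX hle hwpos
    linarith
  -- conclusion
  have hεR : 4 * ε * R0 ≤ R0 / 8 := by nlinarith
  have e1 : |w 1 - σ * w 0| ≤ 2 * R0 + 4 * ε * w 0 := by
    have h1 : |q 1 - σ * q 0| ≤ |q 1| + |σ| * |q 0| := by
      rw [← abs_mul]; exact abs_sub _ _
    have h2 : |σ| * |q 0| ≤ 1 / 8 * R0 :=
      mul_le_mul hσ1 hq0R (abs_nonneg _) (by norm_num)
    have h3 : |b * (q 1 - σ * q 0)| ≤ R0 + 1 / 8 * R0 := by
      rw [abs_mul, abs_of_nonneg hb]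
      nlinarith [abs_nonneg (q 1 - σ * q 0)]
    have h4 : c * τ ≤ 2 * w 0 + 2 * R0 := by linarith
    have h6 : 2 * ε * (c * τ) ≤ 4 * ε * w 0 + 4 * ε * R0 := by
      have : 2 * ε * (c * τ) ≤ 2 * ε * (2 * w 0 + 2 * R0) :=
        mul_le_mul_of_nonneg_left h4 (by positivity)
      linarith
    rw [hlw]
    refine (abs_add_le _ _).trans ?_
    linarith
  have hw0lo : -R0 ≤ w 0 := by rw [hw0]; linarith
  have e3 : |w 1| ≤ 1 / 8 * |w 0| + (2 * R0 + 4 * ε * w 0) := by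
    have h1 : |w 1| ≤ |σ * w 0| + |w 1 - σ * w 0| := by
      have h2 := abs_add_le (σ * w 0) (w 1 - σ * w 0)
      have h3 : σ * w 0 + (w 1 - σ * w 0) = w 1 := by ring
      rwa [h3] at h2
    rw [abs_mul] at h1
    have : |σ| * |w 0| ≤ 1 / 8 * |w 0| := mul_le_mul_of_nonneg_right hσ1 (abs_nonneg _)
    linarith
  have e4 := norm_le_abs_add w
  have hpos : 0 ≤ w 0 := by
    by_contra hneg
    push Not at hneg
    rw [abs_of_neg hneg] at e3 e4
    have : ε * w 0 < 0 := mul_neg_of_pos_of_neg hε hneg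
    linarith
  have e2 : (M - 2 * R0) / 3 < w 0 := by
    rw [abs_of_nonneg hpos] at e3 e4
    have : ε * w 0 ≤ 1 / 4 * w 0 := mul_le_mul_of_nonneg_right hε1 hpos
    linarith
  exact ⟨w, hwD, e2, e1⟩

theorem arc_fin_pos (K : ℕ) {ζ : ℝ} (hζ : 0 < ζ) (hζ1 : ζ ≤ 1) :
    ∃ L ≥ 1, ∃ ε > 0, ∀ X : Finset E, KSet K X → (0 : E) ∈ X →
      (∃ b ∈ X, ‖b‖ = 1 ∧ 0 < b 1) →
      (∀ x ∈ X, ∀ y ∈ X, x ≠ y → ‖x‖ ≤ L → 1 / 2 ≤ dist x y) →
      (∀ σ : ℝ, |σ| ≤ ζ → ∃ z ∈ X, ∃ τ : ℝ, L ≤ τ ∧ dist z (τ • mk 1 σ) ≤ ε * τ) → False := by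
  set R0 : ℝ := 1 + 4 / ζ with hR0
  have hR1 : 1 ≤ R0 := by
    have : 0 ≤ 4 / ζ := by positivity
    linarith
  set g : ℝ := ζ / (8 * (K + 1)) with hg
  have hg0 : 0 < g := by positivity
  set M : ℝ := 24 * R0 / g + 6 * R0 with hM
  have hM6 : 6 * R0 ≤ M := by
    have : 0 ≤ 24 * R0 / g := by positivity
    linarith
  obtain ⟨L1, hL1, ε1, hε1, H⟩ := no_pair_arc K hζ hζ1 (show 1 ≤ M by linarith)
  refine ⟨max L1 (2 * M + 2), le_max_of_le_left hL1,
    min ε1 (min (ζ / (512 * M)) (min (g / 16) (1 / 4))), by positivity, ?_⟩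
  intro X hX h0 ⟨b, hb, hbn, hb1⟩ hsep hfar
  set L := max L1 (2 * M + 2) with hL
  set ε := min ε1 (min (ζ / (512 * M)) (min (g / 16) (1 / 4))) with hε
  have hεpos : 0 < ε := by positivity
  have hεa : ε ≤ ε1 := min_le_left _ _
  have hεb : ε ≤ ζ / (512 * M) := (min_le_right _ _).trans (min_le_left _ _)
  have hεc : ε ≤ g / 16 := (min_le_right _ _).trans ((min_le_right _ _).trans (min_le_left _ _))
  have hεd : ε ≤ 1 / 4 := (min_le_right _ _).trans ((min_le_right _ _).trans (min_le_right _ _))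
  have hεb' : ε * (512 * M) ≤ ζ := by
    rw [le_div_iff₀ (by positivity)] at hεb; exact hεb
  have hLa : L1 ≤ L := le_max_left _ _
  have hLb : 2 * M + 2 ≤ L := le_max_right _ _
  have hML : M ≤ L := by linarith
  have hstar := H X hX (fun x hx y hy hxy hn => hsep x hx y hy hxy (hn.trans hLa))
    (fun σ hσ => by
      obtain ⟨z, hz, τ, hτ, hd⟩ := hfar σ hσ
      exact ⟨z, hz, τ, hLa.trans hτ, hd.trans
        (mul_le_mul_of_nonneg_right hεa (by linarith))⟩)
  -- the lowest point of the upper half disc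
  classical
  have hne : (X.filter fun v => ‖v‖ ≤ M ∧ 0 < v 1).Nonempty :=
    ⟨b, by rw [Finset.mem_filter]; exact ⟨hb, by rw [hbn]; linarith, hb1⟩⟩
  obtain ⟨q, hqF, hqmin⟩ := (X.filter fun v => ‖v‖ ≤ M ∧ 0 < v 1).exists_min_image
    (fun v => v 1) hne
  rw [Finset.mem_filter] at hqF
  obtain ⟨hq, hqM, hq1⟩ := hqF
  have hqmin' : ∀ v ∈ X, ‖v‖ ≤ M → 0 < v 1 → q 1 ≤ v 1 := fun v hv h1 h2 =>
    hqmin v (by rw [Finset.mem_filter]; exact ⟨hv, h1, h2⟩)
  have h0q : (0 : E) ≠ q := by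
    rintro rfl
    simp at hq1
  have hqb : q 1 ≤ 1 := by
    have h1 := hqmin' b hb (by rw [hbn]; linarith) hb1
    have h2 := abs_one_le_norm b
    rw [hbn] at h2
    exact h1.trans ((le_abs_self _).trans h2)
  have hqR : ‖q‖ ≤ R0 := by
    have h1 := hstar 0 h0 q hq h0q (by simpa using (by linarith : (0 : ℝ) ≤ M)) hqM
    simp only [PiLp.zero_apply, sub_zero] at h1
    rw [abs_of_pos hq1] at h1
    have h2 : |q 0| ≤ 4 / ζ := by
      rw [le_div_iff₀ hζ]
      linarith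
    have h3 := norm_le_abs_add q
    rw [abs_of_pos hq1] at h3
    linarith
  have key : ∀ j : Fin (K + 1), ∃ w ∈ Deg X 0 q, (M - 2 * R0) / 3 < w 0 ∧
      |w 1 - g * j * w 0| ≤ 2 * R0 + 4 * ε * w 0 := by
    intro j
    have hj0 : (0 : ℝ) ≤ j := by positivity
    have hj : (j : ℝ) ≤ K := by exact_mod_cast Nat.lt_succ_iff.1 j.2
    have hgj : g * j ≤ ζ / 8 := by
      rw [hg, div_mul_eq_mul_div, div_le_div_iff₀ (by positivity) (by norm_num)]
      nlinarith
    have hσ : |g * j| ≤ ζ / 8 := by rwa [abs_of_nonneg (by positivity)]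
    obtain ⟨z, hz, τ, hτ, hd⟩ := hfar (g * j) (by linarith)
    exact arc_partner hζ hζ1 hX.gp h0 hstar
      (fun x hx y hy hxy hn => hsep x hx y hy hxy (hn.trans hML)) hq hqM hq1 hqmin' hqR hM6 hLb
      hεpos hεd hεb' hσ hz hτ hd
  choose w hwD hw1 hw2 using key
  refine no_many_partners hX h0 hq h0q hwD ?_
  intro i j hij
  by_contra hne
  have h1 := hw2 i
  have h2 := hw2 j
  rw [← hij] at h2
  have h3 := hw1 i
  have h4 : (1 : ℝ) ≤ |(i : ℝ) - j| := by
    have h5 : ((i : ℕ) : ℤ) - ((j : ℕ) : ℤ) ≠ 0 := by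
      intro h
      apply hne
      ext
      omega
    have h6 := Int.one_le_abs h5
    have h7 : ((1 : ℤ) : ℝ) ≤ ((|((i : ℕ) : ℤ) - ((j : ℕ) : ℤ)| : ℤ) : ℝ) := by
      exact_mod_cast h6
    simpa using h7
  have hwpos : 0 < w i 0 := by
    have : 0 ≤ (M - 2 * R0) / 3 := by
      have : 2 * R0 ≤ M := by linarith
      linarith
    linarith
  have h5 : g * |(i : ℝ) - j| * w i 0 ≤ 2 * (2 * R0 + 4 * ε * w i 0) := by
    have h6 : |g * ((i : ℝ) - j) * w i 0| ≤ 2 * (2 * R0 + 4 * ε * w i 0) := by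
      have : g * ((i : ℝ) - j) * w i 0 = (w i 1 - g * j * w i 0) - (w i 1 - g * i * w i 0) := by
        ring
      rw [this]
      refine (abs_sub _ _).trans ?_
      linarith
    rwa [abs_mul, abs_mul, abs_of_pos hg0, abs_of_pos hwpos] at h6
  have h6 : g * w i 0 ≤ g * |(i : ℝ) - j| * w i 0 := by
    have : g * w i 0 * 1 ≤ g * w i 0 * |(i : ℝ) - j| :=
      mul_le_mul_of_nonneg_left h4 (by positivity)
    linarith
  have h7 : 8 * ε * w i 0 ≤ g / 2 * w i 0 :=
    mul_le_mul_of_nonneg_right (by linarith) hwpos.le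
  have h8 : g / 2 * w i 0 ≤ 4 * R0 := by linarith
  have h9 : 8 * R0 / g < w i 0 := by
    have : 8 * R0 / g ≤ (M - 2 * R0) / 3 := by
      rw [hM]
      have : 24 * R0 / g = 3 * (8 * R0 / g) := by ring
      rw [this]
      linarith
    linarith
  rw [div_lt_iff₀ hg0] at h9
  linarith

theorem arc_fin (K : ℕ) {ζ : ℝ} (hζ : 0 < ζ) (hζ1 : ζ ≤ 1) :
    ∃ L ≥ 1, ∃ ε > 0, ∀ X : Finset E, KSet K X → (0 : E) ∈ X → (∃ b ∈ X, ‖b‖ = 1) →
      (∀ x ∈ X, ∀ y ∈ X, x ≠ y → ‖x‖ ≤ L → 1 / 2 ≤ dist x y) →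
      (∀ σ : ℝ, |σ| ≤ ζ → ∃ z ∈ X, ∃ τ : ℝ, L ≤ τ ∧ dist z (τ • mk 1 σ) ≤ ε * τ) → False := by
  classical
  obtain ⟨L1, hL1, ε1, hε1, H1⟩ := arc_fin_pos K hζ hζ1
  obtain ⟨L2, hL2, ε2, hε2, H2⟩ := no_pair_arc K hζ hζ1 (le_refl (1 : ℝ))
  refine ⟨max L1 L2, le_max_of_le_left hL1, min ε1 ε2, lt_min hε1 hε2, ?_⟩
  intro X hX h0 ⟨b, hb, hbn⟩ hsep hfar
  have hLa : L1 ≤ max L1 L2 := le_max_left _ _
  have hLb : L2 ≤ max L1 L2 := le_max_right _ _
  rcases lt_trichotomy (b 1) 0 with hb1 | hb1 | hb1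
  · -- reflect
    let ρ : E ≃ₗ[ℝ] E := linE 1 0 0 (-1) (by norm_num)
    have hρ0 : ∀ v, ρ v 0 = v 0 := fun v => by simp [ρ]
    have hρ1 : ∀ v, ρ v 1 = - v 1 := fun v => by simp [ρ]
    have hρd : ∀ v w, dist (ρ v) (ρ w) = dist v w := by
      intro v w
      have h1 : dist (ρ v) (ρ w) ^ 2 = dist v w ^ 2 := by
        rw [dist_sq, dist_sq, hρ0, hρ0, hρ1, hρ1]; ring
      exact (sq_eq_sq₀ dist_nonneg dist_nonneg).1 h1
    have hρn : ∀ v, ‖ρ v‖ = ‖v‖ := by
      intro v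
      have := hρd v 0
      rwa [map_zero, dist_zero_right, dist_zero_right] at this
    refine H1 (X.image ρ) (hX.affine ρ.toAffineEquiv) ?_ ?_ ?_ ?_
    · exact Finset.mem_image.2 ⟨0, h0, map_zero ρ⟩
    · refine ⟨ρ b, Finset.mem_image_of_mem _ hb, by rw [hρn]; exact hbn, ?_⟩
      rw [hρ1]; linarith
    · intro x' hx' y' hy' hxy hn
      obtain ⟨x, hx, rfl⟩ := Finset.mem_image.1 hx'
      obtain ⟨y, hy, rfl⟩ := Finset.mem_image.1 hy'
      rw [hρn] at hn
      rw [hρd]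
      exact hsep x hx y hy (fun h => hxy (by rw [h])) (hn.trans hLa)
    · intro σ hσ
      obtain ⟨z, hz, τ, hτ, hd⟩ := hfar (-σ) (by rwa [abs_neg])
      refine ⟨ρ z, Finset.mem_image_of_mem _ hz, τ, hLa.trans hτ, ?_⟩
      have h1 : τ • mk 1 σ = ρ (τ • mk 1 (-σ)) := by
        apply ext2
        · rw [hρ0]; simp
        · rw [hρ1]; simp
      rw [h1, hρd]
      refine hd.trans (mul_le_mul_of_nonneg_right (min_le_left _ _) ?_)
      linarith
  · have h1 := H2 X hX (fun x hx y hy hxy hn => hsep x hx y hy hxy (hn.trans hLb))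
      (fun σ hσ => by
        obtain ⟨z, hz, τ, hτ, hd⟩ := hfar σ hσ
        exact ⟨z, hz, τ, hLb.trans hτ, hd.trans
          (mul_le_mul_of_nonneg_right (min_le_right _ _) (by linarith))⟩)
      0 h0 b hb (by rintro rfl; simp at hbn) (by simp) hbn.le
    simp only [PiLp.zero_apply, sub_zero, hb1, abs_zero] at h1
    have : 0 ≤ ζ / 4 * |b 0| := by positivity
    linarith
  · refine H1 X hX h0 ⟨b, hb, hbn, hb1⟩ (fun x hx y hy hxy hn =>
      hsep x hx y hy hxy (hn.trans hLa)) (fun σ hσ => ?_)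
    obtain ⟨z, hz, τ, hτ, hd⟩ := hfar σ hσ
    exact ⟨z, hz, τ, hLa.trans hτ, hd.trans
      (mul_le_mul_of_nonneg_right (min_le_left _ _) (by linarith))⟩

end Pool.Agent.Lib.MP_8bcb9d_co
end
end
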