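import Mathlib
import Pool.Agent.Lib.MP_8bcb9d_co.PI.Def

section

/-!
# Projective and stretching maps of sets with small degrees
-/

set_option autoImplicit false

namespace Pool.Agent.Lib.MP_8bcb9d_co

open Filter Topology

/-- collinear points have vanishing cross product -/
theorem cr_eq_zero_of_collinear {a b c : E} (h : Collinear ℝ ({a, b, c} : Set E)) :
    cr (b - a) (c - a) = 0 := by
  rw [collinear_iff_of_mem (p₀ := a) (by simp)] at h
  obtain ⟨v, hv⟩ := h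
  obtain ⟨s, hs⟩ := hv b (by simp)
  obtain ⟨t, ht⟩ := hv c (by simp)
  have hs' : b = s • v + a := hs
  have ht' : c = t • v + a := ht
  rw [hs', ht']
  simp only [cr, PiLp.sub_apply, PiLp.add_apply, PiLp.smul_apply, smul_eq_mul]
  ring

open Classical in
/-- transport along a map which multiplies the cross products by nonzero factors -/
theorem KSet.image_of_cr {K : ℕ} {X : Finset E} (hX : KSet K X) (T : E → E)
    (hinj : ∀ x ∈ X, ∀ y ∈ X, T x = T y → x = y)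
    (hcr : ∀ x ∈ X, ∀ y ∈ X, ∀ z ∈ X, cr (T y - T x) (T z - T x) = 0 → cr (y - x) (z - x) = 0)
    (hT : ∀ x ∈ X, ∀ y ∈ X, ∀ z ∈ X, ∀ w ∈ X, w ∈ convexHull ℝ ({x, y, z} : Set E) →
      T w ∈ convexHull ℝ ({T x, T y, T z} : Set E)) : KSet K (X.image T) := by
  refine hX.image_of T hinj ?_ hT
  intro a' ha' b' hb' c' hc' hab hac hbc hcol
  obtain ⟨a, ha, rfl⟩ := Finset.mem_image.1 ha'
  obtain ⟨b, hb, rfl⟩ := Finset.mem_image.1 hb'
  obtain ⟨c, hc, rfl⟩ := Finset.mem_image.1 hc'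
  have hab' : a ≠ b := fun h => hab (by rw [h])
  have hac' : a ≠ c := fun h => hac (by rw [h])
  have hbc' : b ≠ c := fun h => hbc (by rw [h])
  exact hX.gp a ha b hb c hc hab' hac' hbc'
    (collinear_of_cr hab' (hcr a ha b hb c hc (cr_eq_zero_of_collinear hcol)))

theorem pr_zero (v : E) : Pool.Agent.Lib.MP_8bcb9d_co.pr v 0 = v 0 / v 1 := by
  simp [Pool.Agent.Lib.MP_8bcb9d_co.pr]

theorem pr_one (v : E) : Pool.Agent.Lib.MP_8bcb9d_co.pr v 1 = -(v 1)⁻¹ := by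
  simp [Pool.Agent.Lib.MP_8bcb9d_co.pr]

theorem st_zero (κ μ M : ℝ) (v : E) : Pool.Agent.Lib.MP_8bcb9d_co.st κ μ M v 0 = v 0 := by
  simp [Pool.Agent.Lib.MP_8bcb9d_co.st]

theorem st_one (κ μ M : ℝ) (v : E) :
    Pool.Agent.Lib.MP_8bcb9d_co.st κ μ M v 1 = (v 1 - κ * v 0 - μ) / M := by
  simp [Pool.Agent.Lib.MP_8bcb9d_co.st]

open Classical in
theorem KSet.pr {K : ℕ} {X : Finset E} (hX : KSet K X) (hpos : ∀ v ∈ X, 0 < v 1) :
    KSet K (X.image Pool.Agent.Lib.MP_8bcb9d_co.pr) := by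
  refine hX.image_of_cr _ ?_ ?_ ?_
  · intro x hx y hy h
    have hx1 := hpos x hx
    have hy1 := hpos y hy
    have h0 := congrArg (fun v : E => v 0) h
    have h1 := congrArg (fun v : E => v 1) h
    simp only [pr_zero, pr_one] at h0 h1
    have e1 : x 1 = y 1 := by
      have := neg_injective h1
      exact inv_injective this
    refine ext2 ?_ e1
    rw [e1] at h0
    exact (div_left_inj' hy1.ne').1 h0
  · intro x hx y hy z hz h
    have hx1 := (hpos x hx).ne'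
    have hy1 := (hpos y hy).ne'
    have hz1 := (hpos z hz).ne'
    simp only [cr, PiLp.sub_apply, pr_zero, pr_one] at h ⊢
    have e : (y 0 - x 0) * (z 1 - x 1) - (y 1 - x 1) * (z 0 - x 0) =
        x 1 * y 1 * z 1 * ((y 0 / y 1 - x 0 / x 1) * (-(z 1)⁻¹ - -(x 1)⁻¹) -
          (-(y 1)⁻¹ - -(x 1)⁻¹) * (z 0 / z 1 - x 0 / x 1)) := by
      field_simp
      ring
    rw [e, h, mul_zero]
  · intro x hx y hy z hz w hw hmem
    obtain ⟨a, b, c, ha, hb, hc, habc, hwe⟩ := mem_triangle hmem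
    have hx1 := hpos x hx
    have hy1 := hpos y hy
    have hz1 := hpos z hz
    have hw1 := hpos w hw
    have e0 : w 0 = a * x 0 + b * y 0 + c * z 0 := by
      rw [hwe]; simp
    have e1 : w 1 = a * x 1 + b * y 1 + c * z 1 := by
      rw [hwe]; simp
    have key : Pool.Agent.Lib.MP_8bcb9d_co.pr w =
        (a * x 1 / w 1) • Pool.Agent.Lib.MP_8bcb9d_co.pr x +
        (b * y 1 / w 1) • Pool.Agent.Lib.MP_8bcb9d_co.pr y +
        (c * z 1 / w 1) • Pool.Agent.Lib.MP_8bcb9d_co.pr z := by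
      refine ext2 ?_ ?_
      · simp only [PiLp.add_apply, PiLp.smul_apply, smul_eq_mul, pr_zero]
        rw [e0]
        field_simp
      · simp only [PiLp.add_apply, PiLp.smul_apply, smul_eq_mul, pr_one]
        field_simp
        linarith
    rw [key]
    refine triangle_mem (by positivity) (by positivity) (by positivity) ?_
    rw [← add_div, ← add_div, ← e1, div_self hw1.ne']

open Classical in
theorem KSet.st {K : ℕ} {X : Finset E} (hX : KSet K X) (κ μ : ℝ) {M : ℝ} (hM : 0 < M) :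
    KSet K (X.image (Pool.Agent.Lib.MP_8bcb9d_co.st κ μ M)) := by
  refine hX.image_of_cr _ ?_ ?_ ?_
  · intro x hx y hy h
    have h0 := congrArg (fun v : E => v 0) h
    have h1 := congrArg (fun v : E => v 1) h
    simp only [st_zero, st_one] at h0 h1
    refine ext2 h0 ?_
    have := (div_left_inj' hM.ne').1 h1
    rw [h0] at this
    linarith
  · intro x hx y hy z hz h
    simp only [cr, PiLp.sub_apply, st_zero, st_one] at h ⊢
    have e : (y 0 - x 0) * (z 1 - x 1) - (y 1 - x 1) * (z 0 - x 0) =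
        M * ((y 0 - x 0) * ((z 1 - κ * z 0 - μ) / M - (x 1 - κ * x 0 - μ) / M) -
          ((y 1 - κ * y 0 - μ) / M - (x 1 - κ * x 0 - μ) / M) * (z 0 - x 0)) := by
      field_simp
      ring
    rw [e, h, mul_zero]
  · intro x hx y hy z hz w hw hmem
    obtain ⟨a, b, c, ha, hb, hc, habc, hwe⟩ := mem_triangle hmem
    have e0 : w 0 = a * x 0 + b * y 0 + c * z 0 := by
      rw [hwe]; simp
    have e1 : w 1 = a * x 1 + b * y 1 + c * z 1 := by
      rw [hwe]; simp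
    have key : Pool.Agent.Lib.MP_8bcb9d_co.st κ μ M w =
        a • Pool.Agent.Lib.MP_8bcb9d_co.st κ μ M x +
        b • Pool.Agent.Lib.MP_8bcb9d_co.st κ μ M y +
        c • Pool.Agent.Lib.MP_8bcb9d_co.st κ μ M z := by
      refine ext2 ?_ ?_
      · simp only [PiLp.add_apply, PiLp.smul_apply, smul_eq_mul, st_zero]
        rw [e0]
      · simp only [PiLp.add_apply, PiLp.smul_apply, smul_eq_mul, st_one]
        rw [e0, e1]
        field_simp
        linear_combination μ * habc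
    rw [key]
    exact triangle_mem ha hb hc habc

end Pool.Agent.Lib.MP_8bcb9d_co
end

section

section

/-!
# Part I: closed subsets of the circle
-/

set_option autoImplicit false

namespace Pool.Agent.Lib.MP_8bcb9d_co

open Filter Topology

theorem dirs_cases_comb_left (a b : ℝ) (x y z : E) :
    cr (a • x + b • y) z = a * cr x z + b * cr y z := by
  simp only [cr, PiLp.add_apply, PiLp.smul_apply, smul_eq_mul]
  ring

theorem dirs_cases_comb_right (a b : ℝ) (x y z : E) :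
    cr z (a • x + b • y) = a * cr z x + b * cr z y := by
  simp only [cr, PiLp.add_apply, PiLp.smul_apply, smul_eq_mul]
  ring

theorem dirs_cases_smul_left (a : ℝ) (x z : E) : cr (a • x) z = a * cr x z := by
  simp only [cr, PiLp.smul_apply, smul_eq_mul]
  ring

theorem dirs_cases_smul_right (a : ℝ) (x z : E) : cr z (a • x) = a * cr z x := by
  simp only [cr, PiLp.smul_apply, smul_eq_mul]
  ring

theorem dirs_cases_self (x : E) : cr x x = 0 := by
  simp only [cr]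
  ring

theorem dirs_cases_anti (x y : E) : cr x y = -cr y x := by
  simp only [cr]
  ring

/-- Cramer -/
theorem dirs_cases_cramer {α β : E} (h : cr α β ≠ 0) (u : E) :
    u = (cr u β / cr α β) • α + (cr α u / cr α β) • β := by
  apply ext2
  · simp only [PiLp.add_apply, PiLp.smul_apply, smul_eq_mul]
    rw [div_mul_eq_mul_div, div_mul_eq_mul_div, ← add_div, eq_div_iff h]
    simp only [cr]
    ring
  · simp only [PiLp.add_apply, PiLp.smul_apply, smul_eq_mul]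
    rw [div_mul_eq_mul_div, div_mul_eq_mul_div, ← add_div, eq_div_iff h]
    simp only [cr]
    ring

theorem dirs_cases_norm_sq (x : E) : ‖x‖ ^ 2 = x 0 ^ 2 + x 1 ^ 2 := by
  rw [EuclideanSpace.norm_eq, Fin.sum_univ_two, Real.sq_sqrt (by positivity),
    Real.norm_eq_abs, Real.norm_eq_abs, sq_abs, sq_abs]

/-- parallel unit vectors -/
theorem dirs_cases_par {φ u : E} (hφ : ‖φ‖ = 1) (hu : ‖u‖ = 1) (h : cr φ u = 0) :
    u = φ ∨ u = -φ := by
  have h1 := dirs_cases_norm_sq φ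
  have h2 := dirs_cases_norm_sq u
  rw [hφ, one_pow] at h1
  rw [hu, one_pow] at h2
  simp only [cr] at h
  have h3 : (φ 0 * u 0 + φ 1 * u 1) ^ 2 = 1 := by
    have e : (φ 0 * u 0 + φ 1 * u 1) ^ 2 + (φ 0 * u 1 - φ 1 * u 0) ^ 2 =
      (φ 0 ^ 2 + φ 1 ^ 2) * (u 0 ^ 2 + u 1 ^ 2) := by ring
    rw [h, ← h1, ← h2] at e
    linarith
  have h40 : u 0 = (φ 0 * u 0 + φ 1 * u 1) * φ 0 := by
    linear_combination (-φ 1) * h + u 0 * h1
  have h41 : u 1 = (φ 0 * u 0 + φ 1 * u 1) * φ 1 := by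
    linear_combination (φ 0) * h + u 1 * h1
  have h5' : φ 0 * u 0 + φ 1 * u 1 = 1 ∨ φ 0 * u 0 + φ 1 * u 1 = -1 := by
    have h6 : (φ 0 * u 0 + φ 1 * u 1 - 1) * (φ 0 * u 0 + φ 1 * u 1 + 1) = 0 := by linarith
    rcases mul_eq_zero.1 h6 with h7 | h7
    · left; linarith
    · right; linarith
  rcases h5' with h5 | h5
  · left
    rw [h5, one_mul] at h40 h41
    exact ext2 h40 h41
  · right
    rw [h5] at h40 h41
    apply ext2
    · rw [h40]; simp
    · rw [h41]; simp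

/-- the segment -/
noncomputable def dcC (α β : E) (s : ℝ) : E := (1 - s) • α + s • β

/-- the direction of a point of the segment -/
noncomputable def dcU (α β : E) (s : ℝ) : E := ‖dcC α β s‖⁻¹ • dcC α β s

theorem dcC_cont (α β : E) : Continuous (dcC α β) := by
  unfold dcC
  fun_prop

theorem dcC_cr_left (α β : E) (s : ℝ) : cr α (dcC α β s) = s * cr α β := by
  rw [dcC, dirs_cases_comb_right, dirs_cases_self]
  ring

theorem dcC_cr_right (α β : E) (s : ℝ) : cr (dcC α β s) β = (1 - s) * cr α β := by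
  rw [dcC, dirs_cases_comb_left, dirs_cases_self]
  ring

theorem dcC_cr (α β : E) (s t : ℝ) : cr (dcC α β s) (dcC α β t) = (t - s) * cr α β := by
  rw [dcC, dirs_cases_comb_left, dcC_cr_left, dirs_cases_anti β, dcC_cr_right]
  ring

theorem dcC_ne {α β : E} (h : 0 < cr α β) (s : ℝ) : dcC α β s ≠ 0 := by
  intro h0
  have h1 := dcC_cr_left α β s
  have h2 := dcC_cr_right α β s
  rw [h0] at h1 h2
  have h3 : cr α (0 : E) = 0 := by simp [cr]
  have h4 : cr (0 : E) β = 0 := by simp [cr]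
  rw [h3] at h1
  rw [h4] at h2
  have : cr α β = 0 := by linarith
  exact h.ne' this

theorem dcU_cont {α β : E} (h : 0 < cr α β) : Continuous (dcU α β) := by
  unfold dcU
  exact ((dcC_cont α β).norm.inv₀ fun s => norm_ne_zero_iff.2 (dcC_ne h s)).smul (dcC_cont α β)

theorem dcU_zero {α β : E} (hα : ‖α‖ = 1) : dcU α β 0 = α := by
  simp [dcU, dcC, hα]

theorem dcU_one {α β : E} (hβ : ‖β‖ = 1) : dcU α β 1 = β := by
  simp [dcU, dcC, hβ]

/-- a unit vector that is a positive multiple of `dcC s` -/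
theorem dcU_eq {α β : E} (h : 0 < cr α β) {s k : ℝ} (hk : 0 < k) {v : E} (hv : ‖v‖ = 1)
    (he : v = k • dcC α β s) : dcU α β s = v := by
  have h1 : k * ‖dcC α β s‖ = 1 := by
    rw [← hv, he, norm_smul, Real.norm_eq_abs, abs_of_pos hk]
  have h2 : ‖dcC α β s‖ ≠ 0 := norm_ne_zero_iff.2 (dcC_ne h s)
  have h3 : ‖dcC α β s‖⁻¹ = k := by
    field_simp
    linarith
  rw [dcU, h3, ← he]

theorem dirs_cases_main {D : Set E} (hcl : IsClosed D) (hunit : ∀ u ∈ D, ‖u‖ = 1) {α β : E}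
    (hα : α ∈ D) (hβ : β ∈ D) (hαβ : 0 < cr α β) :
    (∃ α ∈ D, ∃ β ∈ D, 0 < cr α β ∧ ∀ u ∈ D, ¬ (0 < cr α u ∧ 0 < cr u β)) ∨
    (∃ α ∈ D, ∃ β ∈ D, 0 < cr α β ∧ ∀ u : E, ‖u‖ = 1 → 0 ≤ cr α u → 0 ≤ cr u β → u ∈ D) := by
  by_cases hall : ∀ s ∈ Set.Icc (0 : ℝ) 1, dcU α β s ∈ D
  · right
    refine ⟨α, hα, β, hβ, hαβ, fun u hu h1 h2 => ?_⟩
    have hc := dirs_cases_cramer hαβ.ne' u
    have ha : 0 ≤ cr u β / cr α β := div_nonneg h2 hαβ.le
    have hb : 0 ≤ cr α u / cr α β := div_nonneg h1 hαβ.le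
    generalize cr u β / cr α β = a at hc ha
    generalize cr α u / cr α β = b at hc hb
    have hab : 0 < a + b := by
      rcases (add_nonneg ha hb).lt_or_eq with h3 | h3
      · exact h3
      · exfalso
        have ha0 : a = 0 := by linarith
        have hb0 : b = 0 := by linarith
        rw [ha0, hb0, zero_smul, zero_smul, add_zero] at hc
        rw [hc, norm_zero] at hu
        exact zero_ne_one hu
    have hs : u = (a + b) • dcC α β (b / (a + b)) := by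
      rw [dcC, smul_add, smul_smul, smul_smul, mul_sub, mul_one, mul_div_cancel₀ _ hab.ne',
        add_sub_cancel_right]
      exact hc
    rw [← dcU_eq hαβ hab hu hs]
    exact hall _ ⟨by positivity, by rw [div_le_one hab]; linarith⟩
  · left
    push Not at hall
    obtain ⟨g, hg, hgD⟩ := hall
    have hScl : IsClosed {s | dcU α β s ∈ D} := hcl.preimage (dcU_cont hαβ)
    have h0 : dcU α β 0 ∈ D := by rw [dcU_zero (hunit α hα)]; exact hα
    have h1 : dcU α β 1 ∈ D := by rw [dcU_one (hunit β hβ)]; exact hβ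
    obtain ⟨a, ⟨⟨ha0, hag⟩, haD⟩, hamax⟩ :=
      (isCompact_Icc (a := (0 : ℝ)) (b := g)).inter_right hScl |>.exists_isGreatest
        ⟨0, ⟨le_rfl, hg.1⟩, h0⟩
    obtain ⟨b, ⟨⟨hgb, hb1⟩, hbD⟩, hbmin⟩ :=
      (isCompact_Icc (a := g) (b := (1 : ℝ))).inter_right hScl |>.exists_isLeast
        ⟨1, ⟨hg.2, le_rfl⟩, h1⟩
    have hag' : a < g := lt_of_le_of_ne hag (fun h => hgD (h ▸ haD))
    have hgb' : g < b := lt_of_le_of_ne hgb (fun h => hgD (h ▸ hbD))
    have hna : 0 < ‖dcC α β a‖⁻¹ := inv_pos.2 (norm_pos_iff.2 (dcC_ne hαβ a))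
    have hnb : 0 < ‖dcC α β b‖⁻¹ := inv_pos.2 (norm_pos_iff.2 (dcC_ne hαβ b))
    have hcab : 0 < cr (dcC α β a) (dcC α β b) := by
      rw [dcC_cr]
      exact mul_pos (by linarith) hαβ
    refine ⟨_, haD, _, hbD, ?_, ?_⟩
    · rw [dcU, dcU, dirs_cases_smul_left, dirs_cases_smul_right]
      positivity
    · rintro v hv ⟨hv1, hv2⟩
      rw [dcU, dirs_cases_smul_left] at hv1
      rw [dcU, dirs_cases_smul_right] at hv2
      have hv1' : 0 < cr (dcC α β a) v := pos_of_mul_pos_right hv1 hna.le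
      have hv2' : 0 < cr v (dcC α β b) := pos_of_mul_pos_right hv2 hnb.le
      have hc := dirs_cases_cramer hcab.ne' v
      have hx : 0 < cr v (dcC α β b) / cr (dcC α β a) (dcC α β b) := div_pos hv2' hcab
      have hy : 0 < cr (dcC α β a) v / cr (dcC α β a) (dcC α β b) := div_pos hv1' hcab
      generalize cr v (dcC α β b) / cr (dcC α β a) (dcC α β b) = x at hc hx
      generalize cr (dcC α β a) v / cr (dcC α β a) (dcC α β b) = y at hc hy
      have hxy : 0 < x + y := add_pos hx hy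
      have hs : v = (x + y) • dcC α β ((x * a + y * b) / (x + y)) := by
        have e1 : (x + y) * ((x * a + y * b) / (x + y)) = x * a + y * b :=
          mul_div_cancel₀ _ hxy.ne'
        generalize (x * a + y * b) / (x + y) = s at e1 ⊢
        rw [hc]
        have e2 : (x + y) * (1 - s) = x * (1 - a) + y * (1 - b) := by
          rw [mul_sub, e1]; ring
        have e3 : (x + y) • dcC α β s = (x * (1 - a) + y * (1 - b)) • α + (x * a + y * b) • β := by
          rw [dcC, smul_add, smul_smul, smul_smul, e2, e1]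
        rw [e3]
        simp only [dcC]
        module
      have hsD : dcU α β ((x * a + y * b) / (x + y)) ∈ D := by
        rw [dcU_eq hαβ hxy (hunit v hv) hs]
        exact hv
      have hsa : a < (x * a + y * b) / (x + y) := by
        rw [lt_div_iff₀ hxy]
        nlinarith
      have hsb : (x * a + y * b) / (x + y) < b := by
        rw [div_lt_iff₀ hxy]
        nlinarith
      generalize (x * a + y * b) / (x + y) = s at hsD hsa hsb
      rcases le_total s g with h | h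
      · exact absurd (hamax ⟨⟨by linarith, h⟩, hsD⟩) (not_le.2 hsa)
      · exact absurd (hbmin ⟨⟨h, by linarith⟩, hsD⟩) (not_le.2 hsb)

theorem dirs_cases {D : Set E} (hcl : IsClosed D) (hunit : ∀ u ∈ D, ‖u‖ = 1) (hne : D.Nonempty) :
    (∃ φ ∈ D, ∀ u ∈ D, u = φ ∨ u = -φ) ∨
    (∃ α ∈ D, ∃ β ∈ D, 0 < cr α β ∧ ∀ u ∈ D, ¬ (0 < cr α u ∧ 0 < cr u β)) ∨
    (∃ α ∈ D, ∃ β ∈ D, 0 < cr α β ∧ ∀ u : E, ‖u‖ = 1 → 0 ≤ cr α u → 0 ≤ cr u β → u ∈ D) := by
  by_cases h1 : ∃ φ ∈ D, ∀ u ∈ D, u = φ ∨ u = -φ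
  · exact Or.inl h1
  · right
    push Not at h1
    obtain ⟨φ, hφ⟩ := hne
    obtain ⟨u, hu, hu1, hu2⟩ := h1 φ hφ
    have hcr : cr φ u ≠ 0 := by
      intro h
      rcases dirs_cases_par (hunit φ hφ) (hunit u hu) h with h | h
      · exact hu1 h
      · exact hu2 h
    rcases lt_or_gt_of_ne hcr with h | h
    · apply dirs_cases_main hcl hunit hu hφ
      rw [dirs_cases_anti]
      linarith
    · exact dirs_cases_main hcl hunit hφ hu h

end Pool.Agent.Lib.MP_8bcb9d_co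
end

section

/-!
# Part I: stretching at a line with infinitely many positions
-/

set_option autoImplicit false

namespace Pool.Agent.Lib.MP_8bcb9d_co

open Filter Topology

theorem stretch_coord0 {ι : Type*} {l : Filter ι} {x : ι → E} {v : E} (h : Tendsto x l (𝓝 v)) :
    Tendsto (fun n => x n 0) l (𝓝 (v 0)) := by
  rw [tendsto_iff_dist_tendsto_zero] at h ⊢
  refine squeeze_zero (fun _ => dist_nonneg) (fun n => ?_) h
  rw [Real.dist_eq]
  exact abs_sub_zero_le _ _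

theorem stretch_coord1 {ι : Type*} {l : Filter ι} {x : ι → E} {v : E} (h : Tendsto x l (𝓝 v)) :
    Tendsto (fun n => x n 1) l (𝓝 (v 1)) := by
  rw [tendsto_iff_dist_tendsto_zero] at h ⊢
  refine squeeze_zero (fun _ => dist_nonneg) (fun n => ?_) h
  rw [Real.dist_eq]
  exact abs_sub_one_le _ _

theorem stretch_norm_le (v : E) : ‖v‖ ≤ |v 0| + |v 1| := by
  have := dist_le_abs v 0
  simpa using this

theorem stretch_abs0 (v : E) : |v 0| ≤ ‖v‖ := by
  have := abs_sub_zero_le v 0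
  simpa using this

/-- diagonal choice -/
theorem stretch_diag {h : ℕ → ℕ → ℝ} (hh : ∀ i, Tendsto (h i) UN (𝓝 0)) :
    ∃ η : ℕ → ℝ, (∀ n, 0 < η n) ∧ Tendsto η UN (𝓝 0) ∧
      ∀ i, ∀ᶠ n in (UN : Filter ℕ), h i n ≤ η n := by
  classical
  set P : ℕ → ℕ → Prop := fun n k => ∀ i ≤ k, h i n ≤ 1 / ((k : ℝ) + 1) with hP
  set k : ℕ → ℕ := fun n => Nat.findGreatest (P n) n with hk
  have h1 : ∀ j, ∀ᶠ n in (UN : Filter ℕ), j ≤ k n := by
    intro j
    have h2 : ∀ᶠ n in (UN : Filter ℕ), P n j := by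
      have h3 : ∀ᶠ n in (UN : Filter ℕ), ∀ i ∈ Finset.range (j + 1), h i n ≤ 1 / ((j : ℝ) + 1) := by
        rw [Filter.eventually_all_finset]
        intro i _
        have : (0 : ℝ) < 1 / ((j : ℝ) + 1) := by positivity
        filter_upwards [(hh i).eventually (gt_mem_nhds this)] with n hn
        exact hn.le
      filter_upwards [h3] with n hn
      intro i hi
      exact hn i (Finset.mem_range.2 (by omega))
    have h4 : ∀ᶠ n in (UN : Filter ℕ), j ≤ n :=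
      (eventually_ge_atTop j).filter_mono UN_le
    filter_upwards [h2, h4] with n a1 a2
    exact Nat.le_findGreatest a2 a1
  have hkt : Tendsto k UN atTop := tendsto_atTop.2 h1
  refine ⟨fun n => 1 / ((k n : ℝ) + 1), fun n => by positivity, ?_, ?_⟩
  · exact tendsto_one_div_add_atTop_nhds_zero_nat.comp hkt
  · intro i
    filter_upwards [h1 (i + 1)] with n hn
    have h2 : k n ≠ 0 := by omega
    have h3 : P n (k n) := Nat.findGreatest_of_ne_zero rfl h2
    exact h3 i (by omega)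

open Classical in
theorem stretch {K : ℕ} {X : ℕ → Finset E} (hX : ∀ n, KSet K (X n)) {κ μ : ℝ} {b : ℕ → E}
    (hb : ∀ i, b i ∈ pos X) (hR : ∃ R : ℝ, ∀ i, ‖b i‖ ≤ R) (hinj : ∀ i j, i ≠ j → b i 0 ≠ b j 0)
    (hline : ∀ i, b i 1 = κ * b i 0 + μ) :
    ∃ κ' μ' M : ℕ → ℝ, Tendsto κ' UN (𝓝 κ) ∧ Tendsto μ' UN (𝓝 μ) ∧ Tendsto M UN (𝓝 0) ∧
      (∀ n, 0 < M n) ∧
      (∃ b' : ℕ → E, (∀ i, b' i ∈ pos fun n => (X n).image (st (κ' n) (μ' n) (M n))) ∧
        (∃ R, ∀ i, ‖b' i‖ ≤ R) ∧ ∀ i j, i ≠ j → b' i 0 ≠ b' j 0) ∧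
      ∀ κ₁ μ₁ : ℝ, ∃ v ∈ pos fun n => (X n).image (st (κ' n) (μ' n) (M n)),
        v 1 ≠ κ₁ * v 0 + μ₁ := by
  obtain ⟨R, hR⟩ := hR
  have hz := fun i => exists_seq_of_mem (fun n => (X n).finite_toSet.isClosed) (hb i)
  choose z hzX hzt using hz
  have hh0 : ∀ i, Tendsto (fun n => |z i n 1 - κ * z i n 0 - μ|) UN (𝓝 0) := by
    intro i
    have h1 := (((stretch_coord1 (hzt i)).sub
      ((stretch_coord0 (hzt i)).const_mul κ)).sub_const μ).abs
    have h2 : |b i 1 - κ * b i 0 - μ| = 0 := by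
      rw [hline i]
      rw [show κ * b i 0 + μ - κ * b i 0 - μ = 0 by ring, abs_zero]
    rw [h2] at h1
    exact h1
  obtain ⟨η, hηpos, hη0, hη⟩ := stretch_diag hh0
  set G : ℕ → Finset E := fun n => (X n).filter fun v => |v 0| ≤ R + 1 ∧
    |v 1 - κ * v 0 - μ| ≤ η n with hG
  have hzG : ∀ i, ∀ᶠ n in (UN : Filter ℕ), z i n ∈ G n := by
    intro i
    have h1 : ∀ᶠ n in (UN : Filter ℕ), |z i n 0| < R + 1 := by
      have h2 := (stretch_coord0 (hzt i)).abs
      refine h2.eventually (gt_mem_nhds ?_)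
      linarith [stretch_abs0 (b i), hR i]
    filter_upwards [hzX i, h1, hη i] with n a1 a2 a3
    exact Finset.mem_filter.2 ⟨a1, a2.le, a3⟩
  -- the line through the first two points
  set κ' : ℕ → ℝ := fun n => (z 1 n 1 - z 0 n 1) / (z 1 n 0 - z 0 n 0) with hκ'
  set μ' : ℕ → ℝ := fun n => z 0 n 1 - κ' n * z 0 n 0 with hμ'
  have hb01 : b 1 0 - b 0 0 ≠ 0 := sub_ne_zero.2 (hinj 1 0 (by norm_num))
  have hκt : Tendsto κ' UN (𝓝 κ) := by
    have h1 := ((stretch_coord1 (hzt 1)).sub (stretch_coord1 (hzt 0))).div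
      ((stretch_coord0 (hzt 1)).sub (stretch_coord0 (hzt 0))) hb01
    have h2 : (b 1 1 - b 0 1) / (b 1 0 - b 0 0) = κ := by
      rw [div_eq_iff hb01, hline 1, hline 0]
      ring
    rw [h2] at h1
    exact h1
  have hμt : Tendsto μ' UN (𝓝 μ) := by
    have h1 := (stretch_coord1 (hzt 0)).sub (hκt.mul (stretch_coord0 (hzt 0)))
    have h2 : b 0 1 - κ * b 0 0 = μ := by
      rw [hline 0]
      ring
    rw [h2] at h1
    exact h1
  set f : ℕ → E → ℝ := fun n v => |v 1 - κ' n * v 0 - μ' n| with hf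
  have hm : ∀ n, ∃ m : E, (G n).Nonempty → m ∈ G n ∧ ∀ v ∈ G n, f n v ≤ f n m := by
    intro n
    by_cases h : (G n).Nonempty
    · obtain ⟨m, hm1, hm2⟩ := Finset.exists_max_image (G n) (f n) h
      exact ⟨m, fun _ => ⟨hm1, hm2⟩⟩
    · exact ⟨0, fun h' => absurd h' h⟩
  choose m hm using hm
  set M : ℕ → ℝ := fun n => if 0 < f n (m n) then f n (m n) else 1 / ((n : ℝ) + 1) with hM
  have hMpos : ∀ n, 0 < M n := by
    intro n
    simp only [hM]
    split_ifs with h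
    · exact h
    · positivity
  have hmG : ∀ᶠ n in (UN : Filter ℕ), m n ∈ G n ∧ ∀ v ∈ G n, f n v ≤ f n (m n) := by
    filter_upwards [hzG 0] with n hn
    exact hm n ⟨_, hn⟩
  have hne01 : ∀ᶠ n in (UN : Filter ℕ), z 1 n 0 - z 0 n 0 ≠ 0 := by
    have h1 := (stretch_coord0 (hzt 1)).sub (stretch_coord0 (hzt 0))
    exact h1.eventually_ne hb01
  have hne : ∀ i j, i ≠ j → ∀ᶠ n in (UN : Filter ℕ), z i n ≠ z j n := by
    intro i j hij
    have h1 := (stretch_coord0 (hzt i)).sub (stretch_coord0 (hzt j))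
    filter_upwards [h1.eventually_ne (sub_ne_zero.2 (hinj i j hij))] with n hn heq
    exact hn (by rw [heq, sub_self])
  have hfpos : ∀ᶠ n in (UN : Filter ℕ), 0 < f n (m n) := by
    filter_upwards [hmG, hzG 2, hne01, hzX 0, hzX 1, hzX 2, hne 0 1 (by norm_num),
      hne 0 2 (by norm_num), hne 1 2 (by norm_num)] with n a1 a2 a3 a4 a5 a6 a7 a8 a9
    refine lt_of_lt_of_le ?_ (a1.2 _ a2)
    simp only [hf]
    rw [abs_pos]
    intro h0
    have h1 := (hX n).gp _ a4 _ a5 _ a6 a7 a8 a9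
    apply h1
    apply collinear_of_cr a7
    unfold cr
    simp only [PiLp.sub_apply]
    have h2 : κ' n * (z 1 n 0 - z 0 n 0) = z 1 n 1 - z 0 n 1 := by
      simp only [hκ']
      exact div_mul_cancel₀ _ a3
    have h3 : z 2 n 1 - z 0 n 1 = κ' n * (z 2 n 0 - z 0 n 0) := by
      simp only [hμ'] at h0
      linarith
    rw [h3]
    calc (z 1 n 0 - z 0 n 0) * (κ' n * (z 2 n 0 - z 0 n 0)) -
          (z 1 n 1 - z 0 n 1) * (z 2 n 0 - z 0 n 0)
        = (κ' n * (z 1 n 0 - z 0 n 0) - (z 1 n 1 - z 0 n 1)) * (z 2 n 0 - z 0 n 0) := by ring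
      _ = 0 := by rw [h2]; ring
  have hMf : ∀ᶠ n in (UN : Filter ℕ), M n = f n (m n) := by
    filter_upwards [hfpos] with n hn
    simp only [hM]
    rw [if_pos hn]
  have hMt : Tendsto M UN (𝓝 0) := by
    have h1 : Tendsto (fun n => η n + |κ - κ' n| * (R + 1) + |μ - μ' n|) UN (𝓝 0) := by
      have h2 : Tendsto (fun n => |κ - κ' n| * (R + 1)) UN (𝓝 0) := by
        have := ((hκt.const_sub κ).abs).mul_const (R + 1)
        simpa using this
      have h3 : Tendsto (fun n => |μ - μ' n|) UN (𝓝 0) := by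
        have := (hμt.const_sub μ).abs
        simpa using this
      have h4 := (hη0.add h2).add h3
      simpa using h4
    refine squeeze_zero' (Filter.Eventually.of_forall fun n => (hMpos n).le) ?_ h1
    filter_upwards [hMf, hmG] with n a1 a2
    rw [a1]
    obtain ⟨-, c1, c2⟩ := Finset.mem_filter.1 a2.1
    simp only [hf]
    have h5 : m n 1 - κ' n * m n 0 - μ' n =
        (m n 1 - κ * m n 0 - μ) + (κ - κ' n) * m n 0 + (μ - μ' n) := by ring
    rw [h5]
    calc |(m n 1 - κ * m n 0 - μ) + (κ - κ' n) * m n 0 + (μ - μ' n)|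
        ≤ |m n 1 - κ * m n 0 - μ| + |(κ - κ' n) * m n 0| + |μ - μ' n| := abs_add_three _ _ _
      _ ≤ η n + |κ - κ' n| * (R + 1) + |μ - μ' n| := by
          rw [abs_mul]
          have := mul_le_mul_of_nonneg_left c1 (abs_nonneg (κ - κ' n))
          linarith
  -- points of `G n` after stretching
  have hst0 : ∀ n v, st (κ' n) (μ' n) (M n) v 0 = v 0 := by
    intro n v
    unfold st
    rw [mk_zero]
  have hst1 : ∀ n v, st (κ' n) (μ' n) (M n) v 1 = (v 1 - κ' n * v 0 - μ' n) / M n := by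
    intro n v
    unfold st
    rw [mk_one]
  have hbd : ∀ᶠ n in (UN : Filter ℕ), ∀ v ∈ G n, ‖st (κ' n) (μ' n) (M n) v‖ ≤ R + 2 := by
    filter_upwards [hMf, hmG] with n a1 a2 v hv
    refine (stretch_norm_le _).trans ?_
    rw [hst0, hst1, abs_div, abs_of_pos (hMpos n)]
    have h1 : |v 1 - κ' n * v 0 - μ' n| / M n ≤ 1 := by
      rw [div_le_one (hMpos n), a1]
      exact a2.2 v hv
    have h2 := (Finset.mem_filter.1 hv).2.1
    linarith
  have hlim : ∀ w : ℕ → E, (∀ᶠ n in (UN : Filter ℕ), w n ∈ G n) →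
      ∃ v ∈ pos fun n => (X n).image (st (κ' n) (μ' n) (M n)),
        Tendsto (fun n => st (κ' n) (μ' n) (M n) (w n)) UN (𝓝 v) ∧ ‖v‖ ≤ R + 2 := by
    intro w hw
    have h1 : ∀ᶠ n in (UN : Filter ℕ), ‖st (κ' n) (μ' n) (M n) (w n)‖ ≤ R + 2 := by
      filter_upwards [hbd, hw] with n a1 a2
      exact a1 _ a2
    obtain ⟨v, hv⟩ := exists_tendsto h1
    refine ⟨v, mem_ulim_of_tendsto ?_ hv, hv, le_of_tendsto hv.norm h1⟩
    filter_upwards [hw] with n hn
    exact Finset.mem_image_of_mem _ (Finset.mem_filter.1 hn).1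
  have hb' := fun i => hlim (z i) (hzG i)
  choose b' hb'1 hb'2 hb'3 using hb'
  have hb'0 : ∀ i, b' i 0 = b i 0 := by
    intro i
    refine tendsto_nhds_unique (stretch_coord0 (hb'2 i)) ?_
    simp only [hst0]
    exact stretch_coord0 (hzt i)
  obtain ⟨m', hm'1, hm'2, -⟩ := hlim m (hmG.mono fun n hn => hn.1)
  have hb00 : b' 0 1 = 0 := by
    refine tendsto_nhds_unique (stretch_coord1 (hb'2 0)) ?_
    simp only [hst1]
    refine tendsto_const_nhds.congr' ?_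
    refine Filter.Eventually.of_forall fun n => ?_
    simp only [hμ']
    rw [show z 0 n 1 - κ' n * z 0 n 0 - (z 0 n 1 - κ' n * z 0 n 0) = 0 by ring, zero_div]
  have hb10 : b' 1 1 = 0 := by
    refine tendsto_nhds_unique (stretch_coord1 (hb'2 1)) ?_
    simp only [hst1]
    refine tendsto_const_nhds.congr' ?_
    filter_upwards [hne01] with n hn
    have h2 : κ' n * (z 1 n 0 - z 0 n 0) = z 1 n 1 - z 0 n 1 := by
      simp only [hκ']
      exact div_mul_cancel₀ _ hn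
    simp only [hμ']
    rw [show z 1 n 1 - κ' n * z 1 n 0 - (z 0 n 1 - κ' n * z 0 n 0) =
      (z 1 n 1 - z 0 n 1) - κ' n * (z 1 n 0 - z 0 n 0) by ring, h2, sub_self, zero_div]
  have hm1 : |m' 1| = 1 := by
    refine tendsto_nhds_unique (stretch_coord1 hm'2).abs ?_
    refine tendsto_const_nhds.congr' ?_
    filter_upwards [hMf] with n hn
    rw [hst1, abs_div, abs_of_pos (hMpos n)]
    have h1 : |m n 1 - κ' n * m n 0 - μ' n| = M n := hn.symm
    rw [h1, div_self (hMpos n).ne']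
  refine ⟨κ', μ', M, hκt, hμt, hMt, hMpos, ⟨b', hb'1, ⟨R + 2, hb'3⟩, ?_⟩, ?_⟩
  · intro i j hij
    rw [hb'0, hb'0]
    exact hinj i j hij
  · intro κ₁ μ₁
    by_contra hcon
    push Not at hcon
    have h0 := hcon (b' 0) (hb'1 0)
    have h1 := hcon (b' 1) (hb'1 1)
    have h2 := hcon m' hm'1
    rw [hb00, hb'0] at h0
    rw [hb10, hb'0] at h1
    have h3 : κ₁ * (b 1 0 - b 0 0) = 0 := by linarith
    have h4 : κ₁ = 0 := by
      rcases mul_eq_zero.1 h3 with h | h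
      · exact h
      · exact absurd h hb01
    have h5 : μ₁ = 0 := by
      rw [h4] at h0
      linarith
    rw [h4, h5] at h2
    have h6 : m' 1 = 0 := by linarith
    rw [h6, abs_zero] at hm1
    exact zero_ne_one hm1

end Pool.Agent.Lib.MP_8bcb9d_co
end

section

/-!
# Theorem 3 (a multiple position which sees many directions is impossible) from `no_syn`
-/

set_option autoImplicit false

namespace Pool.Agent.Lib.MP_8bcb9d_co

open Filter Topology

/-- the statement of `no_syn` -/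
def NoSynStmt : Prop :=
  ∀ (Φ : Finset E), Dirs Φ → ∀ K : ℕ, 4 * K + 5 ≤ Φ.card → ∀ L : ℝ, 1 ≤ L → ∀ T : Set E,
    Lim K Φ T → Syn L T → False

/-- the case in which everything holds for all indices, and sufficiently many directions
point upwards -/
theorem three_core (NS : NoSynStmt) {K : ℕ} {X : ℕ → Finset E} (hX : ∀ n, KSet K (X n)) {x x' : ℕ → E} {e : E}
    (hx : ∀ n, x n ∈ X n) (hx' : ∀ n, x' n ∈ X n) (hne : ∀ n, x n ≠ x' n)
    (h1 : Tendsto x UN (𝓝 e)) (h2 : Tendsto x' UN (𝓝 e)) {Φ : Finset E} (hΦ : Dirs Φ)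
    (hcard : 4 * K + 5 ≤ Φ.card) (hup : 2 * K + 1 ≤ (Φ.filter fun φ => 0 < φ 1).card)
    {f : E → ℕ → E} (hf : ∀ φ ∈ Φ, ∀ n, f φ n ∈ X n)
    (hfl : ∀ φ ∈ Φ, Tendsto (f φ) UN (𝓝 (e + φ))) : False := by
  classical
  obtain ⟨L, hL, ε, hε, G⟩ := gap_hit hΦ hup
  have hL0 : 0 < L := by linarith
  -- distances
  have hs0 : ∀ n, 0 < dist (x' n) (x n) := fun n => dist_pos.2 (hne n).symm
  have hslim : Tendsto (fun n => dist (x' n) (x n)) UN (𝓝 0) := by
    have := h2.dist h1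
    rwa [dist_self] at this
  have hr0 : ∀ n, 0 < Real.sqrt (dist (x' n) (x n)) := fun n => Real.sqrt_pos.2 (hs0 n)
  have hrlim : Tendsto (fun n => Real.sqrt (dist (x' n) (x n))) UN (𝓝 0) := by
    have := (Real.continuous_sqrt.tendsto 0).comp hslim
    rwa [Real.sqrt_zero] at this
  -- no gaps between the distance and a constant
  have hfar : ∀ᶠ n in (UN : Filter ℕ), ∀ φ ∈ Φ, dist (f φ n) (x n + φ) < ε := by
    rw [Filter.eventually_all_finset]
    intro φ hφ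
    have h3 : Tendsto (fun n => dist (f φ n) (x n + φ)) UN (𝓝 0) := by
      have := (hfl φ hφ).dist (h1.add_const φ)
      rwa [dist_self] at this
    exact h3.eventually (gt_mem_nhds hε)
  have hgap : ∀ᶠ n in (UN : Filter ℕ), ∀ t, dist (x' n) (x n) ≤ t → L * t ≤ 1 →
      ∃ y ∈ X n, t < dist y (x n) ∧ dist y (x n) ≤ L * t := by
    filter_upwards [hfar] with n hn t ht1 ht2
    refine G (X n) (hX n) (x n) (hx n) t ((hs0 n).trans_le ht1)
      ⟨x' n, hx' n, (hne n).symm, ht1⟩ ?_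
    intro φ hφ
    refine ⟨f φ n, hf φ hφ n, 1, one_pos, ht2, ?_⟩
    rw [one_smul, mul_one]
    exact (hn φ hφ).le
  -- zoom
  let r : ℕ → ℝ := fun n => Real.sqrt (dist (x' n) (x n))
  have hri : ∀ n, (r n)⁻¹ ≠ 0 := fun n => inv_ne_zero (hr0 n).ne'
  let Z : ℕ → Finset E := fun n => (X n).image (homo (r n)⁻¹ (hri n) (x n))
  have hZ : ∀ n, ∀ y ∈ X n, (r n)⁻¹ • (y - x n) ∈ Z n := by
    intro n y hy
    rw [← homo_apply (r n)⁻¹ (hri n)]
    exact Finset.mem_image_of_mem _ hy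
  have hseq : SeqTo K Φ (ulim UN (fun n => (Z n : Set E))) Z := by
    refine ⟨fun n => (hX n).affine _, rfl, ?_⟩
    intro φ hφ
    refine ⟨fun n => (r n)⁻¹ • (f φ n - x n), fun n => (r n)⁻¹,
      fun n => hZ n _ (hf φ hφ n), fun n => inv_pos.2 (hr0 n), ?_, ?_⟩
    · apply tendsto_inv_nhdsGT_zero.comp
      rw [tendsto_nhdsWithin_iff]
      exact ⟨hrlim, Filter.Eventually.of_forall fun n => hr0 n⟩
    · have h3 : Tendsto (fun n => f φ n - x n) UN (𝓝 φ) := by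
        have := (hfl φ hφ).sub h1
        rwa [add_sub_cancel_left] at this
      refine h3.congr fun n => ?_
      rw [smul_smul, inv_inv, mul_inv_cancel₀ (hr0 n).ne', one_smul]
  refine NS Φ hΦ K hcard L hL _ hseq.lim' ⟨?_, ?_⟩
  · -- `0`
    refine mem_ulim_of_tendsto (x := fun _ => (0 : E)) ?_ tendsto_const_nhds
    refine Filter.Eventually.of_forall fun n => ?_
    have := hZ n (x n) (hx n)
    rwa [sub_self, smul_zero] at this
  · intro t ht
    have e1 : ∀ᶠ n in (UN : Filter ℕ), r n < t := hrlim.eventually (gt_mem_nhds ht)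
    have e2 : ∀ᶠ n in (UN : Filter ℕ), r n < 1 / (L * t) :=
      hrlim.eventually (gt_mem_nhds (by positivity))
    have e3 : ∀ᶠ n in (UN : Filter ℕ), ∃ y ∈ X n, t * r n < dist y (x n) ∧
        dist y (x n) ≤ L * (t * r n) := by
      filter_upwards [hgap, e1, e2] with n b1 b2 b3
      refine b1 (t * r n) ?_ ?_
      · have h3 : dist (x' n) (x n) = r n * r n := (Real.mul_self_sqrt dist_nonneg).symm
        rw [h3]
        exact mul_le_mul_of_nonneg_right b2.le (hr0 n).le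
      · rw [lt_div_iff₀ (by positivity)] at b3
        nlinarith
    have e4 : ∀ n, ∃ y : E, (∃ y ∈ X n, t * r n < dist y (x n) ∧
        dist y (x n) ≤ L * (t * r n)) → (y ∈ X n ∧ t * r n < dist y (x n) ∧
        dist y (x n) ≤ L * (t * r n)) := by
      intro n
      by_cases h : ∃ y ∈ X n, t * r n < dist y (x n) ∧ dist y (x n) ≤ L * (t * r n)
      · obtain ⟨y, hy⟩ := h
        exact ⟨y, fun _ => hy⟩
      · exact ⟨0, fun h' => absurd h' h⟩
    choose y hy using e4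
    have e5 : ∀ᶠ n in (UN : Filter ℕ), y n ∈ X n ∧ t ≤ ‖(r n)⁻¹ • (y n - x n)‖ ∧
        ‖(r n)⁻¹ • (y n - x n)‖ ≤ L * t := by
      filter_upwards [e3] with n hn
      obtain ⟨b1, b2, b3⟩ := hy n hn
      have hrn : 0 < r n := hr0 n
      have h3 : ‖(r n)⁻¹ • (y n - x n)‖ = dist (y n) (x n) / r n := by
        rw [norm_smul, Real.norm_of_nonneg (inv_nonneg.2 hrn.le), ← dist_eq_norm,
          div_eq_inv_mul]
      refine ⟨b1, ?_, ?_⟩
      · rw [h3, le_div_iff₀ hrn]; exact b2.le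
      · rw [h3, div_le_iff₀ hrn]; linarith
    obtain ⟨v, hv⟩ := exists_tendsto (U := UN) (x := fun n => (r n)⁻¹ • (y n - x n))
      (R := L * t) (e5.mono fun n hn => hn.2.2)
    refine ⟨v, mem_ulim_of_tendsto (e5.mono fun n hn => hZ n _ hn.1) hv, ?_, ?_⟩
    · exact ge_of_tendsto hv.norm (e5.mono fun n hn => hn.2.1)
    · exact le_of_tendsto hv.norm (e5.mono fun n hn => hn.2.2)

/-- Theorem 3 from the theorem `no_syn`. -/
theorem three_of (NS : NoSynStmt) {K : ℕ} {X : ℕ → Finset E} (hX : ∀ n, KSet K (X n)) {x x' : ℕ → E} {e : E}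
    (hx : ∀ᶠ n in (UN : Filter ℕ), x n ∈ X n) (hx' : ∀ᶠ n in (UN : Filter ℕ), x' n ∈ X n)
    (hne : ∀ᶠ n in (UN : Filter ℕ), x n ≠ x' n) (h1 : Tendsto x UN (𝓝 e))
    (h2 : Tendsto x' UN (𝓝 e)) {Φ : Finset E} (hΦ : Dirs Φ) (hcard : 4 * K + 5 ≤ Φ.card)
    (hΦT : ∀ φ ∈ Φ, e + φ ∈ pos X) : False := by
  classical
  -- far points
  have hf : ∀ φ : E, ∃ f : ℕ → E, φ ∈ Φ → ((∀ᶠ n in (UN : Filter ℕ), f n ∈ X n) ∧
      Tendsto f UN (𝓝 (e + φ))) := by
    intro φ
    by_cases hφ : φ ∈ Φ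
    · obtain ⟨f, hf1, hf2⟩ := exists_seq_of_mem (fun n => (X n).finite_toSet.isClosed) (hΦT φ hφ)
      exact ⟨f, fun _ => ⟨hf1, hf2⟩⟩
    · exact ⟨fun _ => 0, fun h => absurd h hφ⟩
  choose f hf using hf
  have hfX : ∀ᶠ n in (UN : Filter ℕ), ∀ φ ∈ Φ, f φ n ∈ X n := by
    rw [Filter.eventually_all_finset]
    exact fun φ hφ => (hf φ hφ).1
  -- good indices
  have hgood := ((hx.and hx').and (hne.and hfX))
  obtain ⟨n₀, hn₀⟩ := hgood.exists
  let P : ℕ → Prop := fun n => (x n ∈ X n ∧ x' n ∈ X n) ∧ (x n ≠ x' n ∧ ∀ φ ∈ Φ, f φ n ∈ X n)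
  let g : ℕ → ℕ := fun n => if P n then n else n₀
  have hg : ∀ n, P (g n) := by
    intro n
    by_cases h : P n
    · simp only [g, if_pos h]; exact h
    · simp only [g, if_neg h]; exact hn₀
  have hge : ∀ᶠ n in (UN : Filter ℕ), n = g n := by
    filter_upwards [hgood] with n hn
    have : P n := hn
    simp only [g, if_pos this]
  have hcongr : ∀ (u : ℕ → E) (v : E), Tendsto u UN (𝓝 v) →
      Tendsto (fun n => u (g n)) UN (𝓝 v) := by
    intro u v hu
    refine hu.congr' ?_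
    filter_upwards [hge] with n hn
    rw [← hn]
  -- change of coordinates
  have hd : mk 1 0 ≠ (0 : E) := by
    intro h
    have := congrArg (fun v : E => v 0) h
    simp at this
  obtain ⟨B, -, hstd⟩ := exists_std hΦ hcard hd
  have hBc : Continuous B := (B : E →ₗ[ℝ] E).continuous_of_finiteDimensional
  refine three_core NS (X := fun n => (X (g n)).image B.toAffineEquiv) (x := fun n => B (x (g n)))
    (x' := fun n => B (x' (g n))) (e := B e) (Φ := Φ.image B) (K := K)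
    (f := fun ψ n => B (f (B.symm ψ) (g n))) (fun n => (hX (g n)).affine _)
    (fun n => Finset.mem_image_of_mem B (hg n).1.1) (fun n => Finset.mem_image_of_mem B (hg n).1.2)
    (fun n h => (hg n).2.1 (B.injective h)) ?_ ?_ (hΦ.image B) ?_ ?_ ?_ ?_
  · exact (hBc.tendsto e).comp (hcongr x e h1)
  · exact (hBc.tendsto e).comp (hcongr x' e h2)
  · rw [Finset.card_image_of_injective _ B.injective]; exact hcard
  · have h3 : ((Φ.image B).filter fun φ => 0 < φ 0 ∧ 0 < φ 1) ∪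
        ((Φ.image B).filter fun φ => φ 0 < 0 ∧ 0 < φ 1) ⊆ (Φ.image B).filter fun φ => 0 < φ 1 := by
      intro v hv
      rw [Finset.mem_union, Finset.mem_filter, Finset.mem_filter] at hv
      rw [Finset.mem_filter]
      rcases hv with hv | hv
      · exact ⟨hv.1, hv.2.2⟩
      · exact ⟨hv.1, hv.2.2⟩
    have h4 : Disjoint ((Φ.image B).filter fun φ => 0 < φ 0 ∧ 0 < φ 1)
        ((Φ.image B).filter fun φ => φ 0 < 0 ∧ 0 < φ 1) := by
      rw [Finset.disjoint_filter]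
      intro v _ hv hv'
      linarith [hv.1, hv'.1]
    have h5 := Finset.card_le_card h3
    rw [Finset.card_union_of_disjoint h4] at h5
    have h6 := hstd.1
    have h7 := hstd.2
    omega
  · intro ψ hψ n
    obtain ⟨φ, hφ, rfl⟩ := Finset.mem_image.1 hψ
    simp only [LinearEquiv.symm_apply_apply]
    exact Finset.mem_image_of_mem B ((hg n).2.2 φ hφ)
  · intro ψ hψ
    obtain ⟨φ, hφ, rfl⟩ := Finset.mem_image.1 hψ
    simp only [LinearEquiv.symm_apply_apply]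
    rw [← map_add]
    exact (hBc.tendsto (e + φ)).comp (hcongr (f φ) (e + φ) (hf φ hφ).2)

end Pool.Agent.Lib.MP_8bcb9d_co
end

section

/-!
# Part I: infinitely many positions give infinitely many bounded positions
-/

set_option autoImplicit false

namespace Pool.Agent.Lib.MP_8bcb9d_co

open Filter Topology

private theorem bd_coord (i : Fin 2) : Continuous (fun v : E => v i) :=
  (EuclideanSpace.proj i : E →L[ℝ] ℝ).continuous

private theorem bd_mk (x y : ℝ) : mk x y = x • mk 1 0 + y • mk 0 1 :=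
  ext2 (by simp) (by simp)

private theorem bd_tendsto_pr {y : ℕ → E} {w : E} (h : Tendsto y UN (𝓝 w)) (hw : w 1 ≠ 0) :
    Tendsto (fun n => pr (y n)) UN (𝓝 (pr w)) := by
  have h0 : Tendsto (fun n => y n 0) UN (𝓝 (w 0)) := ((bd_coord 0).tendsto w).comp h
  have h1 : Tendsto (fun n => y n 1) UN (𝓝 (w 1)) := ((bd_coord 1).tendsto w).comp h
  have h2 : Tendsto (fun n => (y n 0 / y n 1) • mk 1 0 + (-(y n 1)⁻¹) • mk 0 1) UN
      (𝓝 ((w 0 / w 1) • mk 1 0 + (-(w 1)⁻¹) • mk 0 1)) :=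
    ((h0.div h1 hw).smul_const _).add (((h1.inv₀ hw).neg).smul_const _)
  have e : ∀ v : E, pr v = (v 0 / v 1) • mk 1 0 + (-(v 1)⁻¹) • mk 0 1 := fun v => bd_mk _ _
  rw [e w]
  refine h2.congr fun n => (e (y n)).symm

/-- the case of one cone -/
private theorem bd_cone {K : ℕ} {X : ℕ → Finset E} (hX : ∀ n, KSet K (X n)) (B : E ≃ₗ[ℝ] E)
    (hinf : {v | v ∈ pos X ∧ |B v 0| ≤ B v 1}.Infinite) :
    ∃ X' : ℕ → Finset E, (∀ n, KSet K (X' n)) ∧ ∃ b : ℕ → E, Function.Injective b ∧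
      (∀ i, b i ∈ pos X') ∧ ∃ R : ℝ, ∀ i, ‖b i‖ ≤ R := by
  classical
  let A : E ≃ᵃ[ℝ] E := AffineEquiv.constVAdd ℝ E (mk 0 2)
  have hA0 : ∀ v : E, A v 0 = v 0 := fun v => by simp [A]
  have hA1 : ∀ v : E, A v 1 = 2 + v 1 := fun v => by simp [A]
  have hAv : ∀ v : E, A v = mk 0 2 + v := fun v => rfl
  let C : Set E := {v | -1 < v 1}
  have hC : Convex ℝ C := by
    intro x hx y hy a b ha hb hab
    change -1 < (a • x + b • y) 1
    have hx' : -1 < x 1 := hx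
    have hy' : -1 < y 1 := hy
    simp only [PiLp.add_apply, PiLp.smul_apply, smul_eq_mul]
    rcases eq_or_lt_of_le ha with h0 | h0
    · have hb1 : b = 1 := by linarith
      rw [← h0, hb1]
      linarith
    · nlinarith
  let X' : ℕ → Finset E := fun n =>
    (((((X n).image B.toAffineEquiv).filter fun x => x ∈ C).image A).image pr)
  have hX' : ∀ n, KSet K (X' n) := by
    intro n
    refine KSet.pr (((hX n).affine B.toAffineEquiv).window hC |>.affine A) ?_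
    intro v hv
    obtain ⟨w, hw, rfl⟩ := Finset.mem_image.1 hv
    have h1 : -1 < w 1 := (Finset.mem_filter.1 hw).2
    rw [hA1]
    linarith
  let g : E → E := fun v => pr (A (B v))
  have hg0 : ∀ v, g v 0 = B v 0 / (2 + B v 1) := fun v => by simp only [g, pr, mk_zero, hA0, hA1]
  have hg1 : ∀ v, g v 1 = -(2 + B v 1)⁻¹ := fun v => by simp only [g, pr, mk_one, hA1]
  refine ⟨X', hX', fun i => g (hinf.natEmbedding _ i), ?_, ?_, 2, ?_⟩
  · intro i j hij
    have hi := (hinf.natEmbedding _ i).2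
    have hj := (hinf.natEmbedding _ j).2
    set v : E := (hinf.natEmbedding _ i : E) with hv
    set w : E := (hinf.natEmbedding _ j : E) with hw
    have hi1 : 0 ≤ B v 1 := (abs_nonneg _).trans hi.2
    have hj1 : 0 ≤ B w 1 := (abs_nonneg _).trans hj.2
    have e1 : g v 1 = g w 1 := by rw [show g v = g w from hij]
    have e0 : g v 0 = g w 0 := by rw [show g v = g w from hij]
    rw [hg1, hg1, neg_inj, inv_inj] at e1
    have e1' : B v 1 = B w 1 := by linarith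
    rw [hg0, hg0, e1'] at e0
    have hne : (2 + B w 1) ≠ 0 := by positivity
    have e0' : B v 0 = B w 0 := by
      field_simp at e0
      exact e0
    have hvw : v = w := B.injective (ext2 e0' e1')
    exact (hinf.natEmbedding _).injective (Subtype.ext hvw)
  · intro i
    have hi := (hinf.natEmbedding _ i).2
    set v : E := (hinf.natEmbedding _ i : E) with hv
    have hi1 : 0 ≤ B v 1 := (abs_nonneg _).trans hi.2
    obtain ⟨x, hx, hxv⟩ := exists_seq_of_mem (fun n => (X n).finite_toSet.isClosed) hi.1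
    have hBc : Continuous B := B.toLinearMap.continuous_of_finiteDimensional
    have h1 : Tendsto (fun n => B (x n)) UN (𝓝 (B v)) := (hBc.tendsto v).comp hxv
    have h2 : Tendsto (fun n => A (B (x n))) UN (𝓝 (A (B v))) := by
      simp only [hAv]
      exact h1.const_add _
    have h3 : Tendsto (fun n => g (x n)) UN (𝓝 (g v)) :=
      bd_tendsto_pr h2 (by rw [hA1]; positivity)
    refine mem_ulim_of_tendsto ?_ h3
    have h4 : Tendsto (fun n => B (x n) 1) UN (𝓝 (B v 1)) := ((bd_coord 1).tendsto _).comp h1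
    filter_upwards [hx, h4.eventually (lt_mem_nhds (show (-1 : ℝ) < B v 1 by linarith))] with n a1 a2
    rw [Finset.mem_coe]
    refine Finset.mem_image.2 ⟨A (B (x n)), Finset.mem_image.2 ⟨B (x n), ?_, rfl⟩, rfl⟩
    refine Finset.mem_filter.2 ⟨Finset.mem_image.2 ⟨x n, a1, rfl⟩, a2⟩
  · intro i
    have hi := (hinf.natEmbedding _ i).2
    set v : E := (hinf.natEmbedding _ i : E) with hv
    have hi1 : 0 ≤ B v 1 := (abs_nonneg _).trans hi.2
    have h1 := dist_le_abs (g v) 0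
    rw [dist_zero_right] at h1
    have h2 : |g v 0 - (0 : E) 0| ≤ 1 := by
      rw [hg0]
      simp only [PiLp.zero_apply, sub_zero]
      rw [abs_div, abs_of_pos (by positivity : (0 : ℝ) < 2 + B v 1), div_le_one (by positivity)]
      linarith [hi.2]
    have h3 : |g v 1 - (0 : E) 1| ≤ 1 := by
      rw [hg1]
      simp only [PiLp.zero_apply, sub_zero]
      rw [abs_neg, abs_of_pos (by positivity)]
      exact inv_le_one_of_one_le₀ (by linarith)
    linarith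

theorem bounded_inf {K : ℕ} {X : ℕ → Finset E} (hX : ∀ n, KSet K (X n))
    (hinf : (pos X).Infinite) :
    ∃ X' : ℕ → Finset E, (∀ n, KSet K (X' n)) ∧ ∃ b : ℕ → E, Function.Injective b ∧
      (∀ i, b i ∈ pos X') ∧ ∃ R : ℝ, ∀ i, ‖b i‖ ≤ R := by
  by_cases h1 : {v | v ∈ pos X ∧ |linE 1 0 0 1 (by norm_num) v 0| ≤
      linE 1 0 0 1 (by norm_num) v 1}.Infinite
  · exact bd_cone hX _ h1
  by_cases h2 : {v | v ∈ pos X ∧ |linE (-1) 0 0 (-1) (by norm_num) v 0| ≤
      linE (-1) 0 0 (-1) (by norm_num) v 1}.Infinite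
  · exact bd_cone hX _ h2
  by_cases h3 : {v | v ∈ pos X ∧ |linE 0 (-1) 1 0 (by norm_num) v 0| ≤
      linE 0 (-1) 1 0 (by norm_num) v 1}.Infinite
  · exact bd_cone hX _ h3
  by_cases h4 : {v | v ∈ pos X ∧ |linE 0 1 (-1) 0 (by norm_num) v 0| ≤
      linE 0 1 (-1) 0 (by norm_num) v 1}.Infinite
  · exact bd_cone hX _ h4
  exfalso
  rw [Set.not_infinite] at h1 h2 h3 h4
  apply hinf
  refine (((h1.union h2).union h3).union h4).subset ?_
  intro v hv
  simp only [Set.mem_union, Set.mem_ofPred_eq, linE_zero, linE_one]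
  rcases le_total (|v 0|) (|v 1|) with h | h
  · rcases le_total 0 (v 1) with h5 | h5
    · rw [abs_of_nonneg h5] at h
      left; left; left
      refine ⟨hv, ?_⟩
      simpa using h
    · rw [abs_of_nonpos h5] at h
      left; left; right
      refine ⟨hv, ?_⟩
      simpa using h
  · rcases le_total 0 (v 0) with h5 | h5
    · rw [abs_of_nonneg h5] at h
      left; right
      refine ⟨hv, ?_⟩
      simpa using h
    · rw [abs_of_nonpos h5] at h
      right
      refine ⟨hv, ?_⟩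
      simpa using h

end Pool.Agent.Lib.MP_8bcb9d_co
end

section

/-!
# Existence of minimal direction sets (Zorn)
-/

set_option autoImplicit false

namespace Pool.Agent.Lib.MP_8bcb9d_co

open Filter Topology

theorem Syn.ulim {ι : Type*} {U : Ultrafilter ι} {T : ι → Set E} {L : ℝ}
    (h : ∀ᶠ i in (U : Filter ι), Syn L (T i)) :
    Syn L (Pool.Agent.Lib.MP_8bcb9d_co.ulim U T) := by
  refine ⟨?_, ?_⟩
  · intro ε hε
    filter_upwards [h] with i hi
    exact ⟨0, hi.1, by simpa using hε⟩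
  · intro s hs
    have h1 : ∀ i, ∃ v : E, Syn L (T i) → (v ∈ T i ∧ s ≤ ‖v‖ ∧ ‖v‖ ≤ L * s) := by
      intro i
      by_cases hi : Syn L (T i)
      · obtain ⟨v, hv⟩ := hi.2 s hs
        exact ⟨v, fun _ => hv⟩
      · exact ⟨0, fun h' => absurd h' hi⟩
    choose x hx using h1
    obtain ⟨v, hv⟩ := exists_tendsto (U := U) (x := x) (R := L * s)
      (h.mono fun i hi => (hx i hi).2.2)
    refine ⟨v, mem_ulim_of_tendsto (h.mono fun i hi => (hx i hi).1) hv, ?_, ?_⟩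
    · exact ge_of_tendsto hv.norm (h.mono fun i hi => (hx i hi).2.1)
    · exact le_of_tendsto hv.norm (h.mono fun i hi => (hx i hi).2.2)

theorem dirs_ulim {ι : Type*} {U : Ultrafilter ι} {T : ι → Set E} {C : Set E}
    (hcl : ∀ i, IsClosed (T i)) (hC : IsClosed C)
    (h : ∀ᶠ i in (U : Filter ι), dirs (T i) ⊆ C) :
    dirs (Pool.Agent.Lib.MP_8bcb9d_co.ulim U T) ⊆ C := by
  refine closure_minimal ?_ hC
  rintro u ⟨v, hv, hv0, rfl⟩
  obtain ⟨x, hx, hxv⟩ := exists_seq_of_mem hcl hv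
  have h1 : ∀ᶠ i in (U : Filter ι), x i ≠ 0 := hxv.eventually_ne hv0
  have h2 : Tendsto (fun i => ‖x i‖⁻¹ • x i) U (𝓝 (‖v‖⁻¹ • v)) :=
    (hxv.norm.inv₀ (norm_ne_zero_iff.2 hv0)).smul hxv
  refine hC.mem_of_tendsto h2 ?_
  filter_upwards [hx, h1, h] with i a1 a2 a3
  exact a3 (subset_closure ⟨x i, a1, a2, rfl⟩)

theorem Syn.homo {T : Set E} {L s : ℝ} (h : Syn L T) (hs : 0 < s) :
    Syn L ((fun v => s • (v - 0)) '' T) := by
  refine ⟨⟨0, h.1, by simp⟩, ?_⟩
  intro r hr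
  obtain ⟨v, hv, h1, h2⟩ := h.2 (r / s) (div_pos hr hs)
  refine ⟨s • (v - 0), ⟨v, hv, rfl⟩, ?_, ?_⟩
  · rw [sub_zero, norm_smul, Real.norm_of_nonneg hs.le]
    calc r = s * (r / s) := by field_simp
      _ ≤ s * ‖v‖ := mul_le_mul_of_nonneg_left h1 hs.le
  · rw [sub_zero, norm_smul, Real.norm_of_nonneg hs.le]
    calc s * ‖v‖ ≤ s * (L * (r / s)) := mul_le_mul_of_nonneg_left h2 hs.le
      _ = L * r := by field_simp

theorem dirs_homo {T : Set E} {s : ℝ} (hs : 0 < s) :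
    dirs ((fun v => s • (v - 0)) '' T) = dirs T := by
  have key : ∀ v : E, v ≠ 0 → ‖s • v‖⁻¹ • (s • v) = ‖v‖⁻¹ • v := by
    intro v hv
    have hv' : ‖v‖ ≠ 0 := norm_ne_zero_iff.2 hv
    rw [norm_smul, Real.norm_of_nonneg hs.le, smul_smul]
    congr 1
    field_simp
  unfold dirs
  congr 1
  ext u
  constructor
  · rintro ⟨w, ⟨v, hv, rfl⟩, hw, rfl⟩
    simp only [sub_zero] at hw ⊢
    have hv0 : v ≠ 0 := fun h => hw (by rw [h, smul_zero])
    exact ⟨v, hv, hv0, key v hv0⟩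
  · rintro ⟨v, hv, hv0, rfl⟩
    refine ⟨s • (v - 0), ⟨v, hv, rfl⟩, ?_, ?_⟩
    · rw [sub_zero]
      exact smul_ne_zero hs.ne' hv0
    · rw [sub_zero]
      exact (key v hv0).symm

theorem exists_minDir {K : ℕ} {Φ : Finset E} {L : ℝ} {T : Set E} (hL : 1 ≤ L) (hT : Lim K Φ T)
    (hS : Syn L T) : ∃ D, MinDir K Φ L D := by
  classical
  have H : ∀ c ⊆ {D | ∃ T, Lim K Φ T ∧ Syn L T ∧ dirs T = D}, IsChain (· ⊆ ·) c → c.Nonempty →
      ∃ lb ∈ {D | ∃ T, Lim K Φ T ∧ Syn L T ∧ dirs T = D}, ∀ s ∈ c, lb ⊆ s := by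
    intro c hcS hc hne
    have h1 : ∀ D : c, ∃ T, Lim K Φ T ∧ Syn L T ∧ dirs T = D := fun D => hcS D.2
    choose τ h2 h3 h4 using h1
    -- the filter of tails
    have hne' : Nonempty c := hne.to_subtype
    have hbot : (⨅ D : c, 𝓟 {D' : c | (D' : Set E) ⊆ D}).NeBot := by
      apply Filter.iInf_neBot_of_directed
      · intro D₁ D₂
        rcases hc.total D₁.2 D₂.2 with h | h
        · refine ⟨D₁, le_refl _, ?_⟩
          exact Filter.principal_mono.2 fun D' hD' => Set.Subset.trans hD' h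
        · refine ⟨D₂, ?_, le_refl _⟩
          exact Filter.principal_mono.2 fun D' hD' => Set.Subset.trans hD' h
      · intro D
        exact Filter.principal_neBot_iff.2 ⟨D, Set.Subset.refl _⟩
    obtain ⟨U, hU⟩ := Ultrafilter.exists_le (⨅ D : c, 𝓟 {D' : c | (D' : Set E) ⊆ D})
    refine ⟨dirs (Pool.Agent.Lib.MP_8bcb9d_co.ulim U τ),
      ⟨_, Lim.ulim (Filter.Eventually.of_forall h2), Syn.ulim (Filter.Eventually.of_forall h3),
        rfl⟩, ?_⟩
    intro D hD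
    have hcl : IsClosed D := by
      have := h4 ⟨D, hD⟩
      simp only at this
      rw [← this]
      exact isClosed_closure
    refine dirs_ulim (fun i => (h2 i).1) hcl ?_
    have h5 : {D' : c | (D' : Set E) ⊆ D} ∈ (U : Filter c) :=
      hU (Filter.mem_iInf_of_mem ⟨D, hD⟩ (Filter.mem_principal_self _))
    filter_upwards [h5] with D' hD'
    rw [h4 D']
    exact hD'
  obtain ⟨D, hD⟩ := zorn_superset_nonempty _ H (dirs T) ⟨T, hT, hS, rfl⟩
  refine ⟨D, hD.2.prop, ?_⟩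
  intro T' h1 h2 h3
  exact h3.antisymm (hD.2.le_of_le ⟨T', h1, h2, rfl⟩ h3)

end Pool.Agent.Lib.MP_8bcb9d_co
end
end

section

/-!
# Part I: a limit set without points in the open quadrant at an upper point
-/

set_option autoImplicit false

namespace Pool.Agent.Lib.MP_8bcb9d_co

open Filter Topology

/-- the estimates for the far point `z` -/
private theorem nq_far {C z0 P0 P1 Z0 Z1 : ℝ} (hC : 2 ≤ C) (hz : 10 * C + 10 < z0)
    (hP0 : |P0| ≤ 1 / 8) (hP1 : |P1 - 1| ≤ 1 / 8) (hZ0 : z0 - 1 ≤ Z0)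
    (hZ1 : C * |Z1| ≤ z0 / 100 + C / 8) :
    z0 / 2 ≤ (Z0 - P0) - C * |Z1 - P1| ∧ |Z1 - P1| ≤ z0 / 20 := by
  have hP1' : |P1| ≤ 9 / 8 := by
    rw [abs_le] at hP1 ⊢
    constructor <;> linarith
  have h1 : |Z1 - P1| ≤ |Z1| + |P1| := abs_sub _ _
  have h2 : C * |Z1 - P1| ≤ z0 / 100 + 5 * C / 4 := by
    have h3 : C * |Z1 - P1| ≤ C * (|Z1| + 9 / 8) :=
      mul_le_mul_of_nonneg_left (by linarith) (by linarith)
    linarith
  have hP0' := (abs_le.1 hP0).2
  refine ⟨by linarith, ?_⟩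
  by_contra hcon
  push Not at hcon
  have h4 : C * (z0 / 20) ≤ C * |Z1 - P1| := mul_le_mul_of_nonneg_left hcon.le (by linarith)
  nlinarith

/-- a point of the triangle above `p` lies on the segment `p q` -/
private theorem nq_c1 {C z0 P0 P1 Q0 Q1 Z0 Z1 W0 W1 b c : ℝ} (hz0 : 0 < z0)
    (hs : P1 < Q1) (hr : -C * (Q1 - P1) ≤ Q0 - P0)
    (hB : z0 / 2 ≤ (Z0 - P0) - C * |Z1 - P1|) (hZ1 : Z1 < P1) (hc : 0 ≤ c)
    (hW0 : W0 - P0 = b * (Q0 - P0) + c * (Z0 - P0))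
    (hW1 : W1 - P1 = b * (Q1 - P1) + c * (Z1 - P1))
    (hE : (W0 - P0) * (Q1 - P1) ≤ (Q0 - P0) * (W1 - P1)) : c = 0 := by
  have h1 : c * ((Q1 - P1) * (Z0 - P0) - (Q0 - P0) * (Z1 - P1)) ≤ 0 := by
    rw [hW0, hW1] at hE
    nlinarith
  have habs : |Z1 - P1| = P1 - Z1 := by
    rw [abs_of_neg (by linarith)]
    ring
  rw [habs] at hB
  have h2 : 0 < (Q1 - P1) * (Z0 - P0) - (Q0 - P0) * (Z1 - P1) := by
    have h3 : (Q1 - P1) * (z0 / 2) ≤ (Q1 - P1) * ((Z0 - P0) - C * (P1 - Z1)) :=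
      mul_le_mul_of_nonneg_left hB (by linarith)
    have h4 : -C * (Q1 - P1) * (P1 - Z1) ≤ (Q0 - P0) * (P1 - Z1) :=
      mul_le_mul_of_nonneg_right hr (by linarith)
    have h5 : 0 < (Q1 - P1) * (z0 / 2) := mul_pos (by linarith) (by linarith)
    nlinarith
  rcases hc.eq_or_lt with h | h
  · exact h.symm
  · exact absurd h1 (not_le.2 (mul_pos h h2))

/-- a point of the triangle not above `p` lies right of `p` in a thin cone -/
private theorem nq_c2 {C z0 P0 P1 Q0 Q1 Z0 Z1 W0 W1 b c : ℝ} (hC : 0 ≤ C) (_hz0 : 0 < z0)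
    (hs : P1 < Q1) (hr : -C * (Q1 - P1) ≤ Q0 - P0)
    (hB : z0 / 2 ≤ (Z0 - P0) - C * |Z1 - P1|) (hB' : |Z1 - P1| ≤ z0 / 20) (hZ1 : Z1 < P1)
    (hb : 0 ≤ b) (hc : 0 ≤ c)
    (hW0 : W0 - P0 = b * (Q0 - P0) + c * (Z0 - P0))
    (hW1 : W1 - P1 = b * (Q1 - P1) + c * (Z1 - P1)) (hne : ¬ (b = 0 ∧ c = 0))
    (hle : W1 ≤ P1) : 0 < W0 - P0 ∧ |W1 - P1| ≤ (W0 - P0) / 10 := by
  have habs : |Z1 - P1| = P1 - Z1 := by
    rw [abs_of_neg (by linarith)]
    ring
  rw [habs] at hB hB'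
  have hs' : 0 < Q1 - P1 := by linarith
  have h1 : b * (Q1 - P1) ≤ c * (P1 - Z1) := by nlinarith
  have hcpos : 0 < c := by
    rcases hc.eq_or_lt with h | h
    · exfalso
      rw [← h] at h1
      have h2 : b * (Q1 - P1) ≤ 0 := by linarith
      have h3 : b ≤ 0 := by
        by_contra h4
        push Not at h4
        exact absurd h2 (not_le.2 (mul_pos h4 hs'))
      exact hne ⟨le_antisymm h3 hb, h.symm⟩
    · exact h
  have h2 : b * (-C * (Q1 - P1)) ≤ b * (Q0 - P0) := mul_le_mul_of_nonneg_left hr hb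
  have h3 : C * (b * (Q1 - P1)) ≤ C * (c * (P1 - Z1)) := mul_le_mul_of_nonneg_left h1 hC
  have h4 : c * (z0 / 2) ≤ c * ((Z0 - P0) - C * (P1 - Z1)) :=
    mul_le_mul_of_nonneg_left hB hcpos.le
  have h5 : c * (z0 / 2) ≤ W0 - P0 := by nlinarith
  have h6 : 0 < c * (z0 / 2) := mul_pos hcpos (by linarith)
  refine ⟨by linarith, ?_⟩
  have h7 : |W1 - P1| = P1 - W1 := by
    rw [abs_of_nonpos (by linarith)]
    ring
  rw [h7]
  have h8 : c * (P1 - Z1) ≤ c * (z0 / 20) := mul_le_mul_of_nonneg_left hB' hcpos.le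
  have h9 : P1 - W1 ≤ c * (P1 - Z1) := by nlinarith [mul_nonneg hb hs'.le]
  linarith

/-- coordinates of a convergent sequence -/
private theorem nq_t0 {x : ℕ → E} {v : E} (h : Tendsto x UN (𝓝 v)) :
    Tendsto (fun n => x n 0) UN (𝓝 (v 0)) := by
  have h1 : Continuous (fun v : E => v 0) := by fun_prop
  exact (h1.tendsto v).comp h

private theorem nq_t1 {x : ℕ → E} {v : E} (h : Tendsto x UN (𝓝 v)) :
    Tendsto (fun n => x n 1) UN (𝓝 (v 1)) := by
  have h1 : Continuous (fun v : E => v 1) := by fun_prop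
  exact (h1.tendsto v).comp h

private theorem nq_ev {x : ℕ → ℝ} {v : ℝ} (h : Tendsto x UN (𝓝 v)) {ε : ℝ} (hε : 0 < ε) :
    ∀ᶠ n in (UN : Filter ℕ), |x n - v| ≤ ε := by
  rw [Metric.tendsto_nhds] at h
  filter_upwards [h ε hε] with n hn
  rw [Real.dist_eq] at hn
  exact hn.le

private theorem nq_ne {x y : ℕ → E} {v w : E} (hx : Tendsto x UN (𝓝 v))
    (hy : Tendsto y UN (𝓝 w)) (h : v ≠ w) : ∀ᶠ n in (UN : Filter ℕ), x n ≠ y n := by
  filter_upwards [(hx.sub hy).eventually_ne (sub_ne_zero.2 h)] with n hn h'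
  exact hn (sub_eq_zero.2 h')

private theorem nq_norm (v : E) : ‖v‖ ≤ |v 0| + |v 1| := by
  have h := dist_le_abs v 0
  simpa using h

/-- the maximiser of a function on a finite set given by a predicate -/
private theorem nq_argmax (X : ℕ → Finset E) (S : ℕ → E → Prop) (f : ℕ → E → ℝ)
    (hne : ∀ᶠ n in (UN : Filter ℕ), ∃ v ∈ X n, S n v) :
    ∃ p : ℕ → E, ∀ᶠ n in (UN : Filter ℕ), p n ∈ X n ∧ S n (p n) ∧
      ∀ v ∈ X n, S n v → f n v ≤ f n (p n) := by
  classical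
  have h1 : ∀ n, ∃ p : E, (∃ v ∈ X n, S n v) → (p ∈ X n ∧ S n p ∧
      ∀ v ∈ X n, S n v → f n v ≤ f n p) := by
    intro n
    by_cases h : ∃ v ∈ X n, S n v
    · obtain ⟨v, hv, hSv⟩ := h
      obtain ⟨p, hp, hmax⟩ := ((X n).filter (S n)).exists_max_image (f n)
        ⟨v, Finset.mem_filter.2 ⟨hv, hSv⟩⟩
      rw [Finset.mem_filter] at hp
      exact ⟨p, fun _ => ⟨hp.1, hp.2, fun w hw hSw => hmax w (Finset.mem_filter.2 ⟨hw, hSw⟩)⟩⟩
    · exact ⟨0, fun h' => absurd h' h⟩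
  choose p hp using h1
  refine ⟨p, ?_⟩
  filter_upwards [hne] with n hn
  exact hp n hn

section main

variable {K : ℕ} {Φ : Finset E} {T : Set E} {X : ℕ → Finset E}

/-- step (a) -/
private theorem nq_p (hX : SeqTo K Φ T X) (h1 : mk 0 1 ∈ T)
    (h2 : ∀ v ∈ T, ¬ (0 < v 0 ∧ 0 < v 1)) :
    ∃ p : ℕ → E, Tendsto p UN (𝓝 (mk 0 1)) ∧ ∀ᶠ n in (UN : Filter ℕ), p n ∈ X n ∧
      ∀ v ∈ X n, dist v (mk 0 1) ≤ 1 / 2 →
        v 0 - dist v (mk 0 1) ^ 2 ≤ p n 0 - dist (p n) (mk 0 1) ^ 2 := by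
  obtain ⟨x, hx, hxt⟩ := hX.exists_seq h1
  have hxd : ∀ᶠ n in (UN : Filter ℕ), dist (x n) (mk 0 1) ≤ 1 / 2 := by
    rw [Metric.tendsto_nhds] at hxt
    filter_upwards [hxt (1 / 2) (by norm_num)] with n hn
    exact hn.le
  obtain ⟨p, hp⟩ := nq_argmax X (fun _ v => dist v (mk 0 1) ≤ 1 / 2)
    (fun _ v => v 0 - dist v (mk 0 1) ^ 2) (by
      filter_upwards [hx, hxd] with n a b
      exact ⟨x n, a, b⟩)
  have hpX : ∀ᶠ n in (UN : Filter ℕ), p n ∈ X n := hp.mono fun n h => h.1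
  have hpd : ∀ᶠ n in (UN : Filter ℕ), dist (p n) (mk 0 1) ≤ 1 / 2 := hp.mono fun n h => h.2.1
  obtain ⟨p', hp'T, hp't⟩ := hX.exists_lim (R := ‖(mk 0 1 : E)‖ + 1 / 2) hpX (by
    filter_upwards [hpd] with n hn
    have h3 := norm_le_norm_add_norm_sub' (p n) (mk 0 1)
    rw [← dist_eq_norm] at h3
    linarith)
  have hdlim : Tendsto (fun n => dist (p n) (mk 0 1)) UN (𝓝 (dist p' (mk 0 1))) :=
    hp't.dist tendsto_const_nhds
  have hd' : dist p' (mk 0 1) ≤ 1 / 2 := le_of_tendsto hdlim hpd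
  have hglim : Tendsto (fun n => p n 0 - dist (p n) (mk 0 1) ^ 2) UN
      (𝓝 (p' 0 - dist p' (mk 0 1) ^ 2)) := (nq_t0 hp't).sub (hdlim.pow 2)
  have hglim' : Tendsto (fun n => x n 0 - dist (x n) (mk 0 1) ^ 2) UN
      (𝓝 ((mk 0 1 : E) 0 - dist (mk 0 1 : E) (mk 0 1) ^ 2)) :=
    (nq_t0 hxt).sub ((hxt.dist tendsto_const_nhds).pow 2)
  have hge : (mk 0 1 : E) 0 - dist (mk 0 1 : E) (mk 0 1) ^ 2 ≤ p' 0 - dist p' (mk 0 1) ^ 2 := by
    refine le_of_tendsto_of_tendsto hglim' hglim ?_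
    filter_upwards [hp, hx, hxd] with n a b c
    exact a.2.2 _ b c
  simp only [mk_zero, dist_self] at hge
  have h3 := abs_sub_one_le p' (mk 0 1)
  rw [mk_one] at h3
  have h4 : 0 < p' 1 := by
    have := (abs_le.1 (h3.trans hd')).1
    linarith
  have h5 : p' 0 ≤ 0 := by
    by_contra hcon
    push Not at hcon
    exact h2 p' hp'T ⟨hcon, h4⟩
  have h6 : dist p' (mk 0 1) ^ 2 ≤ 0 := by linarith
  have h7 : dist p' (mk 0 1) = 0 := by
    have h8 := sq_nonneg (dist p' (mk 0 1))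
    exact pow_eq_zero_iff (two_ne_zero) |>.1 (le_antisymm h6 h8)
  rw [dist_eq_zero] at h7
  rw [h7] at hp't
  exact ⟨p, hp't, hp.mono fun n h => ⟨h.1, h.2.2⟩⟩

/-- step (b) -/
private theorem nq_q (hX : SeqTo K Φ T X) (h2 : ∀ v ∈ T, ¬ (0 < v 0 ∧ 0 < v 1))
    {q0 : E} (hq0 : q0 ∈ T) (hq01 : 2 ≤ q0 1) {p : ℕ → E} (hp : Tendsto p UN (𝓝 (mk 0 1))) :
    ∃ (q : ℕ → E) (q' : E), q' 0 ≤ 0 ∧ 1 ≤ q' 1 ∧ Tendsto q UN (𝓝 q') ∧
      ∀ᶠ n in (UN : Filter ℕ), q n ∈ X n ∧ p n 1 < q n 1 ∧ q n 1 ≤ q0 1 + 1 ∧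
        -(2 * |q0 0| + 2) * (q n 1 - p n 1) ≤ q n 0 - p n 0 ∧
        ∀ v ∈ X n, p n 1 < v 1 → v 1 ≤ q0 1 + 1 → v 0 ≤ 1 →
          (v 0 - p n 0) * (q n 1 - p n 1) ≤ (q n 0 - p n 0) * (v 1 - p n 1) := by
  have hq00 : q0 0 ≤ 0 := by
    by_contra hcon
    push Not at hcon
    exact h2 q0 hq0 ⟨hcon, by linarith⟩
  have habs : |q0 0| = -q0 0 := abs_of_nonpos hq00
  obtain ⟨x, hx, hxt⟩ := hX.exists_seq hq0
  have hx0 := nq_ev (nq_t0 hxt) (ε := 1 / 8) (by norm_num)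
  have hx1 := nq_ev (nq_t1 hxt) (ε := 1 / 8) (by norm_num)
  have hp0 := nq_ev (nq_t0 hp) (ε := 1 / 8) (by norm_num)
  have hp1 := nq_ev (nq_t1 hp) (ε := 1 / 8) (by norm_num)
  simp only [mk_zero, mk_one, sub_zero] at hp0 hp1
  obtain ⟨q, hq⟩ := nq_argmax X (fun n v => p n 1 < v 1 ∧ v 1 ≤ q0 1 + 1 ∧ v 0 ≤ 1)
    (fun n v => (v 0 - p n 0) / (v 1 - p n 1)) (by
      filter_upwards [hx, hx0, hx1, hp1] with n a b c d
      rw [abs_le] at b c d
      exact ⟨x n, a, by linarith, by linarith, by linarith⟩)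
  have hall : ∀ᶠ n in (UN : Filter ℕ), q n ∈ X n ∧ p n 1 < q n 1 ∧ q n 1 ≤ q0 1 + 1 ∧
      q n 0 ≤ 1 ∧ -(2 * |q0 0| + 2) * (q n 1 - p n 1) ≤ q n 0 - p n 0 ∧
        ∀ v ∈ X n, p n 1 < v 1 → v 1 ≤ q0 1 + 1 → v 0 ≤ 1 →
          (v 0 - p n 0) * (q n 1 - p n 1) ≤ (q n 0 - p n 0) * (v 1 - p n 1) := by
    filter_upwards [hq, hx, hx0, hx1, hp0, hp1] with n a b c d e f
    obtain ⟨a1, ⟨a2, a3, a4⟩, a5⟩ := a
    rw [abs_le] at c d e f
    have hs : 0 < q n 1 - p n 1 := by linarith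
    refine ⟨a1, a2, a3, a4, ?_, ?_⟩
    · have g1 := a5 (x n) b ⟨by linarith, by linarith, by linarith⟩
      have g2 : -(2 * |q0 0| + 2) ≤ (x n 0 - p n 0) / (x n 1 - p n 1) := by
        rw [le_div_iff₀ (by linarith)]
        rw [habs]
        nlinarith
      have g3 := g2.trans g1
      rwa [le_div_iff₀ hs] at g3
    · intro v hv g1 g2 g3
      have g4 := a5 v hv ⟨g1, g2, g3⟩
      rwa [div_le_div_iff₀ (by linarith) hs] at g4
  obtain ⟨q', hq'T, hq't⟩ := hX.exists_lim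
    (R := (1 + (2 * |q0 0| + 2) * (q0 1 + 2)) + (q0 1 + 1)) (hall.mono fun n h => h.1) (by
      filter_upwards [hall, hp0, hp1] with n a b c
      obtain ⟨a1, a2, a3, a4, a5, -⟩ := a
      rw [abs_le] at b c
      have g1 := nq_norm (q n)
      have g2 : |q n 0| ≤ 1 + (2 * |q0 0| + 2) * (q0 1 + 2) := by
        have hD : 0 ≤ 2 * |q0 0| + 2 := by positivity
        have g3 : (2 * |q0 0| + 2) * (q n 1 - p n 1) ≤ (2 * |q0 0| + 2) * (q0 1 + 2) :=
          mul_le_mul_of_nonneg_left (by linarith) hD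
        have g4 : 0 ≤ (2 * |q0 0| + 2) * (q0 1 + 2) := mul_nonneg hD (by linarith)
        rw [abs_le]
        constructor <;> linarith
      have g5 : |q n 1| ≤ q0 1 + 1 := by
        rw [abs_le]
        constructor <;> linarith
      linarith)
  have hq'1 : 1 ≤ q' 1 := by
    have g1 := nq_t1 hp
    rw [mk_one] at g1
    refine le_of_tendsto_of_tendsto g1 (nq_t1 hq't) ?_
    filter_upwards [hall] with n a
    exact a.2.1.le
  have hq'0 : q' 0 ≤ 0 := by
    by_contra hcon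
    push Not at hcon
    exact h2 q' hq'T ⟨hcon, by linarith⟩
  exact ⟨q, q', hq'0, hq'1, hq't, hall.mono fun n h =>
    ⟨h.1, h.2.1, h.2.2.1, h.2.2.2.2.1, h.2.2.2.2.2⟩⟩

/-- coordinates of a point of a triangle -/
private theorem nq_comb {P Q Z W : E} {a b c : ℝ} (h : a + b + c = 1)
    (hW : W = a • P + b • Q + c • Z) (i : Fin 2) :
    W i - P i = b * (Q i - P i) + c * (Z i - P i) := by
  have ha : a = 1 - b - c := by linarith
  subst hW ha
  simp only [PiLp.add_apply, PiLp.smul_apply, smul_eq_mul]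
  ring

/-- points of the triangles are bounded -/
private theorem nq_bdd {p q z : ℕ → E} {p' q' z' : E} (hp : Tendsto p UN (𝓝 p'))
    (hq : Tendsto q UN (𝓝 q')) (hz : Tendsto z UN (𝓝 z')) {w : ℕ → E}
    (hw : ∀ᶠ n in (UN : Filter ℕ), w n ∈ convexHull ℝ ({p n, q n, z n} : Set E)) :
    ∃ R : ℝ, ∀ᶠ n in (UN : Filter ℕ), ‖w n‖ ≤ R := by
  have h1 : ∀ {x : ℕ → E} {x' : E}, Tendsto x UN (𝓝 x') →
      ∀ᶠ n in (UN : Filter ℕ), ‖x n‖ ≤ ‖x'‖ + 1 := by
    intro x x' hx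
    have h2 := hx.norm
    filter_upwards [h2.eventually_lt_const (show ‖x'‖ < ‖x'‖ + 1 by linarith)] with n hn
    exact hn.le
  refine ⟨(‖p'‖ + 1) + (‖q'‖ + 1) + (‖z'‖ + 1), ?_⟩
  filter_upwards [h1 hp, h1 hq, h1 hz, hw] with n a1 a2 a3 a4
  obtain ⟨a, b, c, ha, hb, hc, habc, hW⟩ := mem_triangle a4
  rw [hW]
  have ha1 : a ≤ 1 := by linarith
  have hb1 : b ≤ 1 := by linarith
  have hc1 : c ≤ 1 := by linarith
  have b1 : ‖a • p n‖ ≤ ‖p'‖ + 1 := by
    rw [norm_smul, Real.norm_of_nonneg ha]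
    exact (mul_le_of_le_one_left (norm_nonneg _) ha1).trans a1
  have b2 : ‖b • q n‖ ≤ ‖q'‖ + 1 := by
    rw [norm_smul, Real.norm_of_nonneg hb]
    exact (mul_le_of_le_one_left (norm_nonneg _) hb1).trans a2
  have b3 : ‖c • z n‖ ≤ ‖z'‖ + 1 := by
    rw [norm_smul, Real.norm_of_nonneg hc]
    exact (mul_le_of_le_one_left (norm_nonneg _) hc1).trans a3
  have b4 := norm_add_le (a • p n + b • q n) (c • z n)
  have b5 := norm_add_le (a • p n) (b • q n)
  linarith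

/-- step (c) -/
private theorem nq_claim (hX : SeqTo K Φ T X) (h2 : ∀ v ∈ T, ¬ (0 < v 0 ∧ 0 < v 1))
    {p q : ℕ → E} {q' : E} {C Y0 : ℝ} (hC : 2 ≤ C) (hp : Tendsto p UN (𝓝 (mk 0 1)))
    (hpX : ∀ᶠ n in (UN : Filter ℕ), p n ∈ X n ∧ ∀ v ∈ X n, dist v (mk 0 1) ≤ 1 / 2 →
        v 0 - dist v (mk 0 1) ^ 2 ≤ p n 0 - dist (p n) (mk 0 1) ^ 2)
    (hq : Tendsto q UN (𝓝 q'))
    (hqX : ∀ᶠ n in (UN : Filter ℕ), q n ∈ X n ∧ p n 1 < q n 1 ∧ q n 1 ≤ Y0 ∧
        -C * (q n 1 - p n 1) ≤ q n 0 - p n 0 ∧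
        ∀ v ∈ X n, p n 1 < v 1 → v 1 ≤ Y0 → v 0 ≤ 1 →
          (v 0 - p n 0) * (q n 1 - p n 1) ≤ (q n 0 - p n 0) * (v 1 - p n 1))
    {z : ℕ → E} {z' : E} (hz : Tendsto z UN (𝓝 z'))
    (hz0 : 10 * C + 10 < z' 0) (hz1 : C * |z' 1| ≤ z' 0 / 100) (hz1' : z' 1 ≤ 0)
    (hzX : ∀ᶠ n in (UN : Filter ℕ), z n ∈ X n) :
    ∀ᶠ n in (UN : Filter ℕ), ∀ w ∈ X n, w ∈ convexHull ℝ ({p n, q n, z n} : Set E) →
      w ≠ p n → w ≠ q n → 1 / 2 < w 0 := by
  by_contra hcon
  rw [← Ultrafilter.eventually_not] at hcon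
  have hex : ∀ n, ∃ w : E, (¬ ∀ w ∈ X n, w ∈ convexHull ℝ ({p n, q n, z n} : Set E) →
      w ≠ p n → w ≠ q n → 1 / 2 < w 0) → (w ∈ X n ∧
      w ∈ convexHull ℝ ({p n, q n, z n} : Set E) ∧ w ≠ p n ∧ w ≠ q n ∧ w 0 ≤ 1 / 2) := by
    intro n
    by_cases h : ∀ w ∈ X n, w ∈ convexHull ℝ ({p n, q n, z n} : Set E) →
      w ≠ p n → w ≠ q n → 1 / 2 < w 0
    · exact ⟨0, fun h' => absurd h h'⟩
    · push Not at h
      obtain ⟨w, a1, a2, a3, a4, a5⟩ := h
      exact ⟨w, fun _ => ⟨a1, a2, a3, a4, a5⟩⟩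
  choose w hw using hex
  have hw' : ∀ᶠ n in (UN : Filter ℕ), w n ∈ X n ∧
      w n ∈ convexHull ℝ ({p n, q n, z n} : Set E) ∧ w n ≠ p n ∧ w n ≠ q n ∧ w n 0 ≤ 1 / 2 :=
    hcon.mono fun n h => hw n h
  have hp0 := nq_ev (nq_t0 hp) (ε := 1 / 8) (by norm_num)
  have hp1 := nq_ev (nq_t1 hp) (ε := 1 / 8) (by norm_num)
  have hzn0 := nq_ev (nq_t0 hz) (ε := 1) (by norm_num)
  have hzn1 := nq_ev (nq_t1 hz) (ε := 1 / 8) (by norm_num)
  simp only [mk_zero, mk_one, sub_zero] at hp0 hp1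
  have key : ∀ᶠ n in (UN : Filter ℕ), 0 < w n 0 - p n 0 ∧
      |w n 1 - p n 1| ≤ (w n 0 - p n 0) / 10 := by
    filter_upwards [hw', hp0, hp1, hzn0, hzn1, hpX, hqX, hzX] with n a b c d e f g h
    obtain ⟨a1, a2, a3, a4, a5⟩ := a
    obtain ⟨g1, g2, g3, g4, g5⟩ := g
    obtain ⟨x, y, t, hx, hy, ht, hxyt, hW⟩ := mem_triangle a2
    have hd := (abs_le.1 d).1
    have hzabs : C * |z n 1| ≤ z' 0 / 100 + C / 8 := by
      have h3 : |z n 1| ≤ |z' 1| + 1 / 8 := by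
        have h4 := abs_sub_abs_le_abs_sub (z n 1) (z' 1)
        linarith
      have h5 : C * |z n 1| ≤ C * (|z' 1| + 1 / 8) :=
        mul_le_mul_of_nonneg_left h3 (by linarith)
      linarith
    obtain ⟨f1, f2⟩ := nq_far hC hz0 b c (by linarith : z' 0 - 1 ≤ z n 0) hzabs
    have hzp : z n 1 < p n 1 := by
      have e1 := (abs_le.1 e).2
      have c1 := (abs_le.1 c).1
      linarith
    have w0 := nq_comb hxyt hW 0
    have w1 := nq_comb hxyt hW 1
    rcases lt_or_ge (p n 1) (w n 1) with hlt | hge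
    · exfalso
      have hy1 : y ≤ 1 := by linarith
      have h6 : w n 1 ≤ Y0 := by
        have h7 : y * (q n 1 - p n 1) ≤ 1 * (q n 1 - p n 1) :=
          mul_le_mul_of_nonneg_right hy1 (by linarith)
        have h8 : t * (z n 1 - p n 1) ≤ 0 := mul_nonpos_of_nonneg_of_nonpos ht (by linarith)
        linarith
      have ht0 := nq_c1 (by linarith : 0 < z' 0) g2 g4 f1 hzp ht w0 w1
        (g5 _ a1 hlt h6 (by linarith))
      have hpq : p n ≠ q n := by
        intro h9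
        rw [h9] at g2
        exact lt_irrefl _ g2
      have h10 := (cr_comb hxyt hW).1
      rw [ht0, zero_mul] at h10
      exact cr_ne_zero (hX.kset n).gp f.1 g1 a1 hpq a3 a4 h10
    · refine nq_c2 (by linarith : 0 ≤ C) (by linarith : 0 < z' 0) g2 g4 f1 f2 hzp hy ht w0 w1
        ?_ hge
      rintro ⟨rfl, rfl⟩
      apply a3
      have hx1 : x = 1 := by linarith
      rw [hW, hx1]
      simp
  obtain ⟨R, hR⟩ := nq_bdd hp hq hz (hw'.mono fun n h => h.2.1)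
  obtain ⟨w', hw'T, hwt⟩ := hX.exists_lim (hw'.mono fun n h => h.1) hR
  have t0 : Tendsto (fun n => w n 0 - p n 0) UN (𝓝 (w' 0)) := by
    have := (nq_t0 hwt).sub (nq_t0 hp)
    simpa using this
  have t1 : Tendsto (fun n => |w n 1 - p n 1|) UN (𝓝 (|w' 1 - 1|)) := by
    have := ((nq_t1 hwt).sub (nq_t1 hp)).abs
    simpa using this
  have b1 : 0 ≤ w' 0 := ge_of_tendsto t0 (key.mono fun n h => h.1.le)
  have b2 : |w' 1 - 1| ≤ w' 0 / 10 :=
    le_of_tendsto_of_tendsto t1 (t0.div_const 10) (key.mono fun n h => h.2)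
  have b3 : w' 0 ≤ 1 / 2 := le_of_tendsto (nq_t0 hwt) (hw'.mono fun n h => h.2.2.2.2)
  have b4 : 0 < w' 1 := by
    have := (abs_le.1 b2).1
    linarith
  have b5 : w' 0 = 0 := by
    refine le_antisymm ?_ b1
    by_contra hc
    push Not at hc
    exact h2 w' hw'T ⟨hc, b4⟩
  have b6 : w' = mk 0 1 := by
    apply ext2
    · rw [mk_zero, b5]
    · rw [b5, zero_div] at b2
      have := abs_nonpos_iff.1 b2
      rw [mk_one]
      linarith
  rw [b6] at hwt
  have dw : ∀ᶠ n in (UN : Filter ℕ), dist (w n) (mk 0 1) ≤ 1 / 8 := by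
    rw [Metric.tendsto_nhds] at hwt
    exact (hwt (1 / 8) (by norm_num)).mono fun n h => h.le
  have dp : ∀ᶠ n in (UN : Filter ℕ), dist (p n) (mk 0 1) ≤ 1 / 8 := by
    rw [Metric.tendsto_nhds] at hp
    exact (hp (1 / 8) (by norm_num)).mono fun n h => h.le
  obtain ⟨n, ⟨⟨⟨c1, c2⟩, c3⟩, c4⟩, c5⟩ :=
    ((((key.and hw').and dw).and dp).and hpX).exists
  have c6 := c5.2 (w n) c2.1 (by linarith)
  have c7 := dist_triangle (w n) (p n) (mk 0 1)
  have c8 := dist_le_abs (w n) (p n)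
  rw [abs_of_pos c1.1] at c8
  have c9 : dist (w n) (p n) ≤ 11 / 10 * (w n 0 - p n 0) := by linarith [c1.2]
  have d1 : dist (w n) (mk 0 1) ^ 2 - dist (p n) (mk 0 1) ^ 2 ≤
      dist (w n) (p n) * (dist (w n) (mk 0 1) + dist (p n) (mk 0 1)) := by
    have e1 : 0 ≤ dist (w n) (mk 0 1) + dist (p n) (mk 0 1) := by positivity
    nlinarith
  have d2 : dist (w n) (p n) * (dist (w n) (mk 0 1) + dist (p n) (mk 0 1)) ≤
      dist (w n) (p n) * (1 / 4) :=
    mul_le_mul_of_nonneg_left (by linarith) dist_nonneg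
  linarith [c1.1]

/-- step (d) -/
private theorem nq_package (hX : SeqTo K Φ T X) (h2 : ∀ v ∈ T, ¬ (0 < v 0 ∧ 0 < v 1))
    (h3 : ∀ R : ℝ, ∀ ε > 0, ∃ z ∈ T, R < z 0 ∧ |z 1| ≤ ε * z 0)
    {p q : ℕ → E} {q' : E} {C Y0 : ℝ} (hC : 2 ≤ C) (hp : Tendsto p UN (𝓝 (mk 0 1)))
    (hpX : ∀ᶠ n in (UN : Filter ℕ), p n ∈ X n ∧ ∀ v ∈ X n, dist v (mk 0 1) ≤ 1 / 2 →
        v 0 - dist v (mk 0 1) ^ 2 ≤ p n 0 - dist (p n) (mk 0 1) ^ 2)
    (hq : Tendsto q UN (𝓝 q')) (hq'0 : q' 0 ≤ 0)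
    (hqX : ∀ᶠ n in (UN : Filter ℕ), q n ∈ X n ∧ p n 1 < q n 1 ∧ q n 1 ≤ Y0 ∧
        -C * (q n 1 - p n 1) ≤ q n 0 - p n 0 ∧
        ∀ v ∈ X n, p n 1 < v 1 → v 1 ≤ Y0 → v 0 ≤ 1 →
          (v 0 - p n 0) * (q n 1 - p n 1) ≤ (q n 0 - p n 0) * (v 1 - p n 1)) (R : ℝ) :
    ∃ (w : ℕ → E) (w' : E), (∀ᶠ n in (UN : Filter ℕ), w n ∈ Deg (X n) (p n) (q n)) ∧
      Tendsto w UN (𝓝 w') ∧ R < w' 0 := by
  set B : ℝ := |q' 0| + 1 with hB
  have hB1 : 1 ≤ B := by
    have := abs_nonneg (q' 0)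
    linarith
  set R' : ℝ := |R| + B + 1 with hR'
  have hR'1 : 1 ≤ R' := by
    have := abs_nonneg R
    linarith
  have hC0 : 0 < C := by linarith
  have hε : 0 < min (1 / (100 * C)) (1 / (2 * R')) := by positivity
  obtain ⟨z', hz'T, hz'0, hz'1⟩ := h3 (max (10 * C + 10) (2 * R')) _ hε
  have hza : 10 * C + 10 < z' 0 := (le_max_left _ _).trans_lt hz'0
  have hzb : 2 * R' < z' 0 := (le_max_right _ _).trans_lt hz'0
  have hz0pos : 0 < z' 0 := by linarith
  have hz1' : z' 1 ≤ 0 := by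
    by_contra hcon
    push Not at hcon
    exact h2 z' hz'T ⟨hz0pos, hcon⟩
  have hzc : C * |z' 1| ≤ z' 0 / 100 := by
    have e1 : |z' 1| ≤ 1 / (100 * C) * z' 0 :=
      hz'1.trans (mul_le_mul_of_nonneg_right (min_le_left _ _) hz0pos.le)
    calc C * |z' 1| ≤ C * (1 / (100 * C) * z' 0) := mul_le_mul_of_nonneg_left e1 hC0.le
      _ = z' 0 / 100 := by field_simp
  have hzd : R' * |z' 1| ≤ z' 0 / 2 := by
    have e1 : |z' 1| ≤ 1 / (2 * R') * z' 0 :=
      hz'1.trans (mul_le_mul_of_nonneg_right (min_le_right _ _) hz0pos.le)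
    calc R' * |z' 1| ≤ R' * (1 / (2 * R') * z' 0) :=
          mul_le_mul_of_nonneg_left e1 (by linarith)
      _ = z' 0 / 2 := by
        have : R' ≠ 0 := by linarith
        field_simp
  obtain ⟨z, hzX, hzt⟩ := hX.exists_seq hz'T
  have hpq : ∀ᶠ n in (UN : Filter ℕ), p n ≠ q n := by
    filter_upwards [hqX] with n a h
    rw [h] at a
    exact lt_irrefl _ a.2.1
  have hzp : ∀ᶠ n in (UN : Filter ℕ), z n ≠ p n := by
    refine nq_ne hzt hp ?_
    intro h
    rw [h, mk_zero] at hz0pos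
    exact lt_irrefl _ hz0pos
  have hzq : ∀ᶠ n in (UN : Filter ℕ), z n ≠ q n := by
    refine nq_ne hzt hq ?_
    intro h
    rw [h] at hz0pos
    linarith
  obtain ⟨w, hw⟩ := exists_partners hX.kset (hpX.mono fun n h => h.1)
    (hqX.mono fun n h => h.1) hzX hpq hzp hzq
  have hcl := nq_claim hX h2 hC hp hpX hq hqX hzt hza hzc hz1' hzX
  have hw0 : ∀ᶠ n in (UN : Filter ℕ), 1 / 2 < w n 0 := by
    filter_upwards [hw, hcl] with n a b
    exact b (w n) a.1.1 a.2 a.1.2.1 a.1.2.2.1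
  obtain ⟨R₂, hR₂⟩ := nq_bdd hp hq hzt (hw.mono fun n h => h.2)
  obtain ⟨w', hw'T, hwt⟩ := hX.exists_lim (hw.mono fun n h => h.1.1) hR₂
  refine ⟨w, w', hw.mono fun n h => h.1, hwt, ?_⟩
  have hw'0 : 1 / 2 ≤ w' 0 := ge_of_tendsto (nq_t0 hwt) (hw0.mono fun n h => h.le)
  have hw'1 : w' 1 ≤ 0 := by
    by_contra hcon
    push Not at hcon
    exact h2 w' hw'T ⟨by linarith, hcon⟩
  -- the main inequality
  have hp0 := nq_ev (nq_t0 hp) (ε := 1 / 8) (by norm_num)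
  have hp1 := nq_ev (nq_t1 hp) (ε := 1 / 8) (by norm_num)
  have hzn0 := nq_ev (nq_t0 hzt) (ε := 1) (by norm_num)
  have hzn1 := nq_ev (nq_t1 hzt) (ε := 1 / 8) (by norm_num)
  have hq0 := nq_ev (nq_t0 hq) (ε := 1) (by norm_num)
  simp only [mk_zero, mk_one, sub_zero] at hp0 hp1
  have hmain : ∀ᶠ n in (UN : Filter ℕ),
      z n 0 * (p n 1 - w n 1) ≤ (w n 0 + B) * (p n 1 - z n 1) := by
    filter_upwards [hw, hp0, hp1, hzn0, hzn1, hq0, hqX] with n a b c d e f g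
    obtain ⟨x, y, t, hx, hy, ht, hxyt, hW⟩ := mem_triangle a.2
    have w0 := nq_comb hxyt hW 0
    have w1 := nq_comb hxyt hW 1
    rw [abs_le] at b c d e
    have f1 : -B ≤ q n 0 := by
      have f2 := (abs_le.1 f).1
      have f3 := neg_abs_le (q' 0)
      linarith
    have f4 : -B ≤ p n 0 := by linarith
    have hx' : x = 1 - y - t := by linarith
    have e1 : t * z n 0 ≤ w n 0 + B := by
      have e2 : 0 ≤ y * (q n 0 + B) := mul_nonneg hy (by linarith)
      have e3 : 0 ≤ x * (p n 0 + B) := mul_nonneg hx (by linarith)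
      have e4 : 0 ≤ t * B := mul_nonneg ht (by linarith)
      rw [hx'] at e3
      nlinarith
    have e5 : p n 1 - w n 1 ≤ t * (p n 1 - z n 1) := by
      have e6 : 0 ≤ y * (q n 1 - p n 1) := mul_nonneg hy (by linarith [g.2.1])
      linarith
    have e7 : 0 ≤ p n 1 - z n 1 := by linarith
    have e8 : 0 ≤ z n 0 := by linarith
    calc z n 0 * (p n 1 - w n 1) ≤ z n 0 * (t * (p n 1 - z n 1)) :=
          mul_le_mul_of_nonneg_left e5 e8
      _ = (t * z n 0) * (p n 1 - z n 1) := by ring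
      _ ≤ (w n 0 + B) * (p n 1 - z n 1) := mul_le_mul_of_nonneg_right e1 e7
  have tl := (nq_t0 hzt).mul ((nq_t1 hp).sub (nq_t1 hwt))
  have tr := ((nq_t0 hwt).add_const B).mul ((nq_t1 hp).sub (nq_t1 hzt))
  have hlim := le_of_tendsto_of_tendsto tl tr hmain
  rw [mk_one] at hlim
  by_contra hcon
  push Not at hcon
  have g1 : w' 0 + B ≤ R' - 1 := by
    have := le_abs_self R
    linarith
  have habs : |z' 1| = -z' 1 := abs_of_nonpos hz1'
  rw [habs] at hzd
  have g2 : z' 0 ≤ z' 0 * (1 - w' 1) := by nlinarith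
  have g3 : (w' 0 + B) * (1 - z' 1) ≤ R' * (1 - z' 1) :=
    mul_le_mul_of_nonneg_right (by linarith) (by linarith)
  nlinarith

end main

theorem no_quadrant {K : ℕ} {Φ : Finset E} {T : Set E} (hT : Lim K Φ T)
    (h1 : mk 0 1 ∈ T) (h2 : ∀ v ∈ T, ¬ (0 < v 0 ∧ 0 < v 1))
    (h3 : ∀ R : ℝ, ∀ ε > 0, ∃ z ∈ T, R < z 0 ∧ |z 1| ≤ ε * z 0)
    (h4 : ∃ q ∈ T, 2 ≤ q 1) : False := by
  obtain ⟨X, hX⟩ := hT.seq
  obtain ⟨q0, hq0T, hq01⟩ := h4
  obtain ⟨p, hp, hpX⟩ := nq_p hX h1 h2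
  obtain ⟨q, q', hq'0, -, hq, hqX⟩ := nq_q hX h2 hq0T hq01 hp
  have hC : (2 : ℝ) ≤ 2 * |q0 0| + 2 := by
    have := abs_nonneg (q0 0)
    linarith
  have hpq : ∀ᶠ n in (UN : Filter ℕ), p n ≠ q n := by
    filter_upwards [hqX] with n a h
    rw [h] at a
    exact lt_irrefl _ a.2.1
  choose w w' hw1 hw2 hw3 using nq_package hX h2 h3 hC hp hpX hq hq'0 hqX
  obtain ⟨r, hr⟩ : ∃ r : ℕ → ℝ, ∀ i, r (i + 1) = w' (r i) 0 :=
    ⟨fun i => Nat.rec 0 (fun _ x => w' x 0) i, fun _ => rfl⟩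
  have hmono : StrictMono r := strictMono_nat_of_lt_succ fun i => by
    rw [hr]
    exact hw3 (r i)
  refine seq_contra hX.kset (hpX.mono fun n h => h.1) (hqX.mono fun n h => h.1) hpq
    (w := fun i : Fin (K + 1) => w (r i)) (fun i => hw1 _) ?_
  intro i j hij
  refine nq_ne (hw2 (r i)) (hw2 (r j)) ?_
  intro h
  have h5 : r ((i : ℕ) + 1) = r ((j : ℕ) + 1) := by rw [hr, hr, h]
  have h6 : (i : ℕ) + 1 = (j : ℕ) + 1 := hmono.injective h5
  exact hij (Fin.ext (by omega))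

end Pool.Agent.Lib.MP_8bcb9d_co
end
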