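import Mathlib
import Pool.Agent.Lib.MP_8bcb9d_co.PI.Def
import Pool.Agent.Lib.MP_8bcb9d_co.PI.NoQuad
import Pool.Agent.Lib.MP_8bcb9d_co.PI.ArcFin

section

/-!
# Part I: a limit set is not contained in a line
-/

set_option autoImplicit false

namespace Pool.Agent.Lib.MP_8bcb9d_co

open Filter Topology

/-- A member of the limit class which contains `0` and a second point is not contained in a line
through `0`. -/
theorem line_case {Φ : Finset E} (hΦ : Dirs Φ) {K : ℕ} (hcard : 4 * K + 5 ≤ Φ.card) {T : Set E}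
    (hT : Lim K Φ T) (h0 : (0 : E) ∈ T) {v : E} (hv : v ∈ T) (hv0 : v ≠ 0) {d : E} (hd : d ≠ 0)
    (hline : ∀ w ∈ T, ∃ s : ℝ, w = s • d) : False := by
  classical
  obtain ⟨B, hBd, hstd⟩ := exists_std hΦ hcard hd
  have h1 : Lim K (Φ.image B) (B '' T) := hT.linear B
  obtain ⟨κ, hκ, c', hc', H⟩ := cone_isolated (hΦ.image B) hstd
  have hBv : B v ≠ 0 := fun h => hv0 (by simpa using h)
  have hn : 0 < ‖B v‖ := norm_pos_iff.2 hBv
  have hy : ∀ w ∈ B '' T, w 1 = 0 := by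
    rintro _ ⟨w, hw, rfl⟩
    obtain ⟨s, rfl⟩ := hline w hw
    rw [map_smul, hBd]
    simp
  have h0' : (0 : E) ∈ B '' T := ⟨0, h0, map_zero B⟩
  have h2 := H (B '' T) h1 0 h0' (‖B v‖ / c') (by positivity) (by
    intro w hw _
    rw [hy w hw, hy 0 h0', sub_zero]
    positivity) (B v) ⟨v, hv, rfl⟩ (by
      rw [dist_zero_right, mul_div_cancel₀ _ hc'.ne'])
  exact hBv h2

end Pool.Agent.Lib.MP_8bcb9d_co
end

section

/-!
# Part I: the minimal direction set is attained at infinity and by points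
-/

set_option autoImplicit false

namespace Pool.Agent.Lib.MP_8bcb9d_co

open Filter Topology

/-- a limit of rescaled copies of `T` is in the class and has the same direction set -/
private theorem MinDir.rescale {K : ℕ} {Φ : Finset E} {L : ℝ} {D : Set E} (h : MinDir K Φ L D)
    {T : Set E} (hT : Lim K Φ T) (hS : Syn L T) (hD : dirs T = D) {s : ℕ → ℝ}
    (hs : ∀ n, 0 < s n) :
    Lim K Φ (ulim UN (fun n => (fun v => s n • (v - 0)) '' T)) ∧
      Syn L (ulim UN (fun n => (fun v => s n • (v - 0)) '' T)) ∧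
      dirs (ulim UN (fun n => (fun v => s n • (v - 0)) '' T)) = D := by
  have h1 : ∀ n, Lim K Φ ((fun v => s n • (v - 0)) '' T) := fun n => hT.homo (hs n) 0
  have h2 : Lim K Φ (ulim UN (fun n => (fun v => s n • (v - 0)) '' T)) :=
    Lim.ulim (Eventually.of_forall h1)
  have h3 : Syn L (ulim UN (fun n => (fun v => s n • (v - 0)) '' T)) :=
    Syn.ulim (Eventually.of_forall fun n => hS.homo (hs n))
  refine ⟨h2, h3, h.min _ h2 h3 ?_⟩
  have hDc : IsClosed D := by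
    rw [← hD]
    exact isClosed_closure
  refine dirs_ulim (fun n => (h1 n).1) hDc (Eventually.of_forall fun n => ?_)
  rw [dirs_homo (hs n), hD]

theorem MinDir.far {K : ℕ} {Φ : Finset E} {L : ℝ} {D : Set E} (h : MinDir K Φ L D) {T : Set E}
    (hT : Lim K Φ T) (hS : Syn L T) (hD : dirs T = D) {θ : E} (hθ : θ ∈ D) {ε : ℝ} (hε : 0 < ε)
    (R : ℝ) : ∃ z ∈ T, R < ‖z‖ ∧ dist (‖z‖⁻¹ • z) θ < ε := by
  by_contra hcon
  push Not at hcon
  have hs : ∀ n : ℕ, (0 : ℝ) < 1 / ((n : ℝ) + 1) := fun n => by positivity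
  obtain ⟨-, -, h3⟩ := h.rescale hT hS hD hs
  rw [← h3] at hθ
  obtain ⟨u, ⟨v, hv, hv0, hu⟩, hd⟩ := Metric.mem_closure_iff.1 hθ ε hε
  obtain ⟨x, hx, hxv⟩ := exists_seq_of_mem (fun n => (hT.homo (hs n) 0).1) hv
  have hvn : 0 < ‖v‖ := norm_pos_iff.2 hv0
  have h4 : Tendsto (fun n => ‖x n‖⁻¹ • x n) UN (𝓝 (‖v‖⁻¹ • v)) :=
    (hxv.norm.inv₀ hvn.ne').smul hxv
  have h5 : ∀ᶠ n in (UN : Filter ℕ), ε ≤ dist (‖x n‖⁻¹ • x n) θ := by
    have h6 : ∀ᶠ n in (UN : Filter ℕ), ‖v‖ / 2 < ‖x n‖ :=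
      hxv.norm.eventually (lt_mem_nhds (by linarith))
    have h7 : Tendsto (fun n : ℕ => ((n : ℝ) + 1) * (‖v‖ / 2)) UN atTop := by
      refine Tendsto.atTop_mul_const (by positivity) ?_
      exact (tendsto_atTop_add_const_right _ 1 tendsto_natCast_atTop_atTop).mono_left UN_le
    filter_upwards [hx, h6, h7.eventually_gt_atTop R] with n b1 b2 b3
    obtain ⟨z, hz, hzx⟩ := b1
    have hn : (0 : ℝ) < (n : ℝ) + 1 := by positivity
    have hzx' : x n = (1 / ((n : ℝ) + 1)) • z := by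
      rw [← hzx]
      simp
    have hnx : ‖x n‖ = 1 / ((n : ℝ) + 1) * ‖z‖ := by
      rw [hzx', norm_smul, Real.norm_of_nonneg (hs n).le]
    have hzn : ‖z‖ = ((n : ℝ) + 1) * ‖x n‖ := by
      rw [hnx]
      field_simp
    have hR : R < ‖z‖ := by
      rw [hzn]
      exact b3.trans (mul_lt_mul_of_pos_left b2 hn)
    have hdir : ‖x n‖⁻¹ • x n = ‖z‖⁻¹ • z := by
      rw [hnx, hzx', smul_smul]
      congr 1
      rw [mul_inv]
      field_simp
    rw [hdir]
    exact hcon z hz hR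
  have h6 : Tendsto (fun n => dist (‖x n‖⁻¹ • x n) θ) UN (𝓝 (dist (‖v‖⁻¹ • v) θ)) :=
    h4.dist tendsto_const_nhds
  have h7 := ge_of_tendsto h6 h5
  rw [← hu, dist_comm] at h7
  linarith

theorem MinDir.on {K : ℕ} {Φ : Finset E} {L : ℝ} {D : Set E} (h : MinDir K Φ L D) {θ : E}
    (hθ : θ ∈ D) : ∃ T, Lim K Φ T ∧ Syn L T ∧ dirs T = D ∧ θ ∈ T := by
  obtain ⟨T, hT, hS, hD⟩ := h.ex
  rw [← hD] at hθ
  have h1 : ∀ n : ℕ, ∃ z : E, z ∈ T ∧ z ≠ 0 ∧ dist θ (‖z‖⁻¹ • z) < 1 / ((n : ℝ) + 1) := by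
    intro n
    obtain ⟨u, ⟨v, hv, hv0, hu⟩, hd⟩ := Metric.mem_closure_iff.1 hθ (1 / ((n : ℝ) + 1))
      (by positivity)
    exact ⟨v, hv, hv0, by rwa [← hu]⟩
  choose z hz hz0 hd using h1
  have hs : ∀ n, 0 < ‖z n‖⁻¹ := fun n => inv_pos.2 (norm_pos_iff.2 (hz0 n))
  obtain ⟨h2, h3, h4⟩ := h.rescale hT hS hD hs
  refine ⟨_, h2, h3, h4, ?_⟩
  refine mem_ulim_of_tendsto (x := fun n => ‖z n‖⁻¹ • z n)
    (Eventually.of_forall fun n => ⟨z n, hz n, by simp⟩) ?_
  have hε : Tendsto (fun n : ℕ => 1 / ((n : ℝ) + 1)) UN (𝓝 0) :=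
    tendsto_one_div_add_atTop_nhds_zero_nat.mono_left UN_le
  rw [tendsto_iff_dist_tendsto_zero]
  refine squeeze_zero (fun _ => dist_nonneg) (fun n => ?_) hε
  rw [dist_comm]
  exact (hd n).le

end Pool.Agent.Lib.MP_8bcb9d_co
end

section

/-!
# Part I: no arc of far directions (limit form)
-/

set_option autoImplicit false

namespace Pool.Agent.Lib.MP_8bcb9d_co

open Filter Topology

private theorem norm_le_two (v : E) : ‖v‖ ≤ |v 0| + |v 1| := by
  rw [EuclideanSpace.norm_eq, Fin.sum_univ_two]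
  apply Real.sqrt_le_iff.2
  refine ⟨by positivity, ?_⟩
  simp only [Real.norm_eq_abs]
  nlinarith [mul_nonneg (abs_nonneg (v 0)) (abs_nonneg (v 1))]

private theorem coord_le (v : E) (i : Fin 2) : |v i| ≤ ‖v‖ := by
  have := PiLp.norm_apply_le v i
  simpa using this

theorem no_arc {K : ℕ} {Φ : Finset E} {T : Set E} (hT : Lim K Φ T) (h0 : (0 : E) ∈ T)
    (hacc : ∀ ε > 0, ∃ v ∈ T, v ≠ 0 ∧ ‖v‖ < ε) {ζ : ℝ} (hζ : 0 < ζ)
    (hfar : ∀ σ : ℝ, |σ| ≤ ζ → ∀ η > 0, ∀ R : ℝ, ∃ z ∈ T, R ≤ z 0 ∧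
      |z 1 - σ * z 0| ≤ η * z 0) : False := by
  classical
  obtain ⟨L, hL, ε, hε, harc⟩ := arc_fin K (ζ := min ζ 1) (lt_min hζ one_pos) (min_le_right _ _)
  have hL0 : 0 < L := by linarith
  -- the net
  have h1 : ∀ σ : ℝ, ∃ z : E, |σ| ≤ min ζ 1 →
      (z ∈ T ∧ 10 ≤ z 0 ∧ |z 1 - σ * z 0| ≤ (ε / 8) * z 0) := by
    intro σ
    by_cases hσ : |σ| ≤ min ζ 1
    · obtain ⟨z, hz, h2, h3⟩ := hfar σ (hσ.trans (min_le_left _ _)) (ε / 8) (by positivity) 10
      exact ⟨z, fun _ => ⟨hz, h2, h3⟩⟩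
    · exact ⟨0, fun h => absurd h hσ⟩
  choose z hz using h1
  have hcomp : IsCompact (Set.Icc (-(min ζ 1)) (min ζ 1)) := isCompact_Icc
  obtain ⟨t, ht, htc⟩ := hcomp.elim_nhds_subcover
    (fun σ => {σ' : ℝ | |z σ 1 - σ' * z σ 0| < (ε / 4) * z σ 0}) (by
      intro σ hσ
      obtain ⟨-, h2, h3⟩ := hz σ (abs_le.2 hσ)
      apply IsOpen.mem_nhds
      · exact isOpen_lt (by fun_prop) continuous_const
      · simp only [Set.mem_setOf_eq]
        nlinarith)
  obtain ⟨R', hR'⟩ := (t.image (fun σ => ‖z σ‖)).exists_le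
  -- the scale
  set s : ℝ := min 1 (ε / 2) / L with hs
  have hmin0 : 0 < min 1 (ε / 2) := lt_min one_pos (by positivity)
  have hs0 : 0 < s := by positivity
  have hsL : L * s = min 1 (ε / 2) := by rw [hs]; field_simp
  have hsL1 : L * s ≤ 1 := by rw [hsL]; exact min_le_left _ _
  have hsLε : L * s ≤ ε / 2 := by rw [hsL]; exact min_le_right _ _
  have hs1 : s ≤ 1 := by nlinarith
  obtain ⟨v, hv, hv0, hvs⟩ := hacc (s / 2) (by positivity)
  have hvn : 0 < ‖v‖ := norm_pos_iff.2 hv0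
  set ε' : ℝ := min (‖v‖ / 4) (min 1 ε) with hε'
  have hε'0 : 0 < ε' := lt_min (by positivity) (lt_min one_pos hε)
  have hε'v : ε' ≤ ‖v‖ / 4 := min_le_left _ _
  have hε'1 : ε' ≤ 1 := (min_le_right _ _).trans (min_le_left _ _)
  have hε'ε : ε' ≤ ε := (min_le_right _ _).trans (min_le_right _ _)
  obtain ⟨X, hX, -, a2, -⟩ := hT.2 (max R' 1) ε' hε'0
  obtain ⟨x0, hx0, hx0d⟩ := a2 0 h0 (by rw [norm_zero]; positivity)
  obtain ⟨x1, hx1, hx1d⟩ := a2 v hv ((by linarith : ‖v‖ ≤ 1).trans (le_max_right _ _))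
  have hx01 : x0 ≠ x1 := by
    rintro rfl
    have h2 : dist (0 : E) v ≤ dist (0 : E) x0 + dist x0 v := dist_triangle _ _ _
    rw [dist_comm (0 : E) x0, dist_zero_left] at h2
    linarith
  have hx01d : dist x0 x1 ≤ s := by
    have h2 : dist x0 x1 ≤ dist x0 0 + dist 0 v + dist v x1 := dist_triangle4 _ _ _ _
    rw [dist_comm v x1, dist_zero_left] at h2
    linarith
  have hx0n : ‖x0‖ ≤ ε' := by rwa [dist_zero_right] at hx0d
  -- the minimiser
  obtain ⟨⟨a, b⟩, hab, hmin⟩ := X.offDiag.exists_min_image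
    (fun p => dist p.1 p.2 + dist p.1 x0 / (2 * L)) ⟨(x0, x1), by simp [hx0, hx1, hx01]⟩
  rw [Finset.mem_offDiag] at hab
  obtain ⟨ha, hb, hab'⟩ := hab
  simp only at ha hb hab'
  set δ : ℝ := dist a b with hδ
  have hδ0 : 0 < δ := dist_pos.2 hab'
  have hm0 := hmin (x0, x1) (by simp [hx0, hx1, hx01])
  simp only [dist_self, zero_div, add_zero] at hm0
  have h2L : 0 < 2 * L := by positivity
  have hax0' : 0 ≤ dist a x0 / (2 * L) := by positivity
  have hδs : δ ≤ s := by linarith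
  have hax0 : dist a x0 ≤ 2 * L * s := by
    have : dist a x0 / (2 * L) ≤ s := by linarith
    rw [div_le_iff₀ h2L] at this
    linarith
  have han : ‖a‖ ≤ ε' + 2 * L * s := by
    have h2 : dist a 0 ≤ dist a x0 + dist x0 0 := dist_triangle _ _ _
    rw [dist_zero_right] at h2
    linarith
  have hsep : ∀ x ∈ X, ∀ y ∈ X, x ≠ y → dist x a ≤ L * δ → δ / 2 ≤ dist x y := by
    intro x hx y hy hxy hxa
    have h2 := hmin (x, y) (by simp [hx, hy, hxy])
    simp only at h2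
    have h3 : dist x x0 ≤ dist x a + dist a x0 := dist_triangle _ _ _
    have h4 : dist x x0 / (2 * L) ≤ δ / 2 + dist a x0 / (2 * L) := by
      rw [div_le_iff₀ h2L, add_mul, div_mul_cancel₀ _ h2L.ne']
      nlinarith
    linarith
  -- rescaling
  have hδi : δ⁻¹ ≠ 0 := inv_ne_zero hδ0.ne'
  have hδi0 : 0 < δ⁻¹ := inv_pos.2 hδ0
  have hdist : ∀ x y : E, dist (homo δ⁻¹ hδi a x) (homo δ⁻¹ hδi a y) = δ⁻¹ * dist x y := by
    intro x y
    rw [homo_apply, homo_apply, dist_smul₀, Real.norm_eq_abs, abs_of_pos hδi0]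
    simp
  have hha : homo δ⁻¹ hδi a a = 0 := by rw [homo_apply]; simp
  have hnorm : ∀ x : E, ‖homo δ⁻¹ hδi a x‖ = δ⁻¹ * dist x a := by
    intro x
    rw [← hdist, hha, dist_zero_right]
  refine harc (X.image (homo δ⁻¹ hδi a)) (hX.affine _) ?_ ?_ ?_ ?_
  · exact Finset.mem_image.2 ⟨a, ha, hha⟩
  · refine ⟨_, Finset.mem_image_of_mem _ hb, ?_⟩
    rw [hnorm, dist_comm, ← hδ]
    exact inv_mul_cancel₀ hδ0.ne'
  · intro x' hx' y' hy' hxy' hxL
    obtain ⟨x, hx, rfl⟩ := Finset.mem_image.1 hx'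
    obtain ⟨y, hy, rfl⟩ := Finset.mem_image.1 hy'
    have hxy : x ≠ y := fun h => hxy' (by rw [h])
    rw [hnorm, inv_mul_le_iff₀ hδ0] at hxL
    have h2 := hsep x hx y hy hxy (by linarith)
    rw [hdist, ← div_eq_inv_mul, le_div_iff₀ hδ0]
    linarith
  · intro σ hσ
    have hmem := htc (abs_le.1 hσ)
    simp only [Set.mem_iUnion, Set.mem_setOf_eq] at hmem
    obtain ⟨i, hi, hiσ⟩ := hmem
    obtain ⟨hzT, hz10, -⟩ := hz i (abs_le.2 (ht i hi))
    have hzR : ‖z i‖ ≤ R' := hR' _ (Finset.mem_image_of_mem _ hi)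
    obtain ⟨w, hw, hwd⟩ := a2 (z i) hzT (hzR.trans (le_max_left _ _))
    rw [dist_eq_norm] at hwd
    have hw0 := (coord_le (w - z i) 0).trans hwd
    have hw1 := (coord_le (w - z i) 1).trans hwd
    simp only [PiLp.sub_apply] at hw0 hw1
    have hσ1 : |σ| ≤ 1 := hσ.trans (min_le_right _ _)
    rw [abs_le] at hw0 hw1 hσ1
    have hw9 : 9 ≤ w 0 := by linarith
    have hwσ : |w 1 - σ * w 0| ≤ (ε / 4) * z i 0 + 2 * ε' := by
      have e1 : w 1 - σ * w 0 = (z i 1 - σ * z i 0) + ((w 1 - z i 1) - σ * (w 0 - z i 0)) := by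
        ring
      rw [e1]
      refine (abs_add_le _ _).trans (add_le_add hiσ.le ?_)
      rw [abs_le]
      constructor <;> nlinarith
    have hbound : ‖(w - a) - w 0 • mk 1 σ‖ ≤ ε * w 0 := by
      have e1 : (w - a) - w 0 • mk 1 σ = (w - w 0 • mk 1 σ) - a := by abel
      rw [e1]
      refine (norm_sub_le _ _).trans ?_
      have e2 : ‖w - w 0 • mk 1 σ‖ ≤ |w 1 - σ * w 0| := by
        refine (norm_le_two _).trans ?_
        simp only [PiLp.sub_apply, PiLp.smul_apply, mk_zero, mk_one, smul_eq_mul, mul_one,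
          sub_self, abs_zero, zero_add]
        rw [mul_comm]
      nlinarith
    refine ⟨_, Finset.mem_image_of_mem _ hw, w 0 / δ, ?_, ?_⟩
    · rw [le_div_iff₀ hδ0]
      nlinarith
    · rw [homo_apply, dist_eq_norm]
      have e3 : δ⁻¹ • (w - a) - (w 0 / δ) • mk 1 σ = δ⁻¹ • ((w - a) - w 0 • mk 1 σ) := by
        rw [smul_sub δ⁻¹ (w - a), smul_smul, div_eq_inv_mul]
      rw [e3, norm_smul, Real.norm_eq_abs, abs_of_pos hδi0]
      calc δ⁻¹ * ‖(w - a) - w 0 • mk 1 σ‖ ≤ δ⁻¹ * (ε * w 0) :=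
            mul_le_mul_of_nonneg_left hbound hδi0.le
        _ = ε * (w 0 / δ) := by rw [div_eq_inv_mul]; ring

end Pool.Agent.Lib.MP_8bcb9d_co
end

section

/-!
# Part I: no member of the limit class is syndetic
-/

set_option autoImplicit false

namespace Pool.Agent.Lib.MP_8bcb9d_co

open Filter Topology

private theorem ns_cr_smul_right (t : ℝ) (a b : E) : cr a (t • b) = t * cr a b := by
  simp only [cr, PiLp.smul_apply, smul_eq_mul]; ring

private theorem ns_cr_smul_left (t : ℝ) (a b : E) : cr (t • a) b = t * cr a b := by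
  simp only [cr, PiLp.smul_apply, smul_eq_mul]; ring

private theorem ns_mem_dirs {T : Set E} {v : E} (hv : v ∈ T) (hv0 : v ≠ 0) :
    ‖v‖⁻¹ • v ∈ dirs T := subset_closure ⟨v, hv, hv0, rfl⟩

private theorem ns_norm_unit {v : E} (hv0 : v ≠ 0) : ‖‖v‖⁻¹ • v‖ = 1 := by
  rw [norm_smul, norm_inv, norm_norm, inv_mul_cancel₀ (norm_ne_zero_iff.2 hv0)]

private theorem ns_unit {T : Set E} {u : E} (hu : u ∈ dirs T) : ‖u‖ = 1 := by
  have hcl : IsClosed {u : E | ‖u‖ = 1} := isClosed_eq continuous_norm continuous_const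
  have hsub : {u : E | ∃ v ∈ T, v ≠ 0 ∧ u = ‖v‖⁻¹ • v} ⊆ {u : E | ‖u‖ = 1} := by
    rintro u ⟨v, -, hv0, rfl⟩
    exact ns_norm_unit hv0
  exact closure_minimal hsub hcl hu

private theorem ns_cont (B : E ≃ₗ[ℝ] E) : Continuous B :=
  LinearMap.continuous_of_finiteDimensional (B : E →ₗ[ℝ] E)

/-- far points in direction `θ`, after a linear map -/
private theorem ns_far {K : ℕ} {Φ : Finset E} {L : ℝ} {D : Set E} (h : MinDir K Φ L D) {T : Set E}
    (hT : Lim K Φ T) (hS : Syn L T) (hD : dirs T = D) {θ : E} (hθ : θ ∈ D) (B : E ≃ₗ[ℝ] E)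
    {δ : ℝ} (hδ : 0 < δ) (R : ℝ) : ∃ z ∈ T, R < ‖z‖ ∧ |B z 0 - ‖z‖ * B θ 0| ≤ δ * ‖z‖ ∧
      |B z 1 - ‖z‖ * B θ 1| ≤ δ * ‖z‖ := by
  obtain ⟨δ', hδ', hB⟩ := Metric.continuousAt_iff.1 (ns_cont B).continuousAt δ hδ
  obtain ⟨z, hz, hzR, hzd⟩ := h.far hT hS hD hθ hδ' (max R 0)
  have hz0 : 0 < ‖z‖ := (le_max_right _ _).trans_lt hzR
  have h1 := (hB hzd).le
  have e : B z = ‖z‖ • B (‖z‖⁻¹ • z) := by
    rw [map_smul, smul_smul, mul_inv_cancel₀ hz0.ne', one_smul]
  refine ⟨z, hz, (le_max_left _ _).trans_lt hzR, ?_, ?_⟩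
  · rw [e, PiLp.smul_apply, smul_eq_mul, ← mul_sub, abs_mul, abs_of_pos hz0, mul_comm δ]
    exact mul_le_mul_of_nonneg_left ((abs_sub_zero_le _ _).trans h1) hz0.le
  · rw [e, PiLp.smul_apply, smul_eq_mul, ← mul_sub, abs_mul, abs_of_pos hz0, mul_comm δ]
    exact mul_le_mul_of_nonneg_left ((abs_sub_one_le _ _).trans h1) hz0.le

private theorem ns_case2 {Φ : Finset E} {K : ℕ} {L : ℝ} {D : Set E} (h : MinDir K Φ L D)
    {α β : E} (hα : α ∈ D) (hβ : β ∈ D) (hc : 0 < cr α β)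
    (hno : ∀ u ∈ D, ¬ (0 < cr α u ∧ 0 < cr u β)) : False := by
  classical
  obtain ⟨T, hT, hS, hD, hβT⟩ := h.on hβ
  obtain ⟨c, hcc⟩ : ∃ c, c = cr α β := ⟨_, rfl⟩
  have hcd : c = α 0 * β 1 - α 1 * β 0 := hcc
  rw [← hcc] at hc
  have hdet : β 1 / c * (α 0 / c) - -β 0 / c * (-α 1 / c) ≠ 0 := by
    have e : β 1 / c * (α 0 / c) - -β 0 / c * (-α 1 / c) = 1 / c := by
      field_simp
      rw [hcd]; ring
    rw [e]
    exact (one_div_pos.2 hc).ne'
  obtain ⟨B, hB⟩ : ∃ B : E ≃ₗ[ℝ] E, ∀ v, B v = mk (cr v β / c) (cr α v / c) := by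
    refine ⟨linE (β 1 / c) (-β 0 / c) (-α 1 / c) (α 0 / c) hdet, fun v => ?_⟩
    change mk _ _ = _
    apply ext2
    · simp only [mk_zero, cr]; ring
    · simp only [mk_one, cr]; ring
  have hBα : B α = mk 1 0 := by
    rw [hB, ← hcc, div_self hc.ne']
    congr 1
    simp only [cr]
    rw [show α 0 * α 1 - α 1 * α 0 = 0 by ring, zero_div]
  have hBβ : B β = mk 0 1 := by
    rw [hB, ← hcc, div_self hc.ne']
    congr 1
    simp only [cr]
    rw [show β 0 * β 1 - β 1 * β 0 = 0 by ring, zero_div]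
  refine no_quadrant (hT.linear B) ⟨β, hβT, hBβ⟩ ?_ ?_ ?_
  · rintro _ ⟨w, hw, rfl⟩ ⟨h1, h2⟩
    rw [hB, mk_zero] at h1
    rw [hB, mk_one] at h2
    have h3 : 0 < cr w β := by
      have := mul_pos h1 hc
      rwa [div_mul_cancel₀ _ hc.ne'] at this
    have h4 : 0 < cr α w := by
      have := mul_pos h2 hc
      rwa [div_mul_cancel₀ _ hc.ne'] at this
    have hw0 : w ≠ 0 := by
      rintro rfl
      simp [cr] at h3
    have hn : 0 < ‖w‖⁻¹ := inv_pos.2 (norm_pos_iff.2 hw0)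
    apply hno (‖w‖⁻¹ • w) (by rw [← hD]; exact ns_mem_dirs hw hw0)
    rw [ns_cr_smul_right, ns_cr_smul_left]
    exact ⟨mul_pos hn h4, mul_pos hn h3⟩
  · intro R ε hε
    obtain ⟨z, hz, hzR, hz0, hz1⟩ := ns_far h hT hS hD hα B
      (δ := min (1 / 2) (ε / 2)) (by positivity) (2 * |R|)
    rw [hBα, mk_zero, mul_one] at hz0
    rw [hBα, mk_one, mul_zero, sub_zero] at hz1
    have hzn := norm_nonneg z
    have m1 := mul_le_mul_of_nonneg_right (min_le_left (1 / 2 : ℝ) (ε / 2)) hzn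
    have m2 := mul_le_mul_of_nonneg_right (min_le_right (1 / 2 : ℝ) (ε / 2)) hzn
    obtain ⟨a1, a2⟩ := abs_le.1 hz0
    have hz2 : ‖z‖ / 2 ≤ B z 0 := by linarith
    refine ⟨B z, ⟨z, hz, rfl⟩, ?_, ?_⟩
    · have := le_abs_self R
      linarith
    · have := mul_le_mul_of_nonneg_left hz2 hε.le
      linarith
  · obtain ⟨z, hz, hzR, -, hz1⟩ := ns_far h hT hS hD hβ B (δ := 1 / 2) (by norm_num) 4
    rw [hBβ, mk_one, mul_one] at hz1
    obtain ⟨a1, a2⟩ := abs_le.1 hz1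
    exact ⟨B z, ⟨z, hz, rfl⟩, by linarith⟩

private theorem ns_case3 {Φ : Finset E} {K : ℕ} {L : ℝ} (hL : 1 ≤ L) {D : Set E}
    (h : MinDir K Φ L D) {α β : E} (hc : 0 < cr α β)
    (hall : ∀ u : E, ‖u‖ = 1 → 0 ≤ cr α u → 0 ≤ cr u β → u ∈ D) : False := by
  classical
  obtain ⟨T, hT, hS, hD⟩ := h.ex
  obtain ⟨c, hcc⟩ : ∃ c, c = cr α β := ⟨_, rfl⟩
  have hcd : c = α 0 * β 1 - α 1 * β 0 := hcc
  rw [← hcc] at hc
  have hdet : (β 1 - α 1) / c * ((α 0 + β 0) / c) - (α 0 - β 0) / c * (-(α 1 + β 1) / c) ≠ 0 := by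
    have e : (β 1 - α 1) / c * ((α 0 + β 0) / c) - (α 0 - β 0) / c * (-(α 1 + β 1) / c) =
        2 / c := by
      field_simp
      rw [hcd]; ring
    rw [e]
    exact (div_pos two_pos hc).ne'
  obtain ⟨B, hB⟩ : ∃ B : E ≃ₗ[ℝ] E, ∀ v, B v =
      mk ((cr v β + cr α v) / c) ((cr α v - cr v β) / c) := by
    refine ⟨linE ((β 1 - α 1) / c) ((α 0 - β 0) / c) (-(α 1 + β 1) / c) ((α 0 + β 0) / c) hdet,
      fun v => ?_⟩
    change mk _ _ = _
    apply ext2
    · simp only [mk_zero, cr]; ring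
    · simp only [mk_one, cr]; ring
  have hαα : cr α α = 0 := by simp only [cr]; ring
  have hββ : cr β β = 0 := by simp only [cr]; ring
  refine no_arc (hT.linear B) ⟨0, hS.1, map_zero B⟩ ?_ one_pos ?_
  · intro ε hε
    obtain ⟨δ, hδ, hBδ⟩ := Metric.continuousAt_iff.1 ((ns_cont B).continuousAt (x := 0)) ε hε
    have hL0 : 0 < L := by linarith
    obtain ⟨v, hv, h1, h2⟩ := hS.2 (δ / (2 * L)) (by positivity)
    have hs : 0 < δ / (2 * L) := by positivity
    have hv0 : v ≠ 0 := norm_pos_iff.1 (hs.trans_le h1)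
    refine ⟨B v, ⟨v, hv, rfl⟩, (map_ne_zero_iff B B.injective).2 hv0, ?_⟩
    have h3 : dist v 0 < δ := by
      rw [dist_zero_right]
      refine h2.trans_lt ?_
      have e : L * (δ / (2 * L)) = δ / 2 := by field_simp
      rw [e]; linarith
    have h4 := hBδ h3
    rwa [map_zero, dist_zero_right] at h4
  · intro σ hσ η hη R
    obtain ⟨hσ1, hσ2⟩ := abs_le.1 hσ
    obtain ⟨w, hw⟩ : ∃ w : E, w = ((1 - σ) / 2) • α + ((1 + σ) / 2) • β := ⟨_, rfl⟩
    have hαw : cr α w = (1 + σ) / 2 * c := by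
      rw [hw, hcd]
      simp only [cr, PiLp.add_apply, PiLp.smul_apply, smul_eq_mul]
      ring
    have hwβ : cr w β = (1 - σ) / 2 * c := by
      rw [hw, hcd]
      simp only [cr, PiLp.add_apply, PiLp.smul_apply, smul_eq_mul]
      ring
    have hw0 : w ≠ 0 := by
      intro h0
      rw [h0] at hαw hwβ
      have e1 : cr α 0 = 0 := by simp [cr]
      have e2 : cr 0 β = 0 := by simp [cr]
      rw [e1] at hαw
      rw [e2] at hwβ
      linarith
    have hm : 0 < ‖w‖⁻¹ := inv_pos.2 (norm_pos_iff.2 hw0)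
    have hθ : ‖w‖⁻¹ • w ∈ D := by
      apply hall _ (ns_norm_unit hw0)
      · rw [ns_cr_smul_right, hαw]
        exact mul_nonneg hm.le (mul_nonneg (by linarith) hc.le)
      · rw [ns_cr_smul_left, hwβ]
        exact mul_nonneg hm.le (mul_nonneg (by linarith) hc.le)
    have hBw : B w = mk 1 σ := by
      rw [hB, hαw, hwβ]
      apply ext2
      · simp only [mk_zero]
        field_simp
        ring
      · simp only [mk_one]
        field_simp
        ring
    obtain ⟨m, hmm⟩ : ∃ m, m = ‖w‖⁻¹ := ⟨_, rfl⟩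
    have hBθ0 : B (‖w‖⁻¹ • w) 0 = m := by
      rw [map_smul, hBw, PiLp.smul_apply, mk_zero, smul_eq_mul, mul_one, hmm]
    have hBθ1 : B (‖w‖⁻¹ • w) 1 = m * σ := by
      rw [map_smul, hBw, PiLp.smul_apply, mk_one, smul_eq_mul, hmm]
    rw [← hmm] at hm
    obtain ⟨z, hz, hzR, hz0, hz1⟩ := ns_far h hT hS hD hθ B
      (δ := min (m / 2) (η * m / 4)) (by positivity) (2 * |R| / m)
    rw [hBθ0] at hz0
    rw [hBθ1] at hz1
    have hzn := norm_nonneg z
    have m1 := mul_le_mul_of_nonneg_right (min_le_left (m / 2) (η * m / 4)) hzn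
    have m2 := mul_le_mul_of_nonneg_right (min_le_right (m / 2) (η * m / 4)) hzn
    obtain ⟨a1, a2⟩ := abs_le.1 hz0
    have hz2 : ‖z‖ * m / 2 ≤ B z 0 := by linarith
    refine ⟨B z, ⟨z, hz, rfl⟩, ?_, ?_⟩
    · have h1 := le_abs_self R
      rw [div_lt_iff₀ hm] at hzR
      linarith
    · have e : B z 1 - σ * B z 0 =
          (B z 1 - ‖z‖ * (m * σ)) - σ * (B z 0 - ‖z‖ * m) := by ring
      have h1 : |σ * (B z 0 - ‖z‖ * m)| ≤ η * m / 4 * ‖z‖ := by
        rw [abs_mul]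
        calc |σ| * |B z 0 - ‖z‖ * m| ≤ 1 * (η * m / 4 * ‖z‖) :=
              mul_le_mul hσ (hz0.trans m2) (abs_nonneg _) zero_le_one
          _ = _ := one_mul _
      have h2 := abs_sub (B z 1 - ‖z‖ * (m * σ)) (σ * (B z 0 - ‖z‖ * m))
      have h3 := mul_le_mul_of_nonneg_left hz2 hη.le
      rw [e]
      linarith

theorem no_syn {Φ : Finset E} (hΦ : Dirs Φ) {K : ℕ} (hcard : 4 * K + 5 ≤ Φ.card) {L : ℝ}
    (hL : 1 ≤ L) {T : Set E} (hT : Lim K Φ T) (hS : Syn L T) : False := by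
  obtain ⟨D, h⟩ := exists_minDir hL hT hS
  obtain ⟨T0, hT0, hS0, hD0⟩ := h.ex
  obtain ⟨v, hv, hv1, -⟩ := hS0.2 1 one_pos
  have hv0 : v ≠ 0 := norm_pos_iff.1 (one_pos.trans_le hv1)
  have hcl : IsClosed D := by rw [← hD0]; exact isClosed_closure
  have hunit : ∀ u ∈ D, ‖u‖ = 1 := fun u hu => by
    rw [← hD0] at hu
    exact ns_unit hu
  have hne : D.Nonempty := ⟨_, by rw [← hD0]; exact ns_mem_dirs hv hv0⟩
  rcases dirs_cases hcl hunit hne with ⟨φ, hφ, h1⟩ | ⟨α, hα, β, hβ, hc, hno⟩ |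
    ⟨α, -, β, -, hc, hall⟩
  · have hφ0 : φ ≠ 0 := by
      intro h0
      have := hunit φ hφ
      rw [h0, norm_zero] at this
      exact zero_ne_one this
    refine line_case hΦ hcard hT0 hS0.1 hv hv0 hφ0 fun w hw => ?_
    by_cases hw0 : w = 0
    · exact ⟨0, by rw [hw0, zero_smul]⟩
    · have hn : ‖w‖ ≠ 0 := norm_ne_zero_iff.2 hw0
      have e : w = ‖w‖ • (‖w‖⁻¹ • w) := by rw [smul_smul, mul_inv_cancel₀ hn, one_smul]
      have hu : ‖w‖⁻¹ • w ∈ D := by rw [← hD0]; exact ns_mem_dirs hw hw0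
      rcases h1 _ hu with h2 | h2
      · exact ⟨‖w‖, by rw [← h2]; exact e⟩
      · refine ⟨-‖w‖, ?_⟩
        rw [neg_smul, ← smul_neg, ← h2]
        exact e
  · exact ns_case2 h hα hβ hc hno
  · exact ns_case3 hL h hc hall

end Pool.Agent.Lib.MP_8bcb9d_co
end

section

/-!
# Part I: Theorem 3
-/

set_option autoImplicit false

namespace Pool.Agent.Lib.MP_8bcb9d_co

open Filter Topology

/-- **Theorem 3.** A multiple point of the set of positions is not seen from `4K + 5` positions in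
different directions. -/
theorem three {K : ℕ} {X : ℕ → Finset E} (hX : ∀ n, KSet K (X n)) {x x' : ℕ → E} {e : E}
    (hx : ∀ᶠ n in (UN : Filter ℕ), x n ∈ X n) (hx' : ∀ᶠ n in (UN : Filter ℕ), x' n ∈ X n)
    (hne : ∀ᶠ n in (UN : Filter ℕ), x n ≠ x' n) (h1 : Tendsto x UN (𝓝 e))
    (h2 : Tendsto x' UN (𝓝 e)) {Φ : Finset E} (hΦ : Dirs Φ) (hcard : 4 * K + 5 ≤ Φ.card)
    (hΦT : ∀ φ ∈ Φ, e + φ ∈ pos X) : False :=
  three_of (fun _ a _ b _ c _ d f => no_syn a b c d f) hX hx hx' hne h1 h2 hΦ hcard hΦT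

end Pool.Agent.Lib.MP_8bcb9d_co
end

section

/-!
# Infinitely many bounded positions lie on a line
-/

set_option autoImplicit false

namespace Pool.Agent.Lib.MP_8bcb9d_co

open Filter Topology

/-- two different sequences of points which converge to an accumulation point of positions -/
theorem exists_two_seq {X : ℕ → Finset E} {b : ℕ → E} (hb : ∀ i, b i ∈ pos X) {e : E}
    (he : ∀ ε > 0, ∃ i, b i ≠ e ∧ dist (b i) e < ε) :
    ∃ x x' : ℕ → E, (∀ᶠ n in (UN : Filter ℕ), x n ∈ X n) ∧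
      (∀ᶠ n in (UN : Filter ℕ), x' n ∈ X n) ∧ (∀ᶠ n in (UN : Filter ℕ), x n ≠ x' n) ∧
      Tendsto x UN (𝓝 e) ∧ Tendsto x' UN (𝓝 e) := by
  classical
  have hcl : ∀ n, IsClosed ((X n : Set E)) := fun n => (X n).finite_toSet.isClosed
  have hep : e ∈ pos X := by
    refine isClosed_ulim.closure_subset ?_
    rw [Metric.mem_closure_iff]
    intro ε hε
    obtain ⟨i, -, hi⟩ := he ε hε
    exact ⟨b i, hb i, by rw [dist_comm]; exact hi⟩
  obtain ⟨x, hx, hxe⟩ := exists_seq_of_mem hcl hep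
  have h1 : ∀ n, ∃ y : E, ((X n).erase (x n)).Nonempty →
      (y ∈ (X n).erase (x n) ∧ ∀ z ∈ (X n).erase (x n), dist y e ≤ dist z e) := by
    intro n
    by_cases h : ((X n).erase (x n)).Nonempty
    · obtain ⟨y, hy, hmin⟩ := ((X n).erase (x n)).exists_min_image (fun z => dist z e) h
      exact ⟨y, fun _ => ⟨hy, hmin⟩⟩
    · exact ⟨0, fun h' => absurd h' h⟩
  choose x' hx' using h1
  have key : ∀ ε > 0, ∀ᶠ n in (UN : Filter ℕ), x' n ∈ X n ∧ x' n ≠ x n ∧ dist (x' n) e < ε := by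
    intro ε hε
    obtain ⟨i, hne, hi⟩ := he ε hε
    obtain ⟨y, hy, hyb⟩ := exists_seq_of_mem hcl (hb i)
    have h2 : ∀ᶠ n in (UN : Filter ℕ), y n ≠ x n := by
      have h3 : Tendsto (fun n => dist (y n) (x n)) UN (𝓝 (dist (b i) e)) := hyb.dist hxe
      have h4 := h3.eventually (lt_mem_nhds (dist_pos.2 hne))
      filter_upwards [h4] with n hn
      exact dist_pos.1 hn
    have h5 : ∀ᶠ n in (UN : Filter ℕ), dist (y n) e < ε := by
      have h3 : Tendsto (fun n => dist (y n) e) UN (𝓝 (dist (b i) e)) :=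
        hyb.dist tendsto_const_nhds
      exact h3.eventually (gt_mem_nhds hi)
    filter_upwards [hy, h2, h5] with n a1 a2 a3
    have hmem : y n ∈ (X n).erase (x n) := Finset.mem_erase.2 ⟨a2, a1⟩
    obtain ⟨b1, b2⟩ := hx' n ⟨y n, hmem⟩
    rw [Finset.mem_erase] at b1
    exact ⟨b1.2, b1.1, lt_of_le_of_lt (b2 _ hmem) a3⟩
  refine ⟨x, x', hx, (key 1 one_pos).mono fun n h => h.1,
    (key 1 one_pos).mono fun n h => h.2.1.symm, hxe, ?_⟩
  rw [Metric.tendsto_nhds]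
  intro ε hε
  exact (key ε hε).mono fun n h => h.2.2

theorem exists_line {K : ℕ} {X : ℕ → Finset E} (hX : ∀ n, KSet K (X n)) {b : ℕ → E}
    (hb : ∀ i, b i ∈ pos X) (hR : ∃ R : ℝ, ∀ i, ‖b i‖ ≤ R) (hinj : Function.Injective b) :
    ∃ p d : E, ∃ g : ℕ → ℕ, StrictMono g ∧ ∀ i, ∃ s : ℝ, b (g i) = p + s • d := by
  classical
  obtain ⟨R, hR⟩ := hR
  obtain ⟨e, -, g0, hg0, hlim⟩ := tendsto_subseq_of_bounded
    (Metric.isBounded_closedBall (x := (0 : E)) (r := R))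
    (fun n => (by simpa using hR n : b n ∈ Metric.closedBall (0 : E) R))
  have he : ∀ ε > 0, ∃ i, b i ≠ e ∧ dist (b i) e < ε := by
    intro ε hε
    rw [Metric.tendsto_atTop] at hlim
    obtain ⟨N, hN⟩ := hlim ε hε
    by_cases h1 : b (g0 N) = e
    · refine ⟨g0 (N + 1), ?_, hN (N + 1) (Nat.le_succ N)⟩
      intro h2
      have h3 := hg0.injective (hinj (h2.trans h1.symm))
      omega
    · exact ⟨g0 N, h1, hN N le_rfl⟩
  obtain ⟨x, x', hx, hx', hne, h1, h2⟩ := exists_two_seq hb he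
  set I : Set ℕ := {i | b i ≠ e} with hI
  have hIinf : I.Infinite := by
    intro hfin
    have h3 : (Iᶜ).Subsingleton := by
      intro i hi j hj
      simp only [hI, Set.mem_compl_iff, Set.mem_ofPred_eq, not_not] at hi hj
      exact hinj (hi.trans hj.symm)
    have h4 : (Set.univ : Set ℕ).Finite := by
      rw [← Set.union_compl_self I]
      exact hfin.union h3.finite
    exact Set.infinite_univ h4
  set dir : E → E := fun v => ‖v - e‖⁻¹ • (v - e) with hdir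
  have hDfin : ((fun i => dir (b i)) '' I).Finite := by
    by_contra hinf
    obtain ⟨t, ht, hcard⟩ := Set.Infinite.exists_subset_card_eq hinf (4 * K + 5)
    have h3 : ∀ u ∈ t, ∃ v : E, v ∈ pos X ∧ v ≠ e ∧ dir v = u := by
      intro u hu
      obtain ⟨i, hi, hiu⟩ := ht hu
      exact ⟨b i, hb i, hi, hiu⟩
    choose! w hw1 hw2 hw3 using h3
    set Φ : Finset E := t.image (fun u => w u - e) with hΦ
    have hinjw : Set.InjOn (fun u => w u - e) (t : Set E) := by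
      intro u hu u' hu' h4
      have h5 : w u = w u' := sub_left_injective h4
      rw [← hw3 u hu, ← hw3 u' hu', h5]
    refine three hX hx hx' hne h1 h2 (Φ := Φ) ⟨?_, ?_⟩ ?_ ?_
    · intro φ hφ
      obtain ⟨u, hu, rfl⟩ := Finset.mem_image.1 hφ
      exact sub_ne_zero.2 (hw2 u hu)
    · intro φ hφ ψ hψ c hc h4
      obtain ⟨u, hu, rfl⟩ := Finset.mem_image.1 hφ
      obtain ⟨u', hu', rfl⟩ := Finset.mem_image.1 hψ
      have h5 : u = u' := by
        rw [← hw3 u hu, ← hw3 u' hu']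
        simp only [hdir]
        rw [h4, norm_smul, Real.norm_of_nonneg hc.le, mul_inv, smul_smul,
          mul_comm c⁻¹, mul_assoc, inv_mul_cancel₀ hc.ne', mul_one]
      rw [h5]
    · rw [hΦ, Finset.card_image_of_injOn hinjw, hcard]
    · intro φ hφ
      obtain ⟨u, hu, rfl⟩ := Finset.mem_image.1 hφ
      rw [add_sub_cancel]
      exact hw1 u hu
  obtain ⟨u, hu⟩ : ∃ u, {i | i ∈ I ∧ dir (b i) = u}.Infinite := by
    by_contra hcon
    push Not at hcon
    apply hIinf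
    have h3 : I ⊆ ⋃ u ∈ (fun i => dir (b i)) '' I, {i | i ∈ I ∧ dir (b i) = u} := by
      intro i hi
      rw [Set.mem_iUnion₂]
      exact ⟨dir (b i), ⟨i, hi, rfl⟩, hi, rfl⟩
    exact (hDfin.biUnion fun u _ => hcon u).subset h3
  refine ⟨e, u, Nat.nth (fun i => i ∈ I ∧ dir (b i) = u), Nat.nth_strictMono hu, fun i => ?_⟩
  obtain ⟨h3, h4⟩ := Nat.nth_mem_of_infinite hu i
  generalize Nat.nth (fun i => i ∈ I ∧ dir (b i) = u) i = k at h3 h4
  have h3' : b k ≠ e := h3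
  have h5 : ‖b k - e‖ ≠ 0 := norm_ne_zero_iff.2 (sub_ne_zero.2 h3')
  refine ⟨‖b k - e‖, ?_⟩
  rw [← h4]
  simp only [hdir]
  rw [smul_smul, mul_inv_cancel₀ h5, one_smul, add_sub_cancel]

end Pool.Agent.Lib.MP_8bcb9d_co
end

section

/-!
# Part I: two sequences at vertical infinity and a line
-/

set_option autoImplicit false

namespace Pool.Agent.Lib.MP_8bcb9d_co

open Filter Topology

theorem lemmaV_tendsto_mk {ι : Type*} {l : Filter ι} {f g : ι → ℝ} {a b : ℝ} (hf : Tendsto f l (𝓝 a))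
    (hg : Tendsto g l (𝓝 b)) : Tendsto (fun n => mk (f n) (g n)) l (𝓝 (mk a b)) := by
  rw [tendsto_iff_dist_tendsto_zero]
  have h1 : Tendsto (fun n => |f n - a| + |g n - b|) l (𝓝 0) := by
    have h2 : Tendsto (fun n => |f n - a|) l (𝓝 0) := by
      have := (hf.sub_const a).abs
      simpa using this
    have h3 : Tendsto (fun n => |g n - b|) l (𝓝 0) := by
      have := (hg.sub_const b).abs
      simpa using this
    simpa using h2.add h3
  refine squeeze_zero (fun _ => dist_nonneg) (fun n => ?_) h1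
  have := dist_le_abs (mk (f n) (g n)) (mk a b)
  simpa using this

theorem lemmaV_tendsto_coord0 {ι : Type*} {l : Filter ι} {x : ι → E} {v : E} (h : Tendsto x l (𝓝 v)) :
    Tendsto (fun n => x n 0) l (𝓝 (v 0)) := by
  rw [tendsto_iff_dist_tendsto_zero] at h ⊢
  refine squeeze_zero (fun _ => dist_nonneg) (fun n => ?_) h
  rw [Real.dist_eq]
  exact abs_sub_zero_le _ _

theorem lemmaV_tendsto_coord1 {ι : Type*} {l : Filter ι} {x : ι → E} {v : E} (h : Tendsto x l (𝓝 v)) :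
    Tendsto (fun n => x n 1) l (𝓝 (v 1)) := by
  rw [tendsto_iff_dist_tendsto_zero] at h ⊢
  refine squeeze_zero (fun _ => dist_nonneg) (fun n => ?_) h
  rw [Real.dist_eq]
  exact abs_sub_one_le _ _

/-- second coordinate after the stretching -/
noncomputable def sV (κ μ : ℝ) (η : ℕ → ℝ) (c : ℕ → E) (n : ℕ) : ℝ :=
  (c n 1 - κ * c n 0 - (μ - 2 * η n)) / η n

theorem lemmaV_pr_st_eq (κ μ : ℝ) (η : ℕ → ℝ) (c : ℕ → E) (n : ℕ) :
    Pool.Agent.Lib.MP_8bcb9d_co.pr (Pool.Agent.Lib.MP_8bcb9d_co.st κ (μ - 2 * η n) (η n) (c n)) =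
      mk (c n 0 / sV κ μ η c n) (-(sV κ μ η c n)⁻¹) := by
  unfold pr st sV
  simp only [mk_zero, mk_one]

/-- behaviour of a sequence at vertical infinity -/
theorem lemmaV_vinf_far {κ μ : ℝ} {η : ℕ → ℝ} (hη : ∀ n, 0 < η n)
    (hη0 : Tendsto η UN (𝓝 0)) {c : ℕ → E} (hv : VInf c)
    (hpos : ∀ᶠ n in (UN : Filter ℕ), 0 < c n 1) :
    (∀ᶠ n in (UN : Filter ℕ), 0 < sV κ μ η c n) ∧
      Tendsto (fun n => mk (c n 0 / sV κ μ η c n) (-(sV κ μ η c n)⁻¹)) UN (𝓝 0) := by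
  obtain ⟨hv1, hv2⟩ := hv
  have hc1 : Tendsto (fun n => c n 1) UN atTop := by
    refine hv1.congr' ?_
    filter_upwards [hpos] with n hn
    exact abs_of_pos hn
  have hμ : Tendsto (fun n => μ / c n 1) UN (𝓝 0) := hc1.const_div_atTop μ
  have hκ : Tendsto (fun n => κ * (c n 0 / c n 1)) UN (𝓝 0) := by
    simpa using hv2.const_mul κ
  have h1 : ∀ᶠ n in (UN : Filter ℕ), |μ / c n 1| < 1 / 4 := by
    have := hμ.abs
    rw [abs_zero] at this
    exact this.eventually (gt_mem_nhds (by norm_num))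
  have h2 : ∀ᶠ n in (UN : Filter ℕ), |κ * (c n 0 / c n 1)| < 1 / 4 := by
    have := hκ.abs
    rw [abs_zero] at this
    exact this.eventually (gt_mem_nhds (by norm_num))
  have h3 : ∀ᶠ n in (UN : Filter ℕ), η n < 1 := hη0.eventually (gt_mem_nhds one_pos)
  -- lower bound
  have h4 : ∀ᶠ n in (UN : Filter ℕ), c n 1 / 2 ≤ sV κ μ η c n ∧ 0 < c n 1 := by
    filter_upwards [h1, h2, h3, hpos] with n a1 a2 a3 a4
    refine ⟨?_, a4⟩
    have b1 : μ < c n 1 / 4 := by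
      have := (abs_lt.1 a1).2
      rw [div_lt_iff₀ a4] at this
      linarith
    have b2 : κ * c n 0 < c n 1 / 4 := by
      have := (abs_lt.1 a2).2
      rw [← mul_div_assoc, div_lt_iff₀ a4] at this
      linarith
    unfold sV
    rw [le_div_iff₀ (hη n)]
    have b3 : c n 1 / 2 * η n ≤ c n 1 / 2 := by
      have : c n 1 / 2 * η n ≤ c n 1 / 2 * 1 :=
        mul_le_mul_of_nonneg_left a3.le (by positivity)
      linarith
    have b4 := hη n
    linarith
  have h5 : ∀ᶠ n in (UN : Filter ℕ), 0 < sV κ μ η c n := by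
    filter_upwards [h4] with n hn
    linarith [hn.1, hn.2]
  refine ⟨h5, ?_⟩
  have h6 : Tendsto (fun n => sV κ μ η c n) UN atTop := by
    refine tendsto_atTop_mono' _ ?_ (hc1.atTop_div_const (by norm_num : (0 : ℝ) < 2))
    filter_upwards [h4] with n hn
    exact hn.1
  have h7 : Tendsto (fun n => -(sV κ μ η c n)⁻¹) UN (𝓝 0) := by
    simpa using h6.inv_tendsto_atTop.neg
  have h8 : Tendsto (fun n => c n 0 / sV κ μ η c n) UN (𝓝 0) := by
    have h9 : Tendsto (fun n => 2 * |c n 0 / c n 1|) UN (𝓝 0) := by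
      simpa using (hv2.abs).const_mul 2
    refine squeeze_zero_norm' ?_ h9
    filter_upwards [h4] with n hn
    obtain ⟨a1, a2⟩ := hn
    rw [Real.norm_eq_abs, abs_div, abs_div, abs_of_pos a2, abs_of_pos (by linarith : 0 < sV κ μ η c n),
      ← mul_div_assoc, div_le_div_iff₀ (by linarith) a2]
    have := abs_nonneg (c n 0)
    nlinarith
  have h10 : (0 : E) = mk 0 0 := ext2 (by simp) (by simp)
  rw [h10]
  exact lemmaV_tendsto_mk h8 h7

theorem lemmaV {K : ℕ} {X : ℕ → Finset E} (hX : ∀ n, KSet K (X n)) {κ μ : ℝ} {b : ℕ → E}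
    (hb : ∀ i, b i ∈ pos X) (hinj : ∀ i j, i ≠ j → b i 0 ≠ b j 0)
    (hline : ∀ i, b i 1 = κ * b i 0 + μ) {c c' : ℕ → E}
    (hc : ∀ᶠ n in (UN : Filter ℕ), c n ∈ X n) (hc' : ∀ᶠ n in (UN : Filter ℕ), c' n ∈ X n)
    (hne : ∀ᶠ n in (UN : Filter ℕ), c n ≠ c' n) (hv : VInf c) (hv' : VInf c')
    (hpos : ∀ᶠ n in (UN : Filter ℕ), 0 < c n 1) (hpos' : ∀ᶠ n in (UN : Filter ℕ), 0 < c' n 1) :
    False := by
  classical
  -- sequences converging to the `b i`
  have hz := fun i => exists_seq_of_mem (fun n => (X n).finite_toSet.isClosed) (hb i)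
  choose z hzX hzt using hz
  set h : ℕ → ℕ → ℝ := fun i n => |z i n 1 - κ * z i n 0 - μ| with hh
  have hh0 : ∀ i, Tendsto (h i) UN (𝓝 0) := by
    intro i
    have h1 := (((lemmaV_tendsto_coord1 (hzt i)).sub ((lemmaV_tendsto_coord0 (hzt i)).const_mul κ)).sub_const μ).abs
    have h2 : |b i 1 - κ * b i 0 - μ| = 0 := by
      rw [hline i]
      rw [show κ * b i 0 + μ - κ * b i 0 - μ = 0 by ring, abs_zero]
    rw [h2] at h1
    exact h1
  set η : ℕ → ℝ := fun n => ∑ i ∈ Finset.range (4 * K + 5), h i n + 1 / ((n : ℝ) + 1) with hη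
  have hηpos : ∀ n, 0 < η n := by
    intro n
    have h1 : 0 ≤ ∑ i ∈ Finset.range (4 * K + 5), h i n :=
      Finset.sum_nonneg fun i _ => abs_nonneg _
    have h2 : (0 : ℝ) < 1 / ((n : ℝ) + 1) := by positivity
    simp only [hη]
    linarith
  have hη0 : Tendsto η UN (𝓝 0) := by
    have h1 : Tendsto (fun n : ℕ => 1 / ((n : ℝ) + 1)) UN (𝓝 0) :=
      tendsto_one_div_add_atTop_nhds_zero_nat.mono_left UN_le
    have h2 : Tendsto (fun n => ∑ i ∈ Finset.range (4 * K + 5), h i n) UN (𝓝 0) := by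
      have := tendsto_finsetSum (Finset.range (4 * K + 5)) (fun i _ => hh0 i)
      simpa using this
    have h3 := h2.add h1
    rw [add_zero] at h3
    exact h3
  have hhη : ∀ i < 4 * K + 5, ∀ n, h i n ≤ η n := by
    intro i hi n
    have h1 : h i n ≤ ∑ i ∈ Finset.range (4 * K + 5), h i n :=
      Finset.single_le_sum (f := fun i => h i n) (fun i _ => abs_nonneg _) (Finset.mem_range.2 hi)
    have h2 : (0 : ℝ) < 1 / ((n : ℝ) + 1) := by positivity
    simp only [hη]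
    linarith
  -- the new sets
  set X1 : ℕ → Finset E := fun n =>
    (X n).image (Pool.Agent.Lib.MP_8bcb9d_co.st κ (μ - 2 * η n) (η n)) with hX1
  have hX1K : ∀ n, KSet K (X1 n) := fun n => (hX n).st κ (μ - 2 * η n) (hηpos n)
  set C : Set E := {v : E | 0 < v 1} with hC
  have hCc : Convex ℝ C := by
    intro v hv w hw a b' ha hb' hab
    simp only [hC, Set.mem_ofPred_eq, PiLp.add_apply, PiLp.smul_apply, smul_eq_mul] at hv hw ⊢
    rcases eq_or_lt_of_le ha with ha | ha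
    · have : b' = 1 := by linarith
      rw [← ha, this]
      linarith
    · have : 0 < a * v 1 := mul_pos ha hv
      have : 0 ≤ b' * w 1 := mul_nonneg hb' hw.le
      linarith
  set X2 : ℕ → Finset E := fun n =>
    ((X1 n).filter fun x => x ∈ C).image Pool.Agent.Lib.MP_8bcb9d_co.pr with hX2
  have hX2K : ∀ n, KSet K (X2 n) := by
    intro n
    refine ((hX1K n).window hCc).pr ?_
    intro v hv
    exact (Finset.mem_filter.1 hv).2
  have hmem : ∀ (d : ℕ → E) (n : ℕ), d n ∈ X n → 0 < sV κ μ η d n →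
      mk (d n 0 / sV κ μ η d n) (-(sV κ μ η d n)⁻¹) ∈ X2 n := by
    intro d n hd hs
    rw [← lemmaV_pr_st_eq]
    refine Finset.mem_image_of_mem _ (Finset.mem_filter.2 ⟨Finset.mem_image_of_mem _ hd, ?_⟩)
    simp only [hC, Set.mem_ofPred_eq]
    unfold Pool.Agent.Lib.MP_8bcb9d_co.st
    rw [mk_one]
    exact hs
  -- second coordinates of the images of the `z i`
  have hs : ∀ i < 4 * K + 5, ∀ n, 1 ≤ sV κ μ η (z i) n ∧ sV κ μ η (z i) n ≤ 3 := by
    intro i hi n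
    have h1 := hhη i hi n
    have h2 := hηpos n
    have h3 := abs_le.1 (show |z i n 1 - κ * z i n 0 - μ| ≤ η n from h1)
    unfold sV
    constructor
    · rw [le_div_iff₀ h2]
      linarith [h3.1]
    · rw [div_le_iff₀ h2]
      linarith [h3.2]
  have hH : ∀ i : Fin (4 * K + 5), ∃ H : ℝ, 1 ≤ H ∧ H ≤ 3 ∧
      Tendsto (fun n => sV κ μ η (z i) n) UN (𝓝 H) := by
    intro i
    have h1 : ∀ᶠ n in (UN : Filter ℕ), |sV κ μ η (z i) n| ≤ 3 := by
      refine Filter.Eventually.of_forall fun n => ?_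
      obtain ⟨a1, a2⟩ := hs i i.2 n
      rw [abs_of_nonneg (by linarith)]
      exact a2
    obtain ⟨H, hH⟩ := exists_tendsto_real h1
    refine ⟨H, ?_, ?_, hH⟩
    · exact ge_of_tendsto hH (Filter.Eventually.of_forall fun n => (hs i i.2 n).1)
    · exact le_of_tendsto hH (Filter.Eventually.of_forall fun n => (hs i i.2 n).2)
  choose H hH1 hH3 hHt using hH
  set φ : Fin (4 * K + 5) → E := fun i => mk (b i 0 / H i) (-(H i)⁻¹) with hφ
  have hHpos : ∀ i, 0 < H i := fun i => by linarith [hH1 i]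
  have hφlim : ∀ i, φ i ∈ pos X2 := by
    intro i
    refine mem_ulim_of_tendsto (x := fun n => mk (z i n 0 / sV κ μ η (z i) n)
      (-(sV κ μ η (z i) n)⁻¹)) ?_ ?_
    · filter_upwards [hzX i] with n hn
      exact hmem (z i) n hn (by linarith [(hs i i.2 n).1])
    · refine lemmaV_tendsto_mk ?_ ?_
      · exact (lemmaV_tendsto_coord0 (hzt i)).div (hHt i) (hHpos i).ne'
      · exact ((hHt i).inv₀ (hHpos i).ne').neg
  have hdir : ∀ i j : Fin (4 * K + 5), ∀ t : ℝ, 0 < t → φ i = t • φ j → i = j := by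
    intro i j t ht hij
    by_contra hne'
    have h0 := congrArg (fun v : E => v 0) hij
    have h1 := congrArg (fun v : E => v 1) hij
    simp only [hφ, PiLp.smul_apply, smul_eq_mul, mk_zero, mk_one] at h0 h1
    have h2 : (H i)⁻¹ = t * (H j)⁻¹ := by linarith
    have h3 : b i 0 * (H i)⁻¹ = b j 0 * (H i)⁻¹ := by
      rw [div_eq_mul_inv, div_eq_mul_inv] at h0
      rw [h0, h2]
      ring
    have h4 : b i 0 = b j 0 := mul_right_cancel₀ (inv_ne_zero (hHpos i).ne') h3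
    exact hinj i j (fun h => hne' (Fin.ext h)) h4
  have hφinj : Function.Injective φ := by
    intro i j hij
    exact hdir i j 1 one_pos (by rw [one_smul]; exact hij)
  set Φ : Finset E := Finset.univ.image φ with hΦ
  have hΦcard : Φ.card = 4 * K + 5 := by
    rw [hΦ, Finset.card_image_of_injective _ hφinj, Finset.card_univ, Fintype.card_fin]
  have hΦd : Dirs Φ := by
    refine ⟨?_, ?_⟩
    · intro v hv h0
      obtain ⟨i, -, rfl⟩ := Finset.mem_image.1 hv
      have h1 := congrArg (fun v : E => v 1) h0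
      simp only [hφ, mk_one] at h1
      have h2 : (0 : ℝ) < (H i)⁻¹ := inv_pos.2 (hHpos i)
      have h3 : ((0 : E) 1 : ℝ) = 0 := by simp
      rw [h3] at h1
      linarith
    · intro v hv w hw t ht hvw
      obtain ⟨i, -, rfl⟩ := Finset.mem_image.1 hv
      obtain ⟨j, -, rfl⟩ := Finset.mem_image.1 hw
      rw [hdir i j t ht hvw]
  -- the two sequences
  obtain ⟨s1, t1⟩ := lemmaV_vinf_far (κ := κ) (μ := μ) hηpos hη0 hv hpos
  obtain ⟨s2, t2⟩ := lemmaV_vinf_far (κ := κ) (μ := μ) hηpos hη0 hv' hpos'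
  refine three hX2K (x := fun n => mk (c n 0 / sV κ μ η c n) (-(sV κ μ η c n)⁻¹))
    (x' := fun n => mk (c' n 0 / sV κ μ η c' n) (-(sV κ μ η c' n)⁻¹)) (e := 0) ?_ ?_ ?_ t1 t2
    hΦd hΦcard.ge ?_
  · filter_upwards [hc, s1] with n a1 a2
    exact hmem c n a1 a2
  · filter_upwards [hc', s2] with n a1 a2
    exact hmem c' n a1 a2
  · filter_upwards [hne, s1, s2] with n a1 a2 a3
    intro heq
    apply a1
    have h0 := congrArg (fun v : E => v 0) heq
    have h1 := congrArg (fun v : E => v 1) heq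
    simp only [mk_zero, mk_one] at h0 h1
    have h2 : sV κ μ η c n = sV κ μ η c' n := by
      have := neg_injective h1
      exact inv_injective this
    have h3 : c n 0 = c' n 0 := by
      rw [h2] at h0
      exact (div_left_inj' a3.ne').1 h0
    refine ext2 h3 ?_
    unfold sV at h2
    rw [div_left_inj' (hηpos n).ne'] at h2
    rw [h3] at h2
    linarith
  · intro ψ hψ
    obtain ⟨i, -, rfl⟩ := Finset.mem_image.1 hψ
    rw [zero_add]
    exact hφlim i

end Pool.Agent.Lib.MP_8bcb9d_co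
end

section

/-!
# Part I: the stages
-/

set_option autoImplicit false

namespace Pool.Agent.Lib.MP_8bcb9d_co

open Filter Topology

namespace Stages

theorem tendsto_coord {x : ℕ → E} {v : E} (h : Tendsto x UN (𝓝 v)) (i : Fin 2) :
    Tendsto (fun n => x n i) UN (𝓝 (v i)) :=
  (((EuclideanSpace.proj i : E →L[ℝ] ℝ).continuous.tendsto v).comp h)

theorem exists_seq_pos {X : ℕ → Finset E} {v : E} (hv : v ∈ pos X) :
    ∃ x : ℕ → E, (∀ᶠ n in (UN : Filter ℕ), x n ∈ X n) ∧ Tendsto x UN (𝓝 v) :=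
  exists_seq_of_mem (fun n => (X n).finite_toSet.isClosed) hv

/-- linear images of positions -/
theorem pos_linear {X : ℕ → Finset E} (B : E ≃ₗ[ℝ] E) {v : E} (hv : v ∈ pos X) :
    B v ∈ pos fun n => (X n).image B.toAffineEquiv := by
  obtain ⟨x, hx, hxv⟩ := exists_seq_pos hv
  have hc : Continuous (B : E → E) := LinearMap.continuous_of_finiteDimensional (B : E →ₗ[ℝ] E)
  refine mem_ulim_of_tendsto (x := fun n => B (x n)) ?_ ((hc.tendsto v).comp hxv)
  filter_upwards [hx] with n hn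
  have : B (x n) ∈ (X n).image B.toAffineEquiv := Finset.mem_image_of_mem _ hn
  exact this

theorem bdd_linear {b : ℕ → E} (B : E ≃ₗ[ℝ] E) (hR : ∃ R : ℝ, ∀ i, ‖b i‖ ≤ R) :
    ∃ R : ℝ, ∀ i, ‖B (b i)‖ ≤ R := by
  obtain ⟨R, hR⟩ := hR
  let L : E →L[ℝ] E := LinearMap.toContinuousLinearMap (B : E →ₗ[ℝ] E)
  refine ⟨‖L‖ * R, fun i => ?_⟩
  calc ‖B (b i)‖ = ‖L (b i)‖ := rfl
    _ ≤ ‖L‖ * ‖b i‖ := L.le_opNorm _
    _ ≤ ‖L‖ * R := mul_le_mul_of_nonneg_left (hR i) (norm_nonneg _)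

theorem st_inj {κ μ M : ℝ} (hM : 0 < M) {v w : E} (h : st κ μ M v = st κ μ M w) : v = w := by
  have h0 : v 0 = w 0 := by
    have := congrArg (fun z : E => z 0) h
    simpa [st] using this
  have h1 : (v 1 - κ * v 0 - μ) / M = (w 1 - κ * w 0 - μ) / M := by
    have := congrArg (fun z : E => z 1) h
    simpa only [st, mk_one] using this
  rw [div_left_inj' hM.ne', h0] at h1
  exact ext2 h0 (by linarith)

/-- stretched sequences at vertical infinity -/
theorem vinf_st {κ' μ' M : ℕ → ℝ} (hM : Tendsto M UN (𝓝 0)) (hM0 : ∀ n, 0 < M n) {x : ℕ → E}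
    (h1 : ∃ δ : ℝ, 0 < δ ∧ ∀ᶠ n in (UN : Filter ℕ), δ ≤ |x n 1 - κ' n * x n 0 - μ' n|)
    (h2 : Tendsto (fun n => x n 0 * M n / (x n 1 - κ' n * x n 0 - μ' n)) UN (𝓝 0)) :
    VInf fun n => st (κ' n) (μ' n) (M n) (x n) := by
  obtain ⟨δ, hδ, h1⟩ := h1
  constructor
  · have h3 : Tendsto (fun n => (M n)⁻¹) UN atTop := by
      refine tendsto_inv_nhdsGT_zero.comp ?_
      rw [tendsto_nhdsWithin_iff]
      exact ⟨hM, Eventually.of_forall hM0⟩
    have h4 : Tendsto (fun n => δ * (M n)⁻¹) UN atTop := h3.const_mul_atTop hδ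
    refine tendsto_atTop_mono' _ ?_ h4
    filter_upwards [h1] with n hn
    simp only [st, mk_one]
    rw [abs_div, abs_of_pos (hM0 n), div_eq_mul_inv]
    exact mul_le_mul_of_nonneg_right hn (inv_nonneg.2 (hM0 n).le)
  · refine h2.congr fun n => ?_
    simp only [st, mk_one, mk_zero]
    rw [div_div_eq_mul_div]

theorem vinf_new {κ' μ' M : ℕ → ℝ} {κ μ : ℝ} (hκ : Tendsto κ' UN (𝓝 κ))
    (hμ : Tendsto μ' UN (𝓝 μ)) (hM : Tendsto M UN (𝓝 0)) (hM0 : ∀ n, 0 < M n) {x : ℕ → E} {v : E}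
    (hx : Tendsto x UN (𝓝 v)) (hv : v 1 ≠ κ * v 0 + μ) :
    VInf fun n => st (κ' n) (μ' n) (M n) (x n) := by
  have hN : Tendsto (fun n => x n 1 - κ' n * x n 0 - μ' n) UN (𝓝 (v 1 - κ * v 0 - μ)) :=
    ((tendsto_coord hx 1).sub (hκ.mul (tendsto_coord hx 0))).sub hμ
  have hN0 : v 1 - κ * v 0 - μ ≠ 0 := fun h => hv (by linarith)
  apply vinf_st hM hM0
  · refine ⟨|v 1 - κ * v 0 - μ| / 2, by positivity, ?_⟩
    have := hN.abs.eventually (lt_mem_nhds (half_lt_self (abs_pos.2 hN0)))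
    filter_upwards [this] with n hn
    exact hn.le
  · have := ((tendsto_coord hx 0).mul hM).div hN hN0
    rw [mul_zero, zero_div] at this
    exact this

theorem vinf_old {κ' μ' M : ℕ → ℝ} {κ μ : ℝ} (hκ : Tendsto κ' UN (𝓝 κ))
    (hμ : Tendsto μ' UN (𝓝 μ)) (hM : Tendsto M UN (𝓝 0)) (hM0 : ∀ n, 0 < M n) {c : ℕ → E}
    (hc : VInf c) : VInf fun n => st (κ' n) (μ' n) (M n) (c n) := by
  obtain ⟨h1, h2⟩ := hc
  have hinv : Tendsto (fun n => (c n 1)⁻¹) UN (𝓝 0) := by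
    rw [tendsto_zero_iff_abs_tendsto_zero]
    refine (tendsto_inv_atTop_zero.comp h1).congr fun n => ?_
    simp [abs_inv]
  have hβ : Tendsto (fun n => 1 - κ' n * (c n 0 / c n 1) - μ' n * (c n 1)⁻¹) UN (𝓝 1) := by
    have := (tendsto_const_nhds (x := (1 : ℝ)).sub (hκ.mul h2)).sub (hμ.mul hinv)
    rwa [mul_zero, mul_zero, sub_zero, sub_zero] at this
  have hne : ∀ᶠ n in (UN : Filter ℕ), 1 ≤ |c n 1| := h1.eventually_ge_atTop 1
  have heq : ∀ᶠ n in (UN : Filter ℕ), c n 1 - κ' n * c n 0 - μ' n =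
      c n 1 * (1 - κ' n * (c n 0 / c n 1) - μ' n * (c n 1)⁻¹) := by
    filter_upwards [hne] with n hn
    have h0 : c n 1 ≠ 0 := by
      intro h0
      rw [h0, abs_zero] at hn
      linarith
    field_simp
  apply vinf_st hM hM0
  · refine ⟨1 / 2, by norm_num, ?_⟩
    filter_upwards [hne, heq, hβ.eventually (lt_mem_nhds (by norm_num : (1 / 2 : ℝ) < 1))]
      with n a1 a2 a3
    rw [a2, abs_mul]
    have a4 := le_abs_self (1 - κ' n * (c n 0 / c n 1) - μ' n * (c n 1)⁻¹)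
    nlinarith
  · have := (h2.mul hM).div hβ one_ne_zero
    rw [mul_zero, zero_div] at this
    refine this.congr' ?_
    filter_upwards [hne, heq] with n a1 a2
    rw [Pi.div_apply, a2, div_mul_eq_mul_div, div_div]

end Stages

open Stages

theorem stage_zero {K : ℕ} {X : ℕ → Finset E} (hX : ∀ n, KSet K (X n)) {b : ℕ → E}
    (hb : ∀ i, b i ∈ pos X) (hR : ∃ R : ℝ, ∀ i, ‖b i‖ ≤ R) (hinj : Function.Injective b) :
    ∃ X' : ℕ → Finset E, Stage K X' 0 := by
  obtain ⟨p, d, g, hg, hl⟩ := exists_line hX hb hR hinj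
  have hd : d ≠ 0 := by
    rintro rfl
    obtain ⟨s, hs⟩ := hl 0
    obtain ⟨t, ht⟩ := hl 1
    rw [smul_zero] at hs ht
    have h1 := hg.injective (hinj (hs.trans ht.symm))
    omega
  have hD : 0 < d 0 ^ 2 + d 1 ^ 2 := by
    by_contra hcon
    push Not at hcon
    apply hd
    have h0 : d 0 ^ 2 = 0 := by nlinarith [sq_nonneg (d 0), sq_nonneg (d 1)]
    have h1 : d 1 ^ 2 = 0 := by nlinarith [sq_nonneg (d 0), sq_nonneg (d 1)]
    exact ext2 (by simpa using h0) (by simpa using h1)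
  have hdet : d 0 / (d 0 ^ 2 + d 1 ^ 2) * d 0 - d 1 / (d 0 ^ 2 + d 1 ^ 2) * (-d 1) ≠ 0 := by
    have : d 0 / (d 0 ^ 2 + d 1 ^ 2) * d 0 - d 1 / (d 0 ^ 2 + d 1 ^ 2) * (-d 1) = 1 := by
      field_simp
      ring
    rw [this]
    exact one_ne_zero
  set B := linE (d 0 / (d 0 ^ 2 + d 1 ^ 2)) (d 1 / (d 0 ^ 2 + d 1 ^ 2)) (-d 1) (d 0) hdet with hB
  have hBd0 : B d 0 = 1 := by
    rw [hB, linE_zero]
    field_simp
  have hBd1 : B d 1 = 0 := by
    rw [hB, linE_one]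
    ring
  choose s hs using hl
  have hb0 : ∀ i, B (b (g i)) 0 = B p 0 + s i := by
    intro i
    rw [hs i, map_add, map_smul, PiLp.add_apply, PiLp.smul_apply, hBd0, smul_eq_mul, mul_one]
  have hb1 : ∀ i, B (b (g i)) 1 = B p 1 := by
    intro i
    rw [hs i, map_add, map_smul, PiLp.add_apply, PiLp.smul_apply, hBd1, smul_eq_mul, mul_zero,
      add_zero]
  obtain ⟨κ', μ', M, hκ, hμ, hM, hM0, hinf, hnc⟩ :=
    stretch (X := fun n => (X n).image B.toAffineEquiv) (κ := 0) (μ := B p 1)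
      (b := fun i => B (b (g i))) (fun n => (hX n).affine B.toAffineEquiv)
      (fun i => pos_linear B (hb (g i)))
      (bdd_linear B (by obtain ⟨R, hR⟩ := hR; exact ⟨R, fun i => hR (g i)⟩))
      (by
        intro i j hij h
        rw [hb0 i, hb0 j, add_right_inj] at h
        apply hij
        have h1 : b (g i) = b (g j) := by rw [hs i, hs j, h]
        exact hg.injective (hinj h1))
      (by
        intro i
        rw [hb1 i]
        ring)
  exact ⟨_, ⟨fun n => ((hX n).affine B.toAffineEquiv).st _ _ (hM0 n), hinf, hnc,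
    ⟨fun i => Fin.elim0 i, fun i => Fin.elim0 i, fun i => Fin.elim0 i, fun i => Fin.elim0 i⟩⟩⟩

theorem stage_succ {K m : ℕ} {X : ℕ → Finset E} (h : Stage K X m) :
    ∃ X' : ℕ → Finset E, Stage K X' (m + 1) := by
  obtain ⟨b, hb, hR, hinj⟩ := h.inf
  have hinj' : Function.Injective b := by
    intro i j hij
    by_contra hne
    exact hinj i j hne (by rw [hij])
  obtain ⟨p, d, g, hg, hl⟩ := exists_line h.kset hb hR hinj'
  choose s hs using hl
  have hb0 : ∀ i, b (g i) 0 = p 0 + s i * d 0 := by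
    intro i
    rw [hs i, PiLp.add_apply, PiLp.smul_apply, smul_eq_mul]
  have hb1 : ∀ i, b (g i) 1 = p 1 + s i * d 1 := by
    intro i
    rw [hs i, PiLp.add_apply, PiLp.smul_apply, smul_eq_mul]
  have hd0 : d 0 ≠ 0 := by
    intro h0
    have h1 : g 0 ≠ g 1 := fun h1 => by
      have := hg.injective h1
      omega
    apply hinj _ _ h1
    rw [hb0, hb0, h0, mul_zero, mul_zero]
  obtain ⟨v, hv, hvn⟩ := h.nc (d 1 / d 0) (p 1 - d 1 / d 0 * p 0)
  obtain ⟨x, hx, hxv⟩ := exists_seq_pos hv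
  obtain ⟨κ', μ', M, hκ, hμ, hM, hM0, hinf, hnc⟩ :=
    stretch (X := X) (κ := d 1 / d 0) (μ := p 1 - d 1 / d 0 * p 0)
      (b := fun i => b (g i)) h.kset (fun i => hb (g i))
      (by obtain ⟨R, hR⟩ := hR; exact ⟨R, fun i => hR (g i)⟩)
      (fun i j hij => hinj _ _ fun h1 => hij (hg.injective h1))
      (by
        intro i
        rw [hb0 i, hb1 i]
        field_simp
        ring)
  obtain ⟨c, hc1, hc2, hc3⟩ := h.far
  have hxc : ∀ i, ∀ᶠ n in (UN : Filter ℕ), x n ≠ c i n := by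
    intro i
    have h1 : ∀ᶠ n in (UN : Filter ℕ), |x n 1| < |v 1| + 1 :=
      (tendsto_coord hxv 1).abs.eventually (gt_mem_nhds (by linarith))
    filter_upwards [h1, (hc2 i).1.eventually_ge_atTop (|v 1| + 1)] with n a1 a2 h0
    rw [h0] at a1
    linarith
  refine ⟨_, ⟨fun n => (h.kset n).st (κ' n) (μ' n) (hM0 n), hinf, hnc,
    ⟨Fin.cons (fun n => st (κ' n) (μ' n) (M n) (x n))
      (fun i n => st (κ' n) (μ' n) (M n) (c i n)), ?_, ?_, ?_⟩⟩⟩
  · intro i
    refine Fin.cases ?_ (fun i => ?_) i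
    · simp only [Fin.cons_zero]
      filter_upwards [hx] with n hn
      exact Finset.mem_image_of_mem _ hn
    · simp only [Fin.cons_succ]
      filter_upwards [hc1 i] with n hn
      exact Finset.mem_image_of_mem _ hn
  · intro i
    refine Fin.cases ?_ (fun i => ?_) i
    · simp only [Fin.cons_zero]
      exact vinf_new hκ hμ hM hM0 hxv hvn
    · simp only [Fin.cons_succ]
      exact vinf_old hκ hμ hM hM0 (hc2 i)
  · intro i j
    refine Fin.cases ?_ (fun i => ?_) i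
    · refine Fin.cases ?_ (fun j => ?_) j
      · intro h0
        exact absurd rfl h0
      · intro _
        simp only [Fin.cons_zero, Fin.cons_succ]
        filter_upwards [hxc j] with n hn h0
        exact hn (st_inj (hM0 n) h0)
    · refine Fin.cases ?_ (fun j => ?_) j
      · intro _
        simp only [Fin.cons_zero, Fin.cons_succ]
        filter_upwards [hxc i] with n hn h0
        exact hn (st_inj (hM0 n) h0).symm
      · intro hij
        simp only [Fin.cons_succ]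
        filter_upwards [hc3 i j fun h0 => hij (by rw [h0])] with n hn h0
        exact hn (st_inj (hM0 n) h0)

namespace Stages

theorem pair_contra {K : ℕ} {X : ℕ → Finset E} (hX : ∀ n, KSet K (X n)) {κ μ : ℝ} {b : ℕ → E}
    (hb : ∀ i, b i ∈ pos X) (hinj : ∀ i j, i ≠ j → b i 0 ≠ b j 0)
    (hline : ∀ i, b i 1 = κ * b i 0 + μ) {c c' : ℕ → E}
    (hc : ∀ᶠ n in (UN : Filter ℕ), c n ∈ X n) (hc' : ∀ᶠ n in (UN : Filter ℕ), c' n ∈ X n)
    (hne : ∀ᶠ n in (UN : Filter ℕ), c n ≠ c' n) (hv : VInf c) (hv' : VInf c')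
    (hneg : ∀ᶠ n in (UN : Filter ℕ), c n 1 < 0) (hneg' : ∀ᶠ n in (UN : Filter ℕ), c' n 1 < 0) :
    False := by
  have hdet : (1 : ℝ) * (-1) - 0 * 0 ≠ 0 := by norm_num
  set B := linE 1 0 0 (-1) hdet with hB
  have hB0 : ∀ v : E, B v 0 = v 0 := by
    intro v
    rw [hB, linE_zero]
    ring
  have hB1 : ∀ v : E, B v 1 = -v 1 := by
    intro v
    rw [hB, linE_one]
    ring
  have hV : ∀ e : ℕ → E, VInf e → VInf fun n => B (e n) := by
    intro e he
    constructor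
    · refine he.1.congr fun n => ?_
      rw [hB1, abs_neg]
    · have := he.2.neg
      rw [neg_zero] at this
      refine this.congr fun n => ?_
      rw [hB0, hB1, div_neg]
  have hmem : ∀ e : ℕ → E, (∀ᶠ n in (UN : Filter ℕ), e n ∈ X n) →
      ∀ᶠ n in (UN : Filter ℕ), B (e n) ∈ (X n).image B.toAffineEquiv := by
    intro e he
    filter_upwards [he] with n hn
    have : B (e n) ∈ (X n).image B.toAffineEquiv := Finset.mem_image_of_mem _ hn
    exact this
  refine lemmaV (X := fun n => (X n).image B.toAffineEquiv) (κ := -κ) (μ := -μ)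
    (b := fun i => B (b i)) (c := fun n => B (c n)) (c' := fun n => B (c' n))
    (fun n => (hX n).affine B.toAffineEquiv) (fun i => pos_linear B (hb i)) ?_ ?_
    (hmem c hc) (hmem c' hc') ?_ (hV c hv) (hV c' hv') ?_ ?_
  · intro i j hij
    rw [hB0, hB0]
    exact hinj i j hij
  · intro i
    rw [hB0, hB1, hline i]
    ring
  · filter_upwards [hne] with n hn h0
    exact hn (B.injective h0)
  · filter_upwards [hneg] with n hn
    rw [hB1]
    linarith
  · filter_upwards [hneg'] with n hn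
    rw [hB1]
    linarith

end Stages

theorem stage_three {K : ℕ} {X : ℕ → Finset E} (h : Stage K X 3) : False := by
  obtain ⟨b, hb, hR, hinj⟩ := h.inf
  have hinj' : Function.Injective b := by
    intro i j hij
    by_contra hne
    exact hinj i j hne (by rw [hij])
  obtain ⟨p, d, g, hg, hl⟩ := exists_line h.kset hb hR hinj'
  choose s hs using hl
  have hb0 : ∀ i, b (g i) 0 = p 0 + s i * d 0 := by
    intro i
    rw [hs i, PiLp.add_apply, PiLp.smul_apply, smul_eq_mul]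
  have hb1 : ∀ i, b (g i) 1 = p 1 + s i * d 1 := by
    intro i
    rw [hs i, PiLp.add_apply, PiLp.smul_apply, smul_eq_mul]
  have hd0 : d 0 ≠ 0 := by
    intro h0
    have h1 : g 0 ≠ g 1 := fun h1 => by
      have := hg.injective h1
      omega
    apply hinj _ _ h1
    rw [hb0, hb0, h0, mul_zero, mul_zero]
  have hline : ∀ i, b (g i) 1 = d 1 / d 0 * b (g i) 0 + (p 1 - d 1 / d 0 * p 0) := by
    intro i
    rw [hb0 i, hb1 i]
    field_simp
    ring
  have hinjg : ∀ i j, i ≠ j → b (g i) 0 ≠ b (g j) 0 :=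
    fun i j hij => hinj _ _ fun h1 => hij (hg.injective h1)
  obtain ⟨c, hc1, hc2, hc3⟩ := h.far
  have hsign : ∀ i, (∀ᶠ n in (UN : Filter ℕ), 0 < c i n 1) ∨
      (∀ᶠ n in (UN : Filter ℕ), c i n 1 < 0) := by
    intro i
    rw [← Ultrafilter.eventually_or]
    filter_upwards [(hc2 i).1.eventually_ge_atTop 1] with n hn
    rcases lt_trichotomy (c i n 1) 0 with h0 | h0 | h0
    · exact Or.inr h0
    · rw [h0, abs_zero] at hn
      linarith
    · exact Or.inl h0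
  have hpp : ∀ i j, i ≠ j → (∀ᶠ n in (UN : Filter ℕ), 0 < c i n 1) →
      (∀ᶠ n in (UN : Filter ℕ), 0 < c j n 1) → False := fun i j hij h1 h2 =>
    lemmaV h.kset (fun i => hb (g i)) hinjg hline (hc1 i) (hc1 j) (hc3 i j hij) (hc2 i) (hc2 j)
      h1 h2
  have hmm : ∀ i j, i ≠ j → (∀ᶠ n in (UN : Filter ℕ), c i n 1 < 0) →
      (∀ᶠ n in (UN : Filter ℕ), c j n 1 < 0) → False := fun i j hij h1 h2 =>
    pair_contra h.kset (fun i => hb (g i)) hinjg hline (hc1 i) (hc1 j) (hc3 i j hij) (hc2 i)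
      (hc2 j) h1 h2
  have h01 : (0 : Fin 3) ≠ 1 := by decide
  have h02 : (0 : Fin 3) ≠ 2 := by decide
  have h12 : (1 : Fin 3) ≠ 2 := by decide
  rcases hsign 0 with a0 | a0 <;> rcases hsign 1 with a1 | a1 <;> rcases hsign 2 with a2 | a2
  · exact hpp 0 1 h01 a0 a1
  · exact hpp 0 1 h01 a0 a1
  · exact hpp 0 2 h02 a0 a2
  · exact hmm 1 2 h12 a1 a2
  · exact hpp 1 2 h12 a1 a2
  · exact hmm 0 2 h02 a0 a2
  · exact hmm 0 1 h01 a0 a1
  · exact hmm 0 1 h01 a0 a1

end Pool.Agent.Lib.MP_8bcb9d_co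
end

section

/-!
# Part I: the set of positions is finite
-/

set_option autoImplicit false

namespace Pool.Agent.Lib.MP_8bcb9d_co

open Filter Topology

/-- **Theorem WF.** -/
theorem pos_finite {K : ℕ} {X : ℕ → Finset E} (hX : ∀ n, KSet K (X n)) : (pos X).Finite := by
  by_contra hinf
  obtain ⟨X0, h0, b, hinj, hb, hR⟩ := bounded_inf hX hinf
  obtain ⟨X1, h1⟩ := stage_zero h0 hb hR hinj
  obtain ⟨X2, h2⟩ := stage_succ h1
  obtain ⟨X3, h3⟩ := stage_succ h2
  obtain ⟨X4, h4⟩ := stage_succ h3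
  exact stage_three h4

theorem NIL {K : ℕ} {X : ℕ → Finset E} (hX : ∀ n, GenPos (X n))
    (hdeg : ∀ n, ∀ x ∈ X n, ∀ y ∈ X n, x ≠ y → (Deg (X n) x y).ncard ≤ K) :
    {x : E | ∃ f : ℕ → E, (∀ᶠ n in (hyperfilter ℕ : Filter ℕ), f n ∈ X n) ∧
      Tendsto f (hyperfilter ℕ) (𝓝 x)}.Finite := by
  refine (pos_finite (K := K) fun n => ⟨hX n, hdeg n⟩).subset ?_
  rintro x ⟨f, h1, h2⟩
  exact mem_ulim_of_tendsto h1 h2

end Pool.Agent.Lib.MP_8bcb9d_co
end
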